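import Pool.Agent.MP_6a06cd_co.H45.Defs

namespace Pool.Agent.MP_6a06cd_co.H45

open Finset

abbrev Cell := ℤ × ℤ

def Conn (P : Finset Cell) (a b : Cell) : Prop :=
  a ∈ P ∧ Relation.ReflTransGen (fun u v => Adj u v ∧ v ∈ P) a b

def Good (O F : Set Cell) (P : Finset Cell) : Prop :=
  (∀ p ∈ P, p ∉ F) ∧ ∀ p ∈ P, ∃ o ∈ O, Conn P o p

def Bd (x : ℝ) (N : ℕ) (O F : Set Cell) (y : ℝ) : Prop :=
  ∀ G : Finset (Finset Cell), (∀ P ∈ G, Good O F P ∧ P.card ≤ N) → ∑ P ∈ G, x ^ P.card ≤ y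

theorem Adj.symm {p q : Cell} (h : Adj p q) : Adj q p := by
  unfold Adj at *; rw [abs_sub_comm q.1, abs_sub_comm q.2]; exact h

theorem Conn.refl {P : Finset Cell} {a : Cell} (h : a ∈ P) : Conn P a a :=
  ⟨h, Relation.ReflTransGen.refl⟩

theorem Conn.tail {P : Finset Cell} {a b c : Cell} (h : Conn P a b) (hbc : Adj b c) (hc : c ∈ P) :
    Conn P a c := ⟨h.1, h.2.tail ⟨hbc, hc⟩⟩

theorem Conn.mem {P : Finset Cell} {a b : Cell} (h : Conn P a b) : b ∈ P := by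
  obtain ⟨ha, h⟩ := h
  induction h with
  | refl => exact ha
  | tail _ h _ => exact h.2

theorem Conn.ind {P : Finset Cell} {a : Cell} {M : Cell → Prop} (h0 : a ∈ P → M a)
    (hs : ∀ u v, Conn P a u → M u → Adj u v → v ∈ P → M v) {b : Cell} (h : Conn P a b) : M b := by
  obtain ⟨ha, h⟩ := h
  induction h with
  | refl => exact h0 ha
  | tail h1 h2 ih => exact hs _ _ ⟨ha, h1⟩ ih h2.1 h2.2

theorem Bd.mono_val {x : ℝ} {N : ℕ} {O F : Set Cell} {y y' : ℝ} (h : Bd x N O F y) (hy : y ≤ y') :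
    Bd x N O F y' := fun G hG => (h G hG).trans hy

theorem Bd.map {x : ℝ} {N : ℕ} {O F O' F' : Set Cell} {y : ℝ} (φ : Cell → Cell)
    (hinj : Function.Injective φ) (hadj : ∀ u v, Adj u v → Adj (φ u) (φ v))
    (hO : ∀ p ∈ O, p ∉ F → φ p ∈ O') (hF : ∀ p, φ p ∈ F' → p ∈ F)
    (h : Bd x N O' F' y) : Bd x N O F y := by
  classical
  intro G hG
  have hi : Function.Injective (fun P : Finset Cell => P.image φ) := Finset.image_injective hinj
  have := h (G.image (fun P => P.image φ)) (by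
    intro Q hQ
    obtain ⟨P, hP, rfl⟩ := mem_image.1 hQ
    obtain ⟨⟨h1, h2⟩, h3⟩ := hG P hP
    refine ⟨⟨?_, ?_⟩, ?_⟩
    · intro q hq
      obtain ⟨p, hp, rfl⟩ := mem_image.1 hq
      exact fun hh => h1 p hp (hF p hh)
    · intro q hq
      obtain ⟨p, hp, rfl⟩ := mem_image.1 hq
      obtain ⟨o, ho, hc⟩ := h2 p hp
      refine ⟨φ o, hO o ho (h1 o hc.1), ?_⟩
      refine Conn.ind (M := fun b => Conn (P.image φ) (φ o) (φ b)) ?_ ?_ hc
      · exact fun ha => Conn.refl (mem_image_of_mem _ ha)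
      · exact fun u v _ hu huv hv => hu.tail (hadj _ _ huv) (mem_image_of_mem _ hv)
    · rw [card_image_of_injective _ hinj]; exact h3)
  rw [sum_image (fun a _ b _ hab => hi hab)] at this
  simpa [card_image_of_injective _ hinj] using this

theorem Bd.mono {x : ℝ} {N : ℕ} {O F O' F' : Set Cell} {y : ℝ}
    (hO : ∀ p ∈ O, p ∉ F → p ∈ O') (hF : ∀ p, p ∈ F' → p ∈ F)
    (h : Bd x N O' F' y) : Bd x N O F y :=
  Bd.map id Function.injective_id (fun _ _ h => h) hO hF h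

theorem Good.eq_empty {O F : Set Cell} {P : Finset Cell} (hO : ∀ p ∈ O, p ∈ F) (h : Good O F P) :
    P = ∅ := by
  rcases P.eq_empty_or_nonempty with h0 | ⟨p, hp⟩
  · exact h0
  · obtain ⟨o, ho, hc⟩ := h.2 p hp
    exact absurd (hO o ho) (h.1 o hc.1)

theorem sum_le_one_of_empty {x : ℝ} (G : Finset (Finset Cell)) (h : ∀ P ∈ G, P = ∅) :
    ∑ P ∈ G, x ^ P.card ≤ 1 := by
  have hs : G ⊆ {∅} := fun P hP => by simp [h P hP]
  rcases subset_singleton_iff.1 hs with h0 | h0 <;> simp [h0]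

theorem Bd.empty {x : ℝ} {N : ℕ} {O F : Set Cell} (hO : ∀ p ∈ O, p ∈ F) : Bd x N O F 1 :=
  fun G hG => sum_le_one_of_empty G (fun P hP => (hG P hP).1.eq_empty hO)

theorem Bd.zero {x : ℝ} {O F : Set Cell} {y : ℝ} (hy : 1 ≤ y) : Bd x 0 O F y :=
  fun G hG => (sum_le_one_of_empty G (fun P hP =>
    card_eq_zero.1 (Nat.le_zero.1 (hG P hP).2))).trans hy

theorem Bd.single {x : ℝ} (hx : 0 ≤ x) {N : ℕ} {O F O' F' : Set Cell} {y : ℝ} (c : Cell)
    (hO : ∀ p ∈ O, p ∉ F → p = c) (hO' : ∀ p, Adj c p → p ∈ O')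
    (hF' : ∀ p ∈ F', p ∈ F ∨ p = c) (h : Bd x N O' F' y) : Bd x (N + 1) O F (1 + x * y) := by
  classical
  intro G hG
  rw [← sum_filter_add_sum_filter_not G (fun P => c ∉ P)]
  refine add_le_add ?_ ?_
  · refine sum_le_one_of_empty _ (fun P hP => ?_)
    obtain ⟨hP, hc⟩ := mem_filter.1 hP
    rcases P.eq_empty_or_nonempty with h0 | ⟨p, hp⟩
    · exact h0
    · obtain ⟨o, ho, hco⟩ := (hG P hP).1.2 p hp
      have := hO o ho ((hG P hP).1.1 o hco.1)
      exact absurd (this ▸ hco.1) hc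
  · set G' := G.filter (fun P => ¬ c ∉ P) with hG'
    have hc : ∀ P ∈ G', c ∈ P := fun P hP => not_not.1 (mem_filter.1 hP).2
    have hinj : Set.InjOn (fun P : Finset Cell => P.erase c) G' := by
      intro P hP Q hQ hPQ
      have h1 := insert_erase (hc P hP)
      have h2 := insert_erase (hc Q hQ)
      simp only at hPQ
      rw [← h1, ← h2, hPQ]
    have := h (G'.image (fun P => P.erase c)) (by
      intro Q hQ
      obtain ⟨P, hP, rfl⟩ := mem_image.1 hQ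
      obtain ⟨⟨h1, h2⟩, h3⟩ := hG P (mem_filter.1 hP).1
      refine ⟨⟨?_, ?_⟩, ?_⟩
      · intro p hp hh
        rcases hF' p hh with h4 | h4
        · exact h1 p (mem_of_mem_erase hp) h4
        · exact (ne_of_mem_erase hp) h4
      · intro p hp
        obtain ⟨o, ho, hco⟩ := h2 p (mem_of_mem_erase hp)
        have hoc := hO o ho (h1 o hco.1)
        have key : p ≠ c → ∃ o' ∈ O', Conn (P.erase c) o' p := by
          refine Conn.ind (M := fun b => b ≠ c → ∃ o' ∈ O', Conn (P.erase c) o' b) ?_ ?_ hco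
          · exact fun _ hne => absurd hoc hne
          · intro u v _ hu huv hv hvc
            by_cases huc : u = c
            · exact ⟨v, hO' v (huc ▸ huv), Conn.refl (mem_erase.2 ⟨hvc, hv⟩)⟩
            · obtain ⟨o', ho', hc'⟩ := hu huc
              exact ⟨o', ho', hc'.tail huv (mem_erase.2 ⟨hvc, hv⟩)⟩
        exact key (ne_of_mem_erase hp)
      · rw [card_erase_of_mem (hc P hP)]; omega)
    rw [sum_image hinj] at this
    calc ∑ P ∈ G', x ^ P.card = x * ∑ P ∈ G', x ^ (P.erase c).card := by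
          rw [mul_sum]
          refine sum_congr rfl (fun P hP => ?_)
          rw [← card_erase_add_one (hc P hP), pow_succ, mul_comm]
      _ ≤ x * y := mul_le_mul_of_nonneg_left this hx

/-- Cells of `Q` or adjacent to `Q`. -/
def Touch (Q : Finset Cell) (z : Cell) : Prop := z ∈ Q ∨ ∃ u ∈ Q, Adj u z

open Classical in
noncomputable def firstPart (O1 O2 : Set Cell) (P : Finset Cell) : Finset Cell :=
  P.filter (fun p => ∃ o ∈ O1, Conn (P.filter (fun q => q ∉ O2)) o p)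

theorem firstPart_subset (O1 O2 : Set Cell) (P : Finset Cell) : firstPart O1 O2 P ⊆ P := by
  classical
  exact filter_subset _ _

theorem firstPart_good {O1 O2 F : Set Cell} {P : Finset Cell} (hF : ∀ p ∈ P, p ∉ F) :
    Good O1 (F ∪ O2) (firstPart O1 O2 P) := by
  classical
  refine ⟨?_, ?_⟩
  · intro p hp hh
    obtain ⟨hpP, o, _, hc⟩ := mem_filter.1 hp
    rcases hh with hh | hh
    · exact hF p hpP hh
    · exact (mem_filter.1 hc.mem).2 hh
  · intro p hp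
    obtain ⟨_, o, ho, hc⟩ := mem_filter.1 hp
    refine ⟨o, ho, ?_⟩
    refine Conn.ind (M := fun b => Conn (firstPart O1 O2 P) o b) ?_ ?_ hc
    · exact fun ha => Conn.refl (mem_filter.2 ⟨(mem_filter.1 ha).1, o, ho, Conn.refl ha⟩)
    · intro u v hu hM huv hv
      exact hM.tail huv (mem_filter.2 ⟨(mem_filter.1 hv).1, o, ho, hu.tail huv hv⟩)

theorem secondPart_good {O O1 O2 F : Set Cell} {P : Finset Cell}
    (hO : ∀ p ∈ O, p ∉ F → p ∈ O1 ∨ p ∈ O2) (hd : ∀ p ∈ O1, p ∉ O2) (h : Good O F P) :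
    Good O2 (F ∪ O1 ∪ {z | z ∉ O2 ∧ Touch (firstPart O1 O2 P) z}) (P \ firstPart O1 O2 P) := by
  classical
  have hext : ∀ u v, u ∈ firstPart O1 O2 P → Adj u v → v ∈ P → v ∉ O2 →
      v ∈ firstPart O1 O2 P := by
    intro u v hu huv hv hv2
    obtain ⟨_, o, ho, hc⟩ := mem_filter.1 hu
    exact mem_filter.2 ⟨hv, o, ho, hc.tail huv (mem_filter.2 ⟨hv, hv2⟩)⟩
  have hO1 : ∀ p ∈ P, p ∈ O1 → p ∈ firstPart O1 O2 P := fun p hp h1 =>
    mem_filter.2 ⟨hp, p, h1, Conn.refl (mem_filter.2 ⟨hp, hd p h1⟩)⟩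
  refine ⟨?_, ?_⟩
  · intro p hp hh
    obtain ⟨hpP, hp1⟩ := mem_sdiff.1 hp
    rcases hh with (hh | hh) | ⟨h2, hh | ⟨u, hu, hup⟩⟩
    · exact h.1 p hpP hh
    · exact hp1 (hO1 p hpP hh)
    · exact hp1 hh
    · exact hp1 (hext u p hu hup hpP h2)
  · intro p hp
    obtain ⟨hpP, hp1⟩ := mem_sdiff.1 hp
    obtain ⟨o, ho, hc⟩ := h.2 p hpP
    have key : p ∉ firstPart O1 O2 P → ∃ o' ∈ O2, Conn (P \ firstPart O1 O2 P) o' p := by
      refine Conn.ind (M := fun b => b ∉ firstPart O1 O2 P →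
        ∃ o' ∈ O2, Conn (P \ firstPart O1 O2 P) o' b) ?_ ?_ hc
      · intro ha hn
        rcases hO o ho (h.1 o ha) with h1 | h2
        · exact absurd (hO1 o ha h1) hn
        · exact ⟨o, h2, Conn.refl (mem_sdiff.2 ⟨ha, hn⟩)⟩
      · intro u v _ hM huv hv hn
        by_cases h2 : v ∈ O2
        · exact ⟨v, h2, Conn.refl (mem_sdiff.2 ⟨hv, hn⟩)⟩
        · have hu : u ∉ firstPart O1 O2 P := fun hu => hn (hext u v hu huv hv h2)
          obtain ⟨o', ho', hc'⟩ := hM hu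
          exact ⟨o', ho', hc'.tail huv (mem_sdiff.2 ⟨hv, hn⟩)⟩
    exact key hp1

theorem Bd.split {x : ℝ} (hx : 0 ≤ x) {N : ℕ} {O F O1 O2 : Set Cell} {y : ℝ}
    (hO : ∀ p ∈ O, p ∉ F → p ∈ O1 ∨ p ∈ O2) (hd : ∀ p ∈ O1, p ∉ O2) (g : Finset Cell → ℝ)
    (hg : ∀ Q, Good O1 (F ∪ O2) Q → Bd x N O2 (F ∪ O1 ∪ {z | z ∉ O2 ∧ Touch Q z}) (g Q))
    (hV : ∀ G : Finset (Finset Cell), (∀ Q ∈ G, Good O1 (F ∪ O2) Q ∧ Q.card ≤ N) →
      ∑ Q ∈ G, x ^ Q.card * g Q ≤ y) : Bd x N O F y := by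
  classical
  intro G hG
  have hmaps : ∀ P ∈ G, firstPart O1 O2 P ∈ G.image (firstPart O1 O2) :=
    fun P hP => mem_image_of_mem _ hP
  rw [← sum_fiberwise_of_maps_to hmaps]
  have hgood : ∀ Q ∈ G.image (firstPart O1 O2), Good O1 (F ∪ O2) Q ∧ Q.card ≤ N := by
    intro Q hQ
    obtain ⟨P, hP, rfl⟩ := mem_image.1 hQ
    exact ⟨firstPart_good (hG P hP).1.1,
      (card_le_card (firstPart_subset _ _ _)).trans (hG P hP).2⟩
  refine le_trans (sum_le_sum (fun Q hQ => ?_)) (hV _ hgood)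
  set G' := G.filter (fun P => firstPart O1 O2 P = Q) with hG'
  have hsub : ∀ P ∈ G', Q ⊆ P := fun P hP =>
    (mem_filter.1 hP).2 ▸ firstPart_subset O1 O2 P
  have hinj : Set.InjOn (fun P : Finset Cell => P \ Q) G' := by
    intro P hP P' hP' hPP
    have h1 := sdiff_union_of_subset (hsub P hP)
    have h2 := sdiff_union_of_subset (hsub P' hP')
    simp only at hPP
    rw [← h1, ← h2, hPP]
  have := hg Q (hgood Q hQ).1 (G'.image (fun P => P \ Q)) (by
    intro R hR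
    obtain ⟨P, hP, rfl⟩ := mem_image.1 hR
    obtain ⟨hPG, hPQ⟩ := mem_filter.1 hP
    refine ⟨?_, (card_le_card sdiff_subset).trans (hG P hPG).2⟩
    have := secondPart_good hO hd (hG P hPG).1
    rwa [hPQ] at this)
  rw [sum_image hinj] at this
  calc ∑ P ∈ G', x ^ P.card = x ^ Q.card * ∑ P ∈ G', x ^ (P \ Q).card := by
        rw [mul_sum]
        refine sum_congr rfl (fun P hP => ?_)
        rw [← pow_add, add_comm, card_sdiff_add_card_eq_card (hsub P hP)]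
    _ ≤ x ^ Q.card * g Q := mul_le_mul_of_nonneg_left this (pow_nonneg hx _)

end Pool.Agent.MP_6a06cd_co.H45
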