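import Pool.Agent.MP_6a06cd_co.H45.Chk
import Pool.Agent.MP_6a06cd_co.H45.Core

namespace Pool.Agent.MP_6a06cd_co.H45

def cell (i : ℕ) : Cell := (((i / 32 : ℕ) : ℤ), ((i % 32 : ℕ) : ℤ))

def dec (m : ℕ) : Set Cell := {p | ∃ i, m.testBit i = true ∧ cell i = p}

def Box (m : ℕ) : Prop := ∀ i, m.testBit i = true → i % 32 < 17 ∧ i < 544

theorem adj_iff (p q : Cell) : Adj p q ↔
    (p.1 = q.1 ∧ (p.2 = q.2 + 1 ∨ p.2 + 1 = q.2)) ∨ (p.2 = q.2 ∧ (p.1 = q.1 + 1 ∨ p.1 + 1 = q.1)) := by
  unfold Adj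
  rcases abs_cases (p.1 - q.1) with h1 | h1 <;> rcases abs_cases (p.2 - q.2) with h2 | h2 <;> omega

theorem cell_inj {i j : ℕ} (h : cell i = cell j) : i = j := by
  unfold cell at h
  have h1 := congrArg Prod.fst h
  have h2 := congrArg Prod.snd h
  simp only at h1 h2
  omega

theorem mem_dec {m i : ℕ} : cell i ∈ dec m ↔ m.testBit i = true :=
  ⟨fun ⟨j, hj, h⟩ => cell_inj h ▸ hj, fun h => ⟨i, h, rfl⟩⟩

theorem band_true {a b : Bool} : band a b = true ↔ a = true ∧ b = true := by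
  cases a <;> simp [band]

theorem brec_true {a b : Bool} :
    Bool.rec (motive := fun _ => Bool) false b a = true ↔ a = true ∧ b = true := by
  cases a <;> simp

theorem force_eq (n : ℕ) (k : ℕ → Bool) : force n k = k n := rfl

theorem land_eq (a b : ℕ) : Nat.land a b = a &&& b := rfl
theorem lor_eq (a b : ℕ) : Nat.lor a b = a ||| b := rfl
theorem xor_eq (a b : ℕ) : Nat.xor a b = a ^^^ b := rfl
theorem shl_eq (a b : ℕ) : Nat.shiftLeft a b = a <<< b := rfl
theorem shr_eq (a b : ℕ) : Nat.shiftRight a b = a >>> b := rfl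

theorem bits_of_land {a b : ℕ} (h : Nat.beq (Nat.land a b) a = true) {i : ℕ}
    (hi : a.testBit i = true) : b.testBit i = true := by
  have h1 : a &&& b = a := Nat.eq_of_beq_eq_true h
  have h2 : (a &&& b).testBit i = true := by rw [h1]; exact hi
  rw [Nat.testBit_and] at h2
  simp only [Bool.and_eq_true] at h2
  exact h2.2

theorem bits_of_lor {a b : ℕ} (h : Nat.beq (Nat.lor a b) b = true) {i : ℕ}
    (hi : a.testBit i = true) : b.testBit i = true := by
  have h1 : a ||| b = b := Nat.eq_of_beq_eq_true h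
  rw [← h1, Nat.testBit_or, hi, Bool.true_or]

theorem dec_of_land {a b : ℕ} (h : Nat.beq (Nat.land a b) a = true) : dec a ⊆ dec b :=
  fun _ ⟨i, hi, hp⟩ => ⟨i, bits_of_land h hi, hp⟩

theorem dec_of_lor {a b : ℕ} (h : Nat.beq (Nat.lor a b) b = true) : dec a ⊆ dec b :=
  fun _ ⟨i, hi, hp⟩ => ⟨i, bits_of_lor h hi, hp⟩

theorem dec_of_sub {a b : ℕ} (h : sub a b = true) : dec a ⊆ dec b := dec_of_land h

theorem mem_dec_lor {a b : ℕ} {p : Cell} : p ∈ dec (Nat.lor a b) ↔ p ∈ dec a ∨ p ∈ dec b := by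
  constructor
  · rintro ⟨i, hi, hp⟩
    rw [lor_eq, Nat.testBit_or, Bool.or_eq_true] at hi
    rcases hi with hi | hi
    · exact Or.inl ⟨i, hi, hp⟩
    · exact Or.inr ⟨i, hi, hp⟩
  · rintro (⟨i, hi, hp⟩ | ⟨i, hi, hp⟩)
    · exact ⟨i, by rw [lor_eq, Nat.testBit_or, hi, Bool.true_or], hp⟩
    · exact ⟨i, by rw [lor_eq, Nat.testBit_or, hi, Bool.or_true], hp⟩

theorem not_mem_dec_zero {p : Cell} : p ∉ dec 0 := by
  rintro ⟨i, hi, _⟩
  simp at hi

theorem mem_dec_diff {a b : ℕ} {p : Cell} :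
    p ∈ dec (Nat.xor a (Nat.land a b)) ↔ p ∈ dec a ∧ p ∉ dec b := by
  constructor
  · rintro ⟨i, hi, rfl⟩
    rw [mem_dec, mem_dec]
    rw [xor_eq, land_eq, Nat.testBit_xor, Nat.testBit_and] at hi
    revert hi
    cases a.testBit i <;> cases b.testBit i <;> simp
  · rintro ⟨⟨i, hi, rfl⟩, h⟩
    rw [mem_dec] at h ⊢
    rw [xor_eq, land_eq, Nat.testBit_xor, Nat.testBit_and, hi]
    simpa using h

theorem pos_le (d p : ℕ) : pos d p % 32 ≤ 15 := by
  unfold pos
  have h : (32 : ℕ) = 2 ^ 5 := by norm_num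
  rw [land_eq, h, ← Nat.and_two_pow_sub_one_eq_mod, Nat.and_assoc]
  have h2 : (nat_lit 1007 &&& 2 ^ 5 - 1) = 15 := by decide
  rw [h2]
  exact Nat.and_le_right

theorem cell_add {i s : ℕ} (h : i % 32 + s % 32 < 32) : cell (i + s) = cell i + cell s := by
  unfold cell
  ext <;> simp only [Prod.fst_add, Prod.snd_add] <;> omega

theorem mem_dec_shift {m s : ℕ} (h : ∀ i, m.testBit i = true → i % 32 + s % 32 < 32) {p : Cell} :
    p ∈ dec (Nat.shiftLeft m s) ↔ p - cell s ∈ dec m := by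
  constructor
  · rintro ⟨j, hj, rfl⟩
    rw [shl_eq, Nat.testBit_shiftLeft] at hj
    simp only [Bool.and_eq_true, decide_eq_true_eq] at hj
    refine ⟨j - s, hj.2, ?_⟩
    have := cell_add (h _ hj.2)
    rw [Nat.sub_add_cancel hj.1] at this
    rw [this, add_sub_cancel_right]
  · rintro ⟨i, hi, hp⟩
    refine ⟨i + s, ?_, ?_⟩
    · rw [shl_eq, Nat.testBit_shiftLeft]
      simp [hi]
    · rw [cell_add (h i hi), hp, sub_add_cancel]

theorem adj_sub (u v w : Cell) (h : Adj u v) : Adj (u - w) (v - w) := by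
  rw [adj_iff] at h ⊢
  simp only [Prod.fst_sub, Prod.snd_sub]
  omega

theorem adj_add (u v w : Cell) (h : Adj u v) : Adj (u + w) (v + w) := by
  rw [adj_iff] at h ⊢
  simp only [Prod.fst_add, Prod.snd_add]
  omega

theorem Bd.to_shift {x : ℝ} {N O F s : ℕ} {y : ℝ}
    (hO : ∀ i, O.testBit i = true → i % 32 + s % 32 < 32)
    (hF : ∀ i, F.testBit i = true → i % 32 + s % 32 < 32) (h : Bd x N (dec O) (dec F) y) :
    Bd x N (dec (Nat.shiftLeft O s)) (dec (Nat.shiftLeft F s)) y :=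
  Bd.map (fun p => p - cell s) (sub_left_injective) (fun u v => adj_sub u v _)
    (fun _ hp _ => (mem_dec_shift hO).1 hp) (fun _ hp => (mem_dec_shift hF).2 hp) h

theorem Bd.of_shift {x : ℝ} {N O F s : ℕ} {y : ℝ}
    (hO : ∀ i, O.testBit i = true → i % 32 + s % 32 < 32)
    (hF : ∀ i, F.testBit i = true → i % 32 + s % 32 < 32)
    (h : Bd x N (dec (Nat.shiftLeft O s)) (dec (Nat.shiftLeft F s)) y) :
    Bd x N (dec O) (dec F) y :=
  Bd.map (fun p => p + cell s) (add_left_injective _) (fun u v => adj_add u v _)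
    (fun p hp _ => (mem_dec_shift hO).2 (by simpa using hp))
    (fun p hp => by simpa using (mem_dec_shift hF).1 hp) h

theorem Box.nowrap {m s : ℕ} (h : Box m) (hs : s % 32 ≤ 15) (i : ℕ) (hi : m.testBit i = true) :
    i % 32 + s % 32 < 32 := by
  have := (h i hi).1
  omega

theorem mem_dec_bit {z : ℕ} {p : Cell} : p ∈ dec (bit z) ↔ p = cell (z + 33) := by
  have key : ∀ j, (bit z).testBit j = true ↔ j = z + 33 := by
    intro j
    unfold bit
    have h : nat_lit 8589934592 = 2 ^ 33 := by norm_num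
    rw [shl_eq, Nat.testBit_shiftLeft, h, Nat.testBit_two_pow]
    simp only [Bool.and_eq_true, decide_eq_true_eq]
    omega
  constructor
  · rintro ⟨j, hj, rfl⟩
    rw [(key j).1 hj]
  · rintro rfl
    exact ⟨_, (key _).2 rfl, rfl⟩

theorem testBit_plus {z j : ℕ} : (plus z).testBit j = true ↔
    j = z + 1 ∨ j = z + 32 ∨ j = z + 33 ∨ j = z + 34 ∨ j = z + 65 := by
  unfold plus
  have h : nat_lit 36893488177483874306 = 2 ^ 1 ||| (2 ^ 32 ||| (2 ^ 33 ||| (2 ^ 34 ||| 2 ^ 65))) := by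
    decide
  rw [shl_eq, Nat.testBit_shiftLeft, h]
  simp only [Nat.testBit_or, Nat.testBit_two_pow, Bool.and_eq_true, Bool.or_eq_true,
    decide_eq_true_eq]
  omega

theorem mem_dec_plus {z : ℕ} (hz : z % 32 ≤ 15) {p : Cell} :
    p ∈ dec (plus z) ↔ p = cell (z + 33) ∨ Adj p (cell (z + 33)) := by
  constructor
  · rintro ⟨j, hj, rfl⟩
    rw [adj_iff]
    rcases testBit_plus.1 hj with h | h | h | h | h <;> subst h
    · right; simp only [cell]; omega
    · right; simp only [cell]; omega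
    · left; rfl
    · right; simp only [cell]; omega
    · right; simp only [cell]; omega
  · intro h
    rcases h with h | h
    · exact ⟨z + 33, testBit_plus.2 (by omega), h.symm⟩
    · rw [adj_iff] at h
      simp only [cell] at h
      rcases h with ⟨h1, h2 | h2⟩ | ⟨h1, h2 | h2⟩
      · refine ⟨z + 34, testBit_plus.2 (by omega), ?_⟩
        ext <;> simp only [cell] <;> omega
      · refine ⟨z + 32, testBit_plus.2 (by omega), ?_⟩
        ext <;> simp only [cell] <;> omega
      · refine ⟨z + 65, testBit_plus.2 (by omega), ?_⟩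
        ext <;> simp only [cell] <;> omega
      · refine ⟨z + 1, testBit_plus.2 (by omega), ?_⟩
        ext <;> simp only [cell] <;> omega

theorem box_bits (i : ℕ) (h : box.testBit i = true) : i % 32 < 17 ∧ i < 544 := by
  have h1 : ∀ i < 544, box.testBit i = true → i % 32 < 17 := by decide +kernel
  have h2 : box < 2 ^ 544 := by decide +kernel
  by_cases hi : i < 544
  · exact ⟨h1 i hi h, hi⟩
  · have := Nat.testBit_lt_two_pow (lt_of_lt_of_le h2 (Nat.pow_le_pow_right (by norm_num)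
      (not_lt.1 hi)))
    rw [this] at h
    exact absurd h (by simp)

theorem cols_bits (t i : ℕ) (h : (cols t).testBit i = true) : i % 32 + t % 32 < 32 := by
  have h1 : ∀ u < 32, cols u < 2 ^ 544 ∧ ∀ i < 544, (cols u).testBit i = true → i % 32 + u < 32 := by
    decide +kernel
  have hu : t % 32 < 32 := Nat.mod_lt _ (by norm_num)
  have he : cols t = cols (t % 32) := by
    unfold cols
    have : Nat.mod (t % 32) (nat_lit 32) = Nat.mod t (nat_lit 32) := Nat.mod_mod t 32
    rw [this]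
  rw [he] at h
  by_cases hi : i < 544
  · exact (h1 _ hu).2 i hi h
  · have := Nat.testBit_lt_two_pow (lt_of_lt_of_le (h1 _ hu).1 (Nat.pow_le_pow_right (by norm_num)
      (not_lt.1 hi)))
    rw [this] at h
    exact absurd h (by simp)

theorem box_of_sub {O F : ℕ} (h : sub (Nat.lor O F) box = true) : Box O ∧ Box F :=
  ⟨fun i hi => box_bits i (bits_of_land h (by rw [lor_eq, Nat.testBit_or, hi, Bool.true_or])),
   fun i hi => box_bits i (bits_of_land h (by rw [lor_eq, Nat.testBit_or, hi, Bool.or_true]))⟩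

end Pool.Agent.MP_6a06cd_co.H45
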