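import Mathlib

namespace Pool.Agent.MP_6a06cd_co.H45

/-- Two cells (indexed by their lower-left corners) share a full edge. -/
def Adj (p q : ℤ × ℤ) : Prop := |p.1 - q.1| + |p.2 - q.2| = 1

/-- `P` is a set of `n` cells whose adjacency graph is connected. -/
def IsPolyomino (n : ℕ) (P : Finset (ℤ × ℤ)) : Prop :=
  P.card = n ∧
    ∀ p ∈ P, ∀ q ∈ P, Relation.ReflTransGen (fun a b => a ∈ P ∧ b ∈ P ∧ Adj a b) p q

/-- All translates of `P` by vectors of `ℤ²`. -/
def transClass (P : Finset (ℤ × ℤ)) : Set (Finset (ℤ × ℤ)) :=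
  {Q | ∃ v : ℤ × ℤ, Q = P.image (fun p => p + v)}

/-- The number of fixed polyominoes of order `n`: translation classes of polyominoes. -/
noncomputable def t (n : ℕ) : ℕ := (transClass '' {P | IsPolyomino n P}).ncard

end Pool.Agent.MP_6a06cd_co.H45
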