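import Pool.Agent.MP_6a06cd_co.H45.Core

namespace Pool.Agent.MP_6a06cd_co.H45

open Finset Filter Topology

def Rep (n : ℕ) : Set (Finset Cell) :=
  {P | IsPolyomino n P ∧ (0 : Cell) ∈ P ∧ ∀ p ∈ P, p.1 < 0 ∨ (p.1 = 0 ∧ p.2 ≤ 0)}

theorem rtg_map {r s : Cell → Cell → Prop} (f : Cell → Cell) (h : ∀ a b, r a b → s (f a) (f b))
    {a b : Cell} (hab : Relation.ReflTransGen r a b) : Relation.ReflTransGen s (f a) (f b) := by
  induction hab with
  | refl => exact Relation.ReflTransGen.refl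
  | tail _ h2 ih => exact ih.tail (h _ _ h2)

theorem rtg_mono {r s : Cell → Cell → Prop} (h : ∀ a b, r a b → s a b)
    {a b : Cell} (hab : Relation.ReflTransGen r a b) : Relation.ReflTransGen s a b :=
  rtg_map id h hab

theorem adj_add' (u v w : Cell) (h : Adj u v) : Adj (u + w) (v + w) := by
  unfold Adj at *
  simpa using h

theorem IsPolyomino.translate {n : ℕ} {P : Finset Cell} (h : IsPolyomino n P) (v : Cell) :
    IsPolyomino n (P.image (fun p => p + v)) := by
  refine ⟨by rw [card_image_of_injective _ (add_left_injective v)]; exact h.1, ?_⟩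
  intro p hp q hq
  obtain ⟨a, ha, rfl⟩ := mem_image.1 hp
  obtain ⟨b, hb, rfl⟩ := mem_image.1 hq
  exact rtg_map (fun p => p + v)
    (fun c d hcd => ⟨mem_image_of_mem _ hcd.1, mem_image_of_mem _ hcd.2.1,
      adj_add' _ _ _ hcd.2.2⟩) (h.2 a ha b hb)

theorem transClass_translate (P : Finset Cell) (v : Cell) :
    transClass (P.image (fun p => p + v)) = transClass P := by
  ext Q
  constructor
  · rintro ⟨w, rfl⟩
    exact ⟨v + w, by rw [image_image]; congr 1; funext p; simp [add_assoc]⟩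
  · rintro ⟨w, rfl⟩
    exact ⟨w - v, by rw [image_image]; congr 1; funext p; simp⟩

theorem exists_lexmax {P : Finset Cell} (h : P.Nonempty) :
    ∃ u ∈ P, ∀ p ∈ P, p.1 < u.1 ∨ (p.1 = u.1 ∧ p.2 ≤ u.2) := by
  obtain ⟨a, ha, h1⟩ := exists_max_image P (fun p => p.1) h
  obtain ⟨u, hu, h2⟩ := exists_max_image (P.filter (fun p => p.1 = a.1)) (fun p => p.2)
    ⟨a, mem_filter.2 ⟨ha, rfl⟩⟩
  obtain ⟨hu1, hu2⟩ := mem_filter.1 hu
  refine ⟨u, hu1, fun p hp => ?_⟩
  rcases (h1 p hp).lt_or_eq with h3 | h3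
  · left; omega
  · right; exact ⟨by omega, h2 p (mem_filter.2 ⟨hp, h3⟩)⟩

theorem t_eq {n : ℕ} (hn : 1 ≤ n) : t n = (Rep n).ncard := by
  have h1 : transClass '' {P | IsPolyomino n P} = transClass '' Rep n := by
    apply Set.Subset.antisymm
    · rintro _ ⟨P, hP, rfl⟩
      have hne : P.Nonempty := card_pos.1 (by rw [hP.1]; omega)
      obtain ⟨u, hu, h⟩ := exists_lexmax hne
      refine ⟨P.image (fun p => p + -u), ⟨hP.translate _, ?_, ?_⟩, transClass_translate _ _⟩
      · exact mem_image.2 ⟨u, hu, by simp⟩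
      · intro q hq
        obtain ⟨p, hp, rfl⟩ := mem_image.1 hq
        have := h p hp
        simp only [Prod.fst_add, Prod.snd_add, Prod.fst_neg, Prod.snd_neg]
        omega
    · rintro _ ⟨P, hP, rfl⟩
      exact ⟨P, hP.1, rfl⟩
  have h2 : Set.InjOn transClass (Rep n) := by
    intro P hP Q hQ hPQ
    have hQQ : Q ∈ transClass Q := ⟨0, by simp⟩
    rw [← hPQ] at hQQ
    obtain ⟨v, rfl⟩ := hQQ
    have a1 := hQ.2.2 v (mem_image.2 ⟨0, hP.2.1, by simp⟩)
    obtain ⟨p, hp, hp0⟩ := mem_image.1 hQ.2.1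
    have a2 := hP.2.2 p hp
    have b1 := congrArg Prod.fst hp0
    have b2 := congrArg Prod.snd hp0
    simp only [Prod.fst_add, Prod.snd_add, Prod.fst_zero, Prod.snd_zero] at b1 b2
    have hv : v = 0 := by ext <;> simp only [Prod.fst_zero, Prod.snd_zero] <;> omega
    simp [hv]
  rw [t, h1, Set.InjOn.ncard_image h2]

theorem Rep.good {n : ℕ} {P : Finset Cell} (h : P ∈ Rep n) {O F : Set Cell} (hO : (0 : Cell) ∈ O)
    (hF : ∀ p ∈ F, p = (0, 1) ∨ p = (1, 0)) : Good O F P := by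
  refine ⟨fun p hp hh => ?_, fun p hp => ⟨0, hO, h.2.1, ?_⟩⟩
  · have := h.2.2 p hp
    rcases hF p hh with h1 | h1 <;> rw [h1] at this <;> simp at this
  · exact rtg_mono (fun a b hab => ⟨hab.2.2, hab.2.1⟩) (h.1.2 0 h.2.1 p hp)

section

variable {x y : ℝ} {O F : Set Cell}

theorem card_mul_le (hO : (0 : Cell) ∈ O) (hF : ∀ p ∈ F, p = (0, 1) ∨ p = (1, 0))
    (hB : ∀ N, Bd x N O F y) {n : ℕ} (G : Finset (Finset Cell)) (hG : (G : Set _) ⊆ Rep n) :
    (G.card : ℝ) * x ^ n ≤ y := by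
  have := hB n G (fun P hP => ⟨Rep.good (hG hP) hO hF, (hG hP).1.1.le⟩)
  rwa [sum_congr rfl (fun P hP => by rw [(hG hP).1.1]), sum_const, nsmul_eq_mul] at this

theorem rep_finite (hx : 0 < x) (hO : (0 : Cell) ∈ O) (hF : ∀ p ∈ F, p = (0, 1) ∨ p = (1, 0))
    (hB : ∀ N, Bd x N O F y) (n : ℕ) : (Rep n).Finite := by
  by_contra hinf
  obtain ⟨k, hk⟩ := exists_nat_gt (y / x ^ n)
  obtain ⟨G, hG, hc⟩ := Set.Infinite.exists_subset_card_eq hinf k
  have := card_mul_le hO hF hB G hG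
  rw [hc] at this
  rw [div_lt_iff₀ (by positivity)] at hk
  linarith

theorem t_mul_le (hx : 0 < x) (hO : (0 : Cell) ∈ O) (hF : ∀ p ∈ F, p = (0, 1) ∨ p = (1, 0))
    (hB : ∀ N, Bd x N O F y) {n : ℕ} (hn : 1 ≤ n) : (t n : ℝ) * x ^ n ≤ y := by
  have hfin := rep_finite hx hO hF hB n
  have := card_mul_le (n := n) hO hF hB hfin.toFinset (by simp)
  rw [t_eq hn, Set.ncard_eq_toFinset_card _ hfin]
  exact this

end

theorem exists_left (P : Finset Cell) : ∃ u : Cell, P.Nonempty → u ∈ P ∧ ∀ p ∈ P, u.1 ≤ p.1 := by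
  rcases P.eq_empty_or_nonempty with h | h
  · exact ⟨0, fun h' => absurd h h'.ne_empty⟩
  · obtain ⟨u, hu, h1⟩ := exists_min_image P (fun p => p.1) h
    exact ⟨u, fun _ => ⟨hu, h1⟩⟩

noncomputable def left (P : Finset Cell) : Cell := (exists_left P).choose

theorem left_spec {P : Finset Cell} (h : P.Nonempty) : left P ∈ P ∧ ∀ p ∈ P, (left P).1 ≤ p.1 :=
  (exists_left P).choose_spec h

noncomputable def glue (P Q : Finset Cell) : Finset Cell :=
  P ∪ Q.image (fun p => p + (left P + (-1, 0)))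

theorem glue_lt {m : ℕ} {P Q : Finset Cell} (hQ : Q ∈ Rep m) {p : Cell}
    (hp : p ∈ Q.image (fun p => p + (left P + (-1, 0)))) : p.1 < (left P).1 := by
  obtain ⟨q, hq, rfl⟩ := mem_image.1 hp
  have := hQ.2.2 q hq
  simp only [Prod.fst_add]
  omega

theorem glue_mem {n m : ℕ} {P Q : Finset Cell} (hP : P ∈ Rep n) (hQ : Q ∈ Rep m) :
    glue P Q ∈ Rep (n + m) := by
  have hne : P.Nonempty := ⟨0, hP.2.1⟩
  obtain ⟨hl1, hl2⟩ := left_spec hne
  set v : Cell := left P + (-1, 0) with hv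
  have hQ' := hQ.1.translate v
  have hvQ : v ∈ Q.image (fun p => p + v) := mem_image.2 ⟨0, hQ.2.1, by simp⟩
  have hdisj : Disjoint P (Q.image (fun p => p + v)) := by
    rw [disjoint_left]
    intro p hp hq
    have h1 := glue_lt hQ hq
    have h2 := hl2 p hp
    omega
  refine ⟨⟨?_, ?_⟩, mem_union_left _ hP.2.1, ?_⟩
  · rw [glue, card_union_of_disjoint hdisj, hP.1.1, hQ'.1]
  · have hadj : Adj (left P) v := by simp [Adj, hv]
    have inl : ∀ a ∈ P, ∀ b ∈ P, Relation.ReflTransGen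
        (fun a b => a ∈ glue P Q ∧ b ∈ glue P Q ∧ Adj a b) a b := fun a ha b hb =>
      rtg_mono
        (fun c d h => ⟨mem_union_left _ h.1, mem_union_left _ h.2.1, h.2.2⟩) (hP.1.2 a ha b hb)
    have inr : ∀ a ∈ Q.image (fun p => p + v), ∀ b ∈ Q.image (fun p => p + v),
        Relation.ReflTransGen (fun a b => a ∈ glue P Q ∧ b ∈ glue P Q ∧ Adj a b) a b :=
      fun a ha b hb => rtg_mono
        (fun c d h => ⟨mem_union_right _ h.1, mem_union_right _ h.2.1, h.2.2⟩) (hQ'.2 a ha b hb)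
    intro a ha b hb
    rcases mem_union.1 ha with ha | ha <;> rcases mem_union.1 hb with hb | hb
    · exact inl a ha b hb
    · exact ((inl a ha _ hl1).tail ⟨mem_union_left _ hl1, mem_union_right _ hvQ, hadj⟩).trans
        (inr _ hvQ b hb)
    · exact ((inr a ha _ hvQ).tail ⟨mem_union_right _ hvQ, mem_union_left _ hl1, hadj.symm⟩).trans
        (inl _ hl1 b hb)
    · exact inr a ha b hb
  · intro p hp
    rcases mem_union.1 hp with hp | hp
    · exact hP.2.2 p hp
    · have h1 := glue_lt hQ hp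
      have h2 := hl2 0 hP.2.1
      left
      simp only [Prod.fst_zero] at h2
      omega

theorem glue_sub {n m : ℕ} {P Q P' Q' : Finset Cell} (hP : P ∈ Rep n) (hQ' : Q' ∈ Rep m)
    (h : glue P Q = glue P' Q') (hle : (left P').1 ≤ (left P).1) : P ⊆ P' := by
  intro p hp
  have h1 : p ∈ glue P' Q' := h ▸ mem_union_left _ hp
  rcases mem_union.1 h1 with h2 | h2
  · exact h2
  · have h3 := glue_lt hQ' h2
    have h4 := (left_spec ⟨0, hP.2.1⟩).2 p hp
    omega

theorem glue_inj {n m : ℕ} {P Q P' Q' : Finset Cell} (hP : P ∈ Rep n) (hQ : Q ∈ Rep m)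
    (hP' : P' ∈ Rep n) (hQ' : Q' ∈ Rep m) (h : glue P Q = glue P' Q') : P = P' ∧ Q = Q' := by
  have h1 : P = P' := by
    rcases le_total (left P').1 (left P).1 with hle | hle
    · exact eq_of_subset_of_card_le (glue_sub hP hQ' h hle) (by rw [hP.1.1, hP'.1.1])
    · exact (eq_of_subset_of_card_le (glue_sub hP' hQ h.symm hle) (by rw [hP.1.1, hP'.1.1])).symm
  subst h1
  refine ⟨rfl, ?_⟩
  have key : ∀ {Q Q' : Finset Cell}, Q ∈ Rep m → glue P Q = glue P Q' →
      Q.image (fun p => p + (left P + (-1, 0))) ⊆ Q'.image (fun p => p + (left P + (-1, 0))) := by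
    intro Q Q' hQ h p hp
    have h1 : p ∈ glue P Q' := h ▸ mem_union_right _ hp
    rcases mem_union.1 h1 with h2 | h2
    · have h3 := glue_lt hQ hp
      have h4 := (left_spec ⟨0, hP.2.1⟩).2 p h2
      omega
    · exact h2
  exact Finset.image_injective (add_left_injective _)
    (Subset.antisymm (key hQ h) (key hQ' h.symm))

theorem t_supermul (hfin : ∀ n, (Rep n).Finite) {n m : ℕ} (hn : 1 ≤ n) (hm : 1 ≤ m) :
    t n * t m ≤ t (n + m) := by
  rw [t_eq hn, t_eq hm, t_eq (by omega : 1 ≤ n + m), ← Set.ncard_prod]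
  refine Set.ncard_le_ncard_of_injOn (fun z => glue z.1 z.2) (fun z hz => glue_mem hz.1 hz.2) ?_
    (hfin _)
  intro z hz w hw h
  exact Prod.ext (glue_inj hz.1 hz.2 hw.1 hw.2 h).1 (glue_inj hz.1 hz.2 hw.1 hw.2 h).2

theorem t_pos (hfin : ∀ n, (Rep n).Finite) {n : ℕ} (hn : 1 ≤ n) : 1 ≤ t n := by
  have h1 : 1 ≤ t 1 := by
    rw [t_eq le_rfl]
    refine (Set.ncard_pos (hfin 1)).2 ⟨{0}, ⟨by simp, ?_⟩, by simp, by simp⟩
    intro p hp q hq
    rw [mem_singleton.1 hp, mem_singleton.1 hq]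
  induction n, hn using Nat.le_induction with
  | base => exact h1
  | succ k hk ih => exact le_trans (Nat.mul_le_mul ih h1) (t_supermul hfin hk le_rfl)

theorem exists_limit {x y : ℝ} {O F : Set Cell} (hx : 0 < x) (hO : (0 : Cell) ∈ O)
    (hF : ∀ p ∈ F, p = (0, 1) ∨ p = (1, 0)) (hB : ∀ N, Bd x N O F y) :
    ∃ lam : ℝ, Tendsto (fun n : ℕ => (t n : ℝ) ^ ((1 : ℝ) / n)) atTop (𝓝 lam) ∧ lam ≤ x⁻¹ := by
  have hfin := rep_finite hx hO hF hB
  have hpos : ∀ n, 1 ≤ n → (0 : ℝ) < t n := fun n hn => by exact_mod_cast t_pos hfin hn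
  set u : ℕ → ℝ := fun n => if n = 0 then 0 else -Real.log (t n) with hu
  have hsub : Subadditive u := by
    intro m n
    rcases Nat.eq_zero_or_pos m with rfl | hm
    · simp [hu]
    rcases Nat.eq_zero_or_pos n with rfl | hn
    · simp [hu]
    have h1 : ((t m : ℝ) * t n) ≤ t (m + n) := by exact_mod_cast t_supermul hfin hm hn
    have h2 := Real.log_le_log (mul_pos (hpos m hm) (hpos n hn)) h1
    rw [Real.log_mul (hpos m hm).ne' (hpos n hn).ne'] at h2
    simp only [hu, hm.ne', hn.ne', if_false, Nat.add_eq_zero_iff, false_and]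
    linarith
  have hlow : ∀ n : ℕ, 1 ≤ n → Real.log x - Real.log y / n ≤ u n / n := by
    intro n hn
    have h1 := t_mul_le hx hO hF hB hn
    have h2 := Real.log_le_log (mul_pos (hpos n hn) (pow_pos hx n)) h1
    rw [Real.log_mul (hpos n hn).ne' (pow_pos hx n).ne', Real.log_pow] at h2
    have hn' : (0 : ℝ) < n := by exact_mod_cast hn
    have h3 : u n = -Real.log (t n) := if_neg (by omega)
    rw [h3, le_div_iff₀ hn', sub_mul, div_mul_cancel₀ _ hn'.ne']
    linarith
  have hbdd : BddBelow (Set.range fun n => u n / n) := by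
    refine ⟨-|Real.log x| - |Real.log y|, ?_⟩
    rintro _ ⟨n, rfl⟩
    rcases Nat.eq_zero_or_pos n with rfl | hn
    · have := abs_nonneg (Real.log x)
      have := abs_nonneg (Real.log y)
      simp only [Nat.cast_zero, div_zero]
      linarith
    · refine le_trans ?_ (hlow n hn)
      have hn' : (1 : ℝ) ≤ n := by exact_mod_cast hn
      have h1 : Real.log y / n ≤ |Real.log y| :=
        (div_le_div_of_nonneg_right (le_abs_self _) (by linarith)).trans
          (div_le_self (abs_nonneg _) hn')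
      have h2 := neg_abs_le (Real.log x)
      linarith
  have hlim := hsub.tendsto_lim hbdd
  refine ⟨Real.exp (-hsub.lim), ?_, ?_⟩
  · refine (Real.continuous_exp.tendsto _ |>.comp hlim.neg).congr' ?_
    filter_upwards [eventually_ge_atTop 1] with n hn
    have h3 : u n = -Real.log (t n) := if_neg (by omega)
    simp only [Function.comp]
    rw [Real.rpow_def_of_pos (hpos n hn), h3]
    congr 1
    ring
  · have h1 : Tendsto (fun n : ℕ => Real.log x - Real.log y / n) atTop (𝓝 (Real.log x - 0)) :=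
      tendsto_const_nhds.sub (tendsto_const_div_atTop_nhds_zero_nat _)
    have h2 : Real.log x - 0 ≤ hsub.lim :=
      le_of_tendsto_of_tendsto h1 hlim ((eventually_ge_atTop 1).mono hlow)
    rw [← Real.exp_log (inv_pos.2 hx), Real.log_inv]
    exact Real.exp_le_exp.2 (by linarith)

end Pool.Agent.MP_6a06cd_co.H45
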