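import Pool.Agent.MP_6a06cd_co.H45.Sound
import Pool.Agent.MP_6a06cd_co.H45.Limit

namespace Pool.Agent.MP_6a06cd_co.H45

open Filter Topology

theorem limit_of_valid {p q : ℕ} (hp : 0 < p) (hq : 0 < q) {full : Tab}
    (hv : ∀ N, Valid ((p : ℝ) / q) N full) {Y r : ℕ}
    (hr : slot2 (nat_lit 0) (nat_lit 1) (nat_lit 4294967298) (fun y => Nat.ble y Y)
      (full.find r) = true) :
    ∃ lam : ℝ, Tendsto (fun n : ℕ => (t n : ℝ) ^ ((1 : ℝ) / n)) atTop (𝓝 lam) ∧
      lam ≤ (q : ℝ) / p := by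
  have hx : (0 : ℝ) < (p : ℝ) / q := by positivity
  have hB : ∀ N, Bd ((p : ℝ) / q) N (dec 1) (dec 4294967298) ((Y : ℝ) / 16777216) := by
    intro N
    obtain ⟨y, h1, h2⟩ := slot2_sound (by norm_num) ((hv N).find r) hr
    refine h2.mono_val (div_le_div_of_nonneg_right ?_ (by norm_num))
    exact_mod_cast Nat.le_of_ble_eq_true h1
  have := exists_limit hx (⟨0, by decide, by simp [cell]⟩ : (0 : Cell) ∈ dec 1) ?_ hB
  · rwa [inv_div] at this
  · rintro w ⟨i, hi, rfl⟩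
    have h : (4294967298 : ℕ) = 2 ^ 1 ||| 2 ^ 32 := by decide
    rw [h, Nat.testBit_or, Nat.testBit_two_pow, Nat.testBit_two_pow] at hi
    simp only [Bool.or_eq_true, decide_eq_true_eq] at hi
    rcases hi with rfl | rfl
    · left; simp [cell]
    · right; simp [cell]

end Pool.Agent.MP_6a06cd_co.H45
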