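import Pool.Agent.MP_6a06cd_co.H45.Bits

namespace Pool.Agent.MP_6a06cd_co.H45

set_option exponentiation.threshold 3000

def sig (s M j : ℕ) : ℕ :=
  if M.testBit j then j + s else if s ≤ j ∧ M.testBit (j - s) then j - s else j

def Rel (f : ℕ → ℕ) (σ : ℕ → ℕ) : Prop :=
  (∀ j < 2048, σ j < 2048) ∧ ∀ m j, (f m).testBit j = (decide (j < 2048) && m.testBit (σ j))

theorem Rel.comp {f g σ τ : ℕ → ℕ} (hf : Rel f σ) (hg : Rel g τ) :
    Rel (fun m => f (g m)) (fun j => τ (σ j)) := by
  refine ⟨fun j hj => hg.1 _ (hf.1 j hj), fun m j => ?_⟩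
  rw [hf.2, hg.2]
  by_cases hj : j < 2048
  · simp [hj, hf.1 j hj]
  · simp [hj]

theorem testBit_small {a j : ℕ} (ha : a < 2 ^ 2048) (h : a.testBit j = true) : j < 2048 := by
  by_contra hj
  have := Nat.testBit_lt_two_pow (lt_of_lt_of_le ha (Nat.pow_le_pow_right (by norm_num)
    (not_lt.1 hj)))
  rw [this] at h
  exact absurd h (by simp)

theorem rel_sx (s M X : ℕ) (h1 : M &&& (M <<< s) = 0) (h2 : M ||| (M <<< s) < 2 ^ 2048)
    (h3 : X = (2 ^ 2048 - 1) ^^^ (M ||| (M <<< s))) : Rel (sx s M X) (sig s M) := by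
  have hb : ∀ j, (M.testBit j || (decide (s ≤ j) && M.testBit (j - s))) = true → j < 2048 := by
    intro j hj
    refine testBit_small h2 ?_
    rw [Nat.testBit_or, Nat.testBit_shiftLeft]
    simpa using hj
  have hd : ∀ j, (M.testBit j && (decide (s ≤ j) && M.testBit (j - s))) = false := by
    intro j
    have : (M &&& (M <<< s)).testBit j = false := by rw [h1]; simp
    rw [Nat.testBit_and, Nat.testBit_shiftLeft] at this
    simpa using this
  constructor
  · intro j hj
    unfold sig
    split_ifs with ha hc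
    · refine hb _ ?_
      simp [ha]
    · omega
    · exact hj
  · intro m j
    unfold sx
    rw [lor_eq, lor_eq, land_eq, land_eq, land_eq, shl_eq, shr_eq, h3]
    simp only [Nat.testBit_or, Nat.testBit_and, Nat.testBit_xor, Nat.testBit_shiftLeft,
      Nat.testBit_shiftRight, Nat.testBit_two_pow_sub_one]
    have hb' := hb j
    have hd' := hd j
    unfold sig
    by_cases ha : M.testBit j = true
    · have hj : j < 2048 := hb' (by simp [ha])
      have hc : (decide (s ≤ j) && M.testBit (j - s)) = false := by simpa [ha] using hd'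
      rw [if_pos ha, add_comm j s]
      by_cases hs : s ≤ j
      · have : M.testBit (j - s) = false := by simpa [hs] using hc
        simp [ha, hj, this]
      · simp [ha, hj, hs]
    · rw [if_neg ha]
      have ha' : M.testBit j = false := by simpa using ha
      by_cases hc : s ≤ j ∧ M.testBit (j - s) = true
      · have hj : j < 2048 := hb' (by simp [hc.1, hc.2])
        rw [if_pos hc]
        simp [ha', hj, hc.1, hc.2]
      · rw [if_neg hc]
        by_cases hs : s ≤ j
        · have : M.testBit (j - s) = false := by simpa [hs] using hc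
          simp [ha', this, Bool.and_comm]
        · simp [ha', hs, Bool.and_comm]

theorem rel_sw (s M : ℕ) (h1 : M &&& (M <<< s) = 0) (h2 : M ||| (M <<< s) = 2 ^ 2048 - 1) :
    Rel (sw s M) (sig s M) := by
  have h := rel_sx s M 0 h1 (by rw [h2]; exact Nat.sub_one_lt (by positivity)) (by rw [h2]; simp)
  have he : sw s M = sx s M 0 := by
    funext m
    unfold sw sx
    simp [lor_eq, land_eq]
  rw [he]
  exact h

def Pair (x : ℝ) (N : ℕ) (y : ℝ) (m : ℕ) : Prop :=
  (∀ j, m.testBit j = true → j < 2048) ∧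
    Bd x N (dec (Nat.shiftRight m 1024)) (dec (Nat.mod m tw)) y

theorem tw_eq : tw = 2 ^ 1024 := by decide +kernel

theorem testBit_low (m j : ℕ) :
    (Nat.mod m tw).testBit j = (decide (j < 1024) && m.testBit j) := by
  have : Nat.mod m tw = m % 2 ^ 1024 := by rw [tw_eq]; rfl
  rw [this, Nat.testBit_mod_two_pow]

theorem testBit_high (m j : ℕ) : (Nat.shiftRight m 1024).testBit j = m.testBit (j + 1024) := by
  rw [shr_eq, Nat.testBit_shiftRight, add_comm]

theorem Pair.step {x : ℝ} {N : ℕ} {y : ℝ} {f σ : ℕ → ℕ} (hf : Rel f σ) (π : ℕ → ℕ)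
    (φ : Cell → Cell) (hinj : Function.Injective φ) (hadj : ∀ u v, Adj u v → Adj (φ u) (φ v))
    (hσ : ∀ j < 1024, σ j = π j ∧ σ (j + 1024) = π j + 1024)
    (hπ : ∀ j < 1024, π j < 1024 ∧ cell (π j) = φ (cell j) ∧ π (π j) = j)
    {m : ℕ} (h : Pair x N y m) : Pair x N y (f m) := by
  constructor
  · intro j hj
    rw [hf.2] at hj
    simp only [Bool.and_eq_true, decide_eq_true_eq] at hj
    exact hj.1
  · refine Bd.map φ hinj hadj ?_ ?_ h.2
    · rintro p ⟨j, hj, rfl⟩ _
      rw [testBit_high, hf.2] at hj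
      simp only [Bool.and_eq_true, decide_eq_true_eq] at hj
      have hj' : j < 1024 := by omega
      rw [← (hπ j hj').2.1, mem_dec, testBit_high, ← (hσ j hj').2]
      exact hj.2
    · rintro p ⟨i, hi, hp⟩
      rw [testBit_low] at hi
      simp only [Bool.and_eq_true, decide_eq_true_eq] at hi
      have h1 := hπ i hi.1
      have h2 := hπ (π i) h1.1
      have hp' : p = cell (π i) := by
        apply hinj
        rw [← h2.2.1, h1.2.2, hp]
      rw [hp', mem_dec, testBit_low, hf.2, (hσ _ h1.1).1, h1.2.2, hi.2]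
      have : π i < 2048 := by omega
      simp [h1.1, this]

theorem Pair.flipR {x : ℝ} {N : ℕ} {y : ℝ} {m : ℕ} (h : Pair x N y m) : Pair x N y (flipR m) := by
  have hr := (rel_sw 32 mk5 (by decide +kernel) (by decide +kernel)).comp
    ((rel_sw 64 mk6 (by decide +kernel) (by decide +kernel)).comp
    ((rel_sw 128 mk7 (by decide +kernel) (by decide +kernel)).comp
    ((rel_sw 256 mk8 (by decide +kernel) (by decide +kernel)).comp
    (rel_sw 512 mk9 (by decide +kernel) (by decide +kernel)))))
  refine Pair.step hr (fun j => (31 - j / 32) * 32 + j % 32) (fun p => (31 - p.1, p.2)) ?_ ?_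
    (by decide +kernel) ?_ h
  · intro p q hpq
    simp only [Prod.mk.injEq] at hpq
    ext <;> omega
  · intro u v huv
    rw [adj_iff] at huv ⊢
    simp only
    omega
  · intro j hj
    refine ⟨by omega, ?_, by omega⟩
    ext <;> simp only [cell] <;> omega

theorem Pair.flipC {x : ℝ} {N : ℕ} {y : ℝ} {m : ℕ} (h : Pair x N y m) : Pair x N y (flipC m) := by
  have hr := (rel_sw 1 mk0 (by decide +kernel) (by decide +kernel)).comp
    ((rel_sw 2 mk1 (by decide +kernel) (by decide +kernel)).comp
    ((rel_sw 4 mk2 (by decide +kernel) (by decide +kernel)).comp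
    ((rel_sw 8 mk3 (by decide +kernel) (by decide +kernel)).comp
    (rel_sw 16 mk4 (by decide +kernel) (by decide +kernel)))))
  refine Pair.step hr (fun j => (j / 32) * 32 + (31 - j % 32)) (fun p => (p.1, 31 - p.2)) ?_ ?_
    (by decide +kernel) ?_ h
  · intro p q hpq
    simp only [Prod.mk.injEq] at hpq
    ext <;> omega
  · intro u v huv
    rw [adj_iff] at huv ⊢
    simp only
    omega
  · intro j hj
    refine ⟨by omega, ?_, by omega⟩
    ext <;> simp only [cell] <;> omega

theorem Pair.transp {x : ℝ} {N : ℕ} {y : ℝ} {m : ℕ} (h : Pair x N y m) :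
    Pair x N y (transp m) := by
  have hr := (rel_sx 31 mt0 mx0 (by decide +kernel) (by decide +kernel) (by decide +kernel)).comp
    ((rel_sx 62 mt1 mx1 (by decide +kernel) (by decide +kernel) (by decide +kernel)).comp
    ((rel_sx 124 mt2 mx2 (by decide +kernel) (by decide +kernel) (by decide +kernel)).comp
    ((rel_sx 248 mt3 mx3 (by decide +kernel) (by decide +kernel) (by decide +kernel)).comp
    (rel_sx 496 mt4 mx4 (by decide +kernel) (by decide +kernel) (by decide +kernel)))))
  refine Pair.step hr (fun j => (j % 32) * 32 + j / 32) (fun p => (p.2, p.1)) ?_ ?_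
    (by decide +kernel) ?_ h
  · intro p q hpq
    simp only [Prod.mk.injEq] at hpq
    ext <;> omega
  · intro u v huv
    rw [adj_iff] at huv ⊢
    simp only
    omega
  · intro j hj
    refine ⟨by omega, ?_, by omega⟩
    ext <;> simp only [cell] <;> omega

theorem Pair.opt {x : ℝ} {N : ℕ} {y : ℝ} {m : ℕ} (e : Bool) {f : ℕ → ℕ} (h : Pair x N y m)
    (hf : Pair x N y (f m)) : Pair x N y (opt e f m) := by
  cases e
  · exact hf
  · exact h

theorem Pair.net {x : ℝ} {N : ℕ} {y : ℝ} {m : ℕ} (d : ℕ) (h : Pair x N y m) :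
    Pair x N y (net d m) := by
  have h1 := Pair.opt (Nat.beq (Nat.land d 1) 0) h h.flipR
  have h2 := Pair.opt (Nat.beq (Nat.land d 2) 0) h1 h1.flipC
  exact Pair.opt _ h2 h2.transp

theorem Pair.init {x : ℝ} {N : ℕ} {y : ℝ} {O F : ℕ} (hO : Box O) (hF : Box F)
    (h : Bd x N (dec O) (dec F) y) : Pair x N y (Nat.lor F (Nat.shiftLeft O 1024)) := by
  have key : ∀ j, (Nat.lor F (Nat.shiftLeft O 1024)).testBit j =
      (F.testBit j || (decide (1024 ≤ j) && O.testBit (j - 1024))) := by
    intro j
    rw [lor_eq, shl_eq, Nat.testBit_or, Nat.testBit_shiftLeft]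
  constructor
  · intro j hj
    rw [key] at hj
    simp only [Bool.or_eq_true, Bool.and_eq_true, decide_eq_true_eq] at hj
    rcases hj with hj | hj
    · have := (hF j hj).2; omega
    · have := (hO _ hj.2).2; omega
  · refine Bd.mono ?_ ?_ h
    · rintro p ⟨j, hj, rfl⟩ _
      rw [testBit_high, key] at hj
      simp only [Bool.or_eq_true, Bool.and_eq_true, decide_eq_true_eq] at hj
      rcases hj with hj | hj
      · have := (hF _ hj).2; omega
      · rw [mem_dec]; simpa using hj.2
    · rintro p ⟨j, hj, rfl⟩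
      have := (hF j hj).2
      rw [mem_dec, testBit_low, key, hj]
      have h' : j < 1024 := by omega
      simp [h']

theorem image3_sound {x : ℝ} {N : ℕ} {y : ℝ} {t O F r : ℕ} (h : Pair x N y r)
    (hc : image3 t O F r = true) : Bd x N (dec O) (dec F) y := by
  unfold image3 at hc
  rw [band_true, band_true] at hc
  obtain ⟨h1, h2, h3⟩ := hc
  have hO : ∀ i, O.testBit i = true → i % 32 + t % 32 < 32 := fun i hi =>
    cols_bits t i (bits_of_land h1 (by rw [lor_eq, Nat.testBit_or, hi, Bool.true_or]))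
  have hF : ∀ i, F.testBit i = true → i % 32 + t % 32 < 32 := fun i hi =>
    cols_bits t i (bits_of_land h1 (by rw [lor_eq, Nat.testBit_or, hi, Bool.or_true]))
  refine Bd.of_shift hO hF (Bd.mono ?_ ?_ h.2)
  · exact fun p hp _ => dec_of_sub h3 hp
  · exact fun p hp => dec_of_sub h2 hp

end Pool.Agent.MP_6a06cd_co.H45
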