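import Pool.Agent.MP_6a06cd_co.H45.Net

namespace Pool.Agent.MP_6a06cd_co.H45

open Finset

def Valid (x : ℝ) (N : ℕ) : Tab → Prop
  | .leaf y O F _ => Box O ∧ Box F ∧ Bd x N (dec O) (dec F) ((y : ℝ) / 16777216)
  | .node _ l r => Valid x N l ∧ Valid x N r

theorem Valid.find {x : ℝ} {N : ℕ} {t : Tab} (h : Valid x N t) (i : ℕ) : Valid x N (t.find i) := by
  induction t with
  | leaf y O F d => exact h
  | node m l r ihl ihr =>
    show Valid x N (Bool.rec (motive := fun _ => Tab) (l.find i) (r.find i) (Nat.ble m i))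
    cases Nat.ble m i
    · exact ihl h.1
    · exact ihr h.2

theorem slot2_sound {x : ℝ} {N s O F : ℕ} {k : ℕ → Bool} {t : Tab} (hs : s % 32 ≤ 15)
    (ht : Valid x N t) (h : slot2 s O F k t = true) :
    ∃ y : ℕ, k y = true ∧ Bd x N (dec O) (dec F) ((y : ℝ) / 16777216) := by
  cases t with
  | node m l r => exact absurd h (by simp [slot2])
  | leaf y O' F' d =>
    have h' : Bool.rec (motive := fun _ => Bool) false
        (Bool.rec (motive := fun _ => Bool) false (k y)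
          (Nat.beq (Nat.land O (Nat.lor (Nat.shiftLeft O' s) F)) O))
        (Nat.beq (Nat.lor (Nat.shiftLeft F' s) F) F) = true := h
    rw [brec_true, brec_true] at h'
    obtain ⟨h1, h2, h3⟩ := h'
    refine ⟨y, h3, Bd.mono ?_ ?_ (Bd.to_shift (ht.1.nowrap hs) (ht.2.1.nowrap hs) ht.2.2)⟩
    · intro p hp hF
      rcases mem_dec_lor.1 (dec_of_land h2 hp) with h4 | h4
      · exact h4
      · exact absurd h4 hF
    · exact fun p hp => dec_of_lor h1 hp

theorem slot_sound {x : ℝ} {N d O F : ℕ} {k : ℕ → Bool} {src : Tab}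
    (ht : Valid x N src) (h : slot src d O F k = true) :
    ∃ y : ℕ, k y = true ∧ Bd x N (dec O) (dec F) ((y : ℝ) / 16777216) :=
  slot2_sound (pos_le d 20) (ht.find (Nat.mod d 1048576)) h

def Unt (U : ℕ) (Q : Finset Cell) : Prop := ∀ z ∈ dec U, ¬ Touch Q z

open Classical in
noncomputable def val : Lam → Finset Cell → ℝ
  | .nil, _ => 0
  | .cons U l tl, Q => (if Unt U Q then (l : ℝ) else 0) + val tl Q

theorem sumSub_le {U : ℕ} {Q : Finset Cell} (hU : Unt U Q) (L : Lam) :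
    (sumSub U L : ℝ) ≤ val L Q := by
  induction L with
  | nil => simp [val, sumSub]
  | cons U' l tl ih =>
    have he : sumSub U (.cons U' l tl) = Bool.rec (motive := fun _ => Nat) (sumSub U tl)
      (Nat.add l (sumSub U tl)) (Nat.beq (Nat.land U' U) U') := rfl
    rw [he, val]
    cases hb : Nat.beq (Nat.land U' U) U'
    · simp only
      have h0 : (0 : ℝ) ≤ l := by positivity
      split_ifs <;> linarith
    · have h2 : Unt U' Q := fun z hz => hU z (dec_of_land hb hz)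
      rw [if_pos h2]
      simp only [Nat.add_eq, Nat.cast_add]
      linarith

theorem unt_empty (U : ℕ) : Unt U ∅ := by
  intro z _ h
  rcases h with h | ⟨u, hu, _⟩
  · simp at h
  · simp at hu

theorem sumAll_eq (L : Lam) : (sumAll L : ℝ) = val L ∅ := by
  induction L with
  | nil => simp [val, sumAll]
  | cons U' l tl ih =>
    have he : sumAll (.cons U' l tl) = Nat.add l (sumAll tl) := rfl
    rw [he, val, if_pos (unt_empty U'), ← ih]
    simp

section go

variable {x : ℝ} {N : ℕ} {src : Tab} {O1 O2 : ℕ} {F0 : Set Cell}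

def Inv (x : ℝ) (N O1 O2 : ℕ) (F0 : Set Cell) (L : Lam) (V : ℕ) : Prop :=
  ∀ G : Finset (Finset Cell), (∀ Q ∈ G, Good (dec O1) (F0 ∪ dec O2) Q ∧ Q.card ≤ N) →
    ∑ Q ∈ G, x ^ Q.card * val L Q ≤ (V : ℝ) / 16777216

def HFa (O2 : ℕ) (F0 : Set Cell) (U Fa : ℕ) : Prop :=
  ∀ p ∈ dec Fa, p ∈ F0 ∪ dec O2 ∨ ∃ z ∈ dec U, p = z ∨ Adj p z

def Rest (O1 O2 : ℕ) (F0 : Set Cell) (Q : Finset Cell) : Set Cell :=
  F0 ∪ dec O1 ∪ {z | z ∉ dec O2 ∧ Touch Q z}

def Cover (x : ℝ) (N O1 O2 : ℕ) (F0 : Set Cell) (U Fh : ℕ) (tch : Bool) (L : Lam) : Prop :=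
  ∀ Q, Good (dec O1) (F0 ∪ dec O2) Q → Unt U Q → (∀ p ∈ dec Fh, p ∈ Rest O1 O2 F0 Q) →
    (tch = true → Q.Nonempty) → Bd x N (dec O2) (Rest O1 O2 F0 Q) (val L Q / 16777216)

def Spec (x : ℝ) (N O1 O2 : ℕ) (F0 : Set Cell) (G : GoT) : Prop :=
  ∀ d U Fa Fh tch L V k, G d U Fa Fh tch L V k = true → Inv x N O1 O2 F0 L V → HFa O2 F0 U Fa →
    ∃ d' L' V', k d' L' V' = true ∧ Inv x N O1 O2 F0 L' V' ∧ (∀ Q, val L Q ≤ val L' Q) ∧
      Cover x N O1 O2 F0 U Fh tch L'

theorem good_Fa {U Fa : ℕ} (hFa : HFa O2 F0 U Fa) {Q : Finset Cell}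
    (hQ : Good (dec O1) (F0 ∪ dec O2) Q) (hU : Unt U Q) : Good (dec O1) (dec Fa) Q := by
  refine ⟨fun p hp hh => ?_, hQ.2⟩
  rcases hFa p hh with h | ⟨z, hz, h | h⟩
  · exact hQ.1 p hp h
  · exact hU z hz (Or.inl (h ▸ hp))
  · exact hU z hz (Or.inr ⟨p, hp, h⟩)

theorem val_le_cons (U l : ℕ) (L : Lam) (Q : Finset Cell) : val L Q ≤ val (.cons U l L) Q := by
  rw [val]
  split_ifs
  · have : (0 : ℝ) ≤ l := by positivity
    linarith
  · simp

theorem Inv.cons {U Fa l a V : ℕ} {L : Lam} (hI : Inv x N O1 O2 F0 L V) (hFa : HFa O2 F0 U Fa)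
    (ha : Bd x N (dec O1) (dec Fa) ((a : ℝ) / 16777216)) :
    Inv x N O1 O2 F0 (.cons U l L) (Nat.add V (Nat.mul l a)) := by
  classical
  intro G hG
  have h1 := hI G hG
  have h2 := ha (G.filter (fun Q => Unt U Q)) (fun Q hQ =>
    ⟨good_Fa hFa (hG Q (mem_filter.1 hQ).1).1 (mem_filter.1 hQ).2, (hG Q (mem_filter.1 hQ).1).2⟩)
  have h3 : ∑ Q ∈ G, x ^ Q.card * val (.cons U l L) Q =
      l * ∑ Q ∈ G.filter (fun Q => Unt U Q), x ^ Q.card + ∑ Q ∈ G, x ^ Q.card * val L Q := by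
    rw [sum_filter, mul_sum, ← sum_add_distrib]
    refine sum_congr rfl (fun Q _ => ?_)
    rw [val]
    split_ifs <;> ring
  rw [h3]
  have h4 : (l : ℝ) * ∑ Q ∈ G.filter (fun Q => Unt U Q), x ^ Q.card ≤ l * ((a : ℝ) / 16777216) :=
    mul_le_mul_of_nonneg_left h2 (by positivity)
  simp only [Nat.add_eq, Nat.mul_eq, Nat.cast_add, Nat.cast_mul]
  have h5 : ((V : ℝ) + l * a) / 16777216 = l * ((a : ℝ) / 16777216) + V / 16777216 := by ring
  rw [h5]
  linarith

theorem cover_of {U Fh h : ℕ} {tch : Bool} {L : Lam}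
    (hh : Bd x N (dec O2) (dec Fh) ((h : ℝ) / 16777216))
    (hv : ∀ Q, Good (dec O1) (F0 ∪ dec O2) Q → Unt U Q → (h : ℝ) ≤ val L Q) :
    Cover x N O1 O2 F0 U Fh tch L := by
  intro Q hQ hU hFh _
  refine (Bd.mono (fun p hp _ => hp) hFh hh).mono_val ?_
  exact div_le_div_of_nonneg_right (hv Q hQ hU) (by norm_num)

theorem spec_leafA (hs : Valid x N src) : Spec x N O1 O2 F0 (goLeafA src O1 O2) := by
  intro d U Fa Fh tch L V k h hI hFa
  obtain ⟨hh, h1, hb⟩ := slot_sound hs h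
  rw [force_eq, brec_true] at h1
  obtain ⟨h2, h3⟩ := h1
  obtain ⟨a, h4, ha⟩ := slot_sound hs h3
  rw [force_eq] at h4
  refine ⟨_, _, _, h4, hI.cons hFa ha, val_le_cons _ _ _, cover_of hb ?_⟩
  intro Q _ hU
  have h5 := sumSub_le hU L
  have h6 := Nat.le_of_ble_eq_true h2
  rw [val, if_pos hU]
  have h7 : (hh : ℝ) ≤ (Nat.add (Nat.mod (Nat.shiftRight d 32) 536870912) (sumSub U L) : ℕ) := by
    exact_mod_cast h6
  simp only [Nat.add_eq, Nat.cast_add] at h7
  linarith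

theorem spec_leafN (hs : Valid x N src) : Spec x N O1 O2 F0 (goLeafN src O2) := by
  intro d U Fa Fh tch L V k h hI _
  obtain ⟨hh, h1, hb⟩ := slot_sound hs h
  rw [brec_true] at h1
  obtain ⟨h2, h3⟩ := h1
  refine ⟨_, _, _, h3, hI, fun _ => le_rfl, cover_of hb ?_⟩
  intro Q _ hU
  have h5 := sumSub_le hU L
  have h7 : (hh : ℝ) ≤ (sumSub U L : ℕ) := by exact_mod_cast Nat.le_of_ble_eq_true h2
  linarith

theorem spec_leafE (hs : Valid x N src) : Spec x N O1 O2 F0 (goLeafE src O1 O2) := by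
  intro d U Fa Fh tch L V k h hI hFa
  unfold goLeafE at h
  rw [band_true] at h
  obtain ⟨h0, h⟩ := h
  have hemp : ∀ Q, Good (dec O1) (F0 ∪ dec O2) Q → Unt U Q → Q = ∅ := fun Q hQ hU =>
    (good_Fa hFa hQ hU).eq_empty (fun p hp => dec_of_sub h0 hp)
  cases tch
  · obtain ⟨hh, h1, hb⟩ := slot_sound hs h
    rw [force_eq, band_true] at h1
    obtain ⟨h2, h3⟩ := h1
    have ha : Bd x N (dec O1) (dec Fa) (((16777216 : ℕ) : ℝ) / 16777216) :=
      (Bd.empty (fun p hp => dec_of_sub h0 hp)).mono_val (by norm_num)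
    refine ⟨_, _, _, h3, hI.cons hFa ha, val_le_cons _ _ _, cover_of hb ?_⟩
    intro Q hQ hU
    rw [val, if_pos hU, hemp Q hQ hU, ← sumAll_eq]
    have h7 : (hh : ℝ) ≤ (Nat.add (Nat.mod (Nat.shiftRight d 32) 536870912) (sumAll L) : ℕ) := by
      exact_mod_cast Nat.le_of_ble_eq_true h2
    simp only [Nat.add_eq, Nat.cast_add] at h7
    exact h7
  · refine ⟨_, _, _, h, hI, fun _ => le_rfl, ?_⟩
    intro Q hQ hU _ hne
    have := hne rfl
    rw [hemp Q hQ hU] at this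
    exact absurd this (by simp)

theorem spec_node {ih : GoT} (hih : Spec x N O1 O2 F0 ih) : Spec x N O1 O2 F0 (goNode O2 ih) := by
  intro d U Fa Fh tch L V k h hI hFa
  unfold goNode at h
  rw [force_eq, brec_true] at h
  obtain ⟨h0, h⟩ := h
  set z := pos d (nat_lit 2) with hz
  have hz15 : z % 32 ≤ 15 := pos_le _ _
  have hc : cell (z + 33) ∉ dec O2 := by
    intro hh
    have h1 : O2 &&& bit z = 0 := Nat.eq_of_beq_eq_true h0
    have h2 : (O2 &&& bit z).testBit (z + 33) = true := by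
      rw [Nat.testBit_and, mem_dec.1 hh, mem_dec.1 (mem_dec_bit.2 rfl)]
      rfl
    rw [h1] at h2
    simp at h2
  obtain ⟨d1, L1, V1, hk1, hI1, hv1, hc1⟩ := hih _ _ _ _ _ _ _ _ h hI hFa
  have hFa1 : HFa O2 F0 (Nat.lor U (bit z)) (Nat.lor Fa (plus z)) := by
    intro p hp
    rcases mem_dec_lor.1 hp with h1 | h1
    · rcases hFa p h1 with h2 | ⟨w, hw, h2⟩
      · exact Or.inl h2
      · exact Or.inr ⟨w, mem_dec_lor.2 (Or.inl hw), h2⟩
    · exact Or.inr ⟨cell (z + 33), mem_dec_lor.2 (Or.inr (mem_dec_bit.2 rfl)),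
        (mem_dec_plus hz15).1 h1⟩
  obtain ⟨d2, L2, V2, hk2, hI2, hv2, hc2⟩ := hih _ _ _ _ _ _ _ _ hk1 hI1 hFa1
  refine ⟨d2, L2, V2, hk2, hI2, fun Q => (hv1 Q).trans (hv2 Q), ?_⟩
  intro Q hQ hU hFh htch
  by_cases ht : Touch Q (cell (z + 33))
  · refine (hc1 Q hQ hU ?_ ?_).mono_val (div_le_div_of_nonneg_right (hv2 Q) (by norm_num))
    · intro p hp
      rcases mem_dec_lor.1 hp with h1 | h1
      · exact hFh p h1
      · rw [mem_dec_bit.1 h1]
        exact Or.inr ⟨hc, ht⟩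
    · intro _
      rcases ht with h1 | ⟨u, hu, _⟩
      · exact ⟨_, h1⟩
      · exact ⟨_, hu⟩
  · refine hc2 Q hQ ?_ hFh htch
    intro w hw
    rcases mem_dec_lor.1 hw with h1 | h1
    · exact hU w h1
    · rw [mem_dec_bit.1 h1]
      exact ht

theorem spec_step (hs : Valid x N src) {ih : GoT} (hih : Spec x N O1 O2 F0 ih) :
    Spec x N O1 O2 F0 (goStep src O1 O2 ih) := by
  intro d
  unfold goStep
  cases Nat.ble (nat_lit 2) (Nat.mod d (nat_lit 4)) <;>
    cases Nat.beq (Nat.mod d (nat_lit 2)) (nat_lit 0)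
  · exact spec_leafE hs d
  · exact spec_node hih d
  · exact spec_leafN hs d
  · exact spec_leafA hs d

theorem spec_go (hs : Valid x N src) (fuel : ℕ) : Spec x N O1 O2 F0 (go src O1 O2 fuel) := by
  induction fuel with
  | zero => intro d U Fa Fh tch L V k h; exact absurd h (by simp [go])
  | succ n ih => exact spec_step hs ih

end go

theorem ruleMulti1_sound {x : ℝ} (hx : 0 ≤ x) {N : ℕ} {src : Tab} (hs : Valid x N src)
    {d y O F O1 : ℕ} (h : ruleMulti1 src d y O F O1 = true) :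
    Bd x N (dec O) (dec F) ((y : ℝ) / 16777216) := by
  unfold ruleMulti1 ruleMulti2 at h
  set O2 := Nat.xor O (Nat.land O O1) with hO2
  obtain ⟨_, L, V, hk, hI, _, hc⟩ := spec_go (F0 := dec F) hs _ _ _ _ _ _ _ _ _ h
    (by intro G _; simp [val]) (fun p hp => Or.inl (mem_dec_lor.1 hp))
  refine Bd.split hx (O1 := dec O1) (O2 := dec O2) ?_ ?_ (fun Q => val L Q / 16777216) ?_ ?_
  · intro p hp _
    by_cases h1 : p ∈ dec O1
    · exact Or.inl h1
    · exact Or.inr (mem_dec_diff.2 ⟨hp, h1⟩)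
  · exact fun p hp hh => (mem_dec_diff.1 hh).2 hp
  · intro Q hQ
    refine hc Q hQ (fun z hz => absurd hz not_mem_dec_zero) ?_ (by simp)
    exact fun p hp => Or.inl (mem_dec_lor.1 hp)
  · intro G hG
    have h1 := hI G hG
    have h2 : (V : ℝ) ≤ (Nat.mul y 16777216 : ℕ) := by exact_mod_cast Nat.le_of_ble_eq_true hk
    simp only [Nat.mul_eq, Nat.cast_mul, Nat.cast_ofNat] at h2
    have h3 : ∑ Q ∈ G, x ^ Q.card * (val L Q / 16777216) =
        (∑ Q ∈ G, x ^ Q.card * val L Q) / 16777216 := by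
      rw [sum_div]
      exact sum_congr rfl (fun Q _ => by ring)
    rw [h3]
    refine div_le_div_of_nonneg_right (h1.trans ?_) (by norm_num)
    rw [div_le_iff₀ (by norm_num)]
    exact h2

theorem ruleMulti_sound {x : ℝ} (hx : 0 ≤ x) {N : ℕ} {src : Tab} (hs : Valid x N src)
    {y O F d : ℕ} (hO : Box O) (hF : Box F) (h : ruleMulti src y O F d = true) :
    Bd x N (dec O) (dec F) ((y : ℝ) / 16777216) :=
  Bd.of_shift (hO.nowrap (pos_le d 0)) (hF.nowrap (pos_le d 0)) (ruleMulti1_sound hx hs h)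

theorem ruleSingle_sound {p q : ℕ} (hq : 0 < q) {N : ℕ} {src : Tab}
    (hs : Valid ((p : ℝ) / q) N src) {y O F d : ℕ} (hO : Box O) (hF : Box F)
    (h : ruleSingle p q src y O F d = true) :
    Bd ((p : ℝ) / q) (N + 1) (dec O) (dec F) ((y : ℝ) / 16777216) := by
  unfold ruleSingle at h
  rw [force_eq, band_true] at h
  obtain ⟨h0, h⟩ := h
  obtain ⟨y1, h1, hb⟩ := slot_sound hs h
  have hc : pos d (nat_lit 10) % 32 ≤ 15 := pos_le _ _
  refine Bd.of_shift (hO.nowrap (pos_le d 0)) (hF.nowrap (pos_le d 0)) ?_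
  refine (Bd.single (by positivity) (cell (pos d (nat_lit 10) + 33)) ?_ ?_ ?_ hb).mono_val ?_
  · exact fun w hw _ => mem_dec_bit.1 (dec_of_sub h0 hw)
  · exact fun w hw => (mem_dec_plus hc).2 (Or.inr hw.symm)
  · intro w hw
    rcases mem_dec_lor.1 hw with h2 | h2
    · exact Or.inl h2
    · exact Or.inr (mem_dec_bit.1 h2)
  · have h2 : ((Nat.add (Nat.mul 16777216 q) (Nat.mul p y1) : ℕ) : ℝ) ≤ (Nat.mul y q : ℕ) := by
      exact_mod_cast Nat.le_of_ble_eq_true h1
    simp only [Nat.add_eq, Nat.mul_eq, Nat.cast_add, Nat.cast_mul, Nat.cast_ofNat] at h2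
    have hq' : (0 : ℝ) < q := by exact_mod_cast hq
    have h3 : 1 + (p : ℝ) / q * ((y1 : ℝ) / 16777216) =
        (16777216 * q + p * y1) / (q * 16777216) := by
      field_simp
    rw [h3, div_le_div_iff₀ (by positivity) (by norm_num)]
    nlinarith

theorem ruleImage_sound {x : ℝ} {N : ℕ} {src : Tab} (hs : Valid x N src)
    {y O F d : ℕ} (h : ruleImage src y O F d = true) :
    Bd x N (dec O) (dec F) ((y : ℝ) / 16777216) := by
  unfold ruleImage at h
  rw [force_eq] at h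
  have hv := hs.find (Nat.shiftRight d (nat_lit 13))
  generalize src.find (Nat.shiftRight d (nat_lit 13)) = t at h hv
  cases t with
  | node m l r => exact absurd h (by simp)
  | leaf y' O' F' d' =>
    have h' : band (Nat.ble y' y)
        (image3 (Nat.mod (Nat.shiftRight d (nat_lit 3)) (nat_lit 1024)) O F
          (net d (Nat.lor F' (Nat.shiftLeft O' (nat_lit 1024))))) = true := h
    rw [band_true] at h'
    refine (image3_sound ((Pair.init hv.1 hv.2.1 hv.2.2).net d) h'.2).mono_val ?_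
    refine div_le_div_of_nonneg_right ?_ (by norm_num)
    exact_mod_cast Nat.le_of_ble_eq_true h'.1

theorem valid_of_all {x : ℝ} {N : ℕ} {f : ℕ → ℕ → ℕ → ℕ → Bool}
    (hf : ∀ y O F d : ℕ, 16777216 ≤ y → Box O → Box F → f y O F d = true →
      Bd x N (dec O) (dec F) ((y : ℝ) / 16777216)) {t : Tab} (h : t.all f = true) :
    Valid x N t := by
  induction t with
  | leaf y O F d =>
    have h' : band (Nat.ble (nat_lit 16777216) y) (band (sub (Nat.lor O F) box) (f y O F d))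
      = true := h
    rw [band_true, band_true] at h'
    have hb := box_of_sub h'.2.1
    exact ⟨hb.1, hb.2, hf y O F d (Nat.le_of_ble_eq_true h'.1) hb.1 hb.2 h'.2.2⟩
  | node m l r ihl ihr =>
    have h' : band (l.all f) (r.all f) = true := h
    rw [band_true] at h'
    exact ⟨ihl h'.1, ihr h'.2⟩

theorem valid_zero {x : ℝ} {f : ℕ → ℕ → ℕ → ℕ → Bool} {t : Tab} (h : t.all f = true) :
    Valid x 0 t :=
  valid_of_all (fun y _ _ _ hy _ _ _ => Bd.zero (by
    rw [le_div_iff₀ (by norm_num), one_mul]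
    exact_mod_cast hy)) h

theorem valid_full {p q : ℕ} (hq : 0 < q) {t0 t1b t1i t2b t2i t3b t3i s1 s2 full : Tab}
    {k1 k2 k3 k4 k5 k6 : ℕ} (e1 : s1 = .node k1 (.node k2 t0 t1b) t1i)
    (e2 : s2 = .node k3 s1 (.node k4 t2b t2i)) (e3 : full = .node k5 s2 (.node k6 t3b t3i))
    (h0 : t0.all (fun _ O _ _ => Nat.beq O (nat_lit 0)) = true)
    (h1 : t1b.all (ruleSingle p q full) = true) (h2 : t1i.all (ruleImage t1b) = true)
    (h3 : t2b.all (ruleMulti s1) = true) (h4 : t2i.all (ruleImage t2b) = true)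
    (h5 : t3b.all (ruleMulti s2) = true) (h6 : t3i.all (ruleImage t3b) = true) (N : ℕ) :
    Valid ((p : ℝ) / q) N full := by
  have hx : (0 : ℝ) ≤ (p : ℝ) / q := by positivity
  have step : ∀ M, Valid ((p : ℝ) / q) M t1b → Valid ((p : ℝ) / q) M full := by
    intro M v1
    have v0 : Valid ((p : ℝ) / q) M t0 := valid_of_all (fun y O F _ hy _ _ h => by
      have hO : O = 0 := Nat.eq_of_beq_eq_true h
      refine (Bd.empty (fun w hw => absurd (hO ▸ hw) not_mem_dec_zero)).mono_val ?_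
      rw [le_div_iff₀ (by norm_num), one_mul]
      exact_mod_cast hy) h0
    have v2 : Valid ((p : ℝ) / q) M t1i :=
      valid_of_all (fun _ _ _ _ _ _ _ h => ruleImage_sound v1 h) h2
    have w1 : Valid ((p : ℝ) / q) M s1 := e1 ▸ ⟨⟨v0, v1⟩, v2⟩
    have v3 : Valid ((p : ℝ) / q) M t2b :=
      valid_of_all (fun _ _ _ _ _ hO hF h => ruleMulti_sound hx w1 hO hF h) h3
    have v4 : Valid ((p : ℝ) / q) M t2i :=
      valid_of_all (fun _ _ _ _ _ _ _ h => ruleImage_sound v3 h) h4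
    have w2 : Valid ((p : ℝ) / q) M s2 := e2 ▸ ⟨w1, v3, v4⟩
    have v5 : Valid ((p : ℝ) / q) M t3b :=
      valid_of_all (fun _ _ _ _ _ hO hF h => ruleMulti_sound hx w2 hO hF h) h5
    have v6 : Valid ((p : ℝ) / q) M t3i :=
      valid_of_all (fun _ _ _ _ _ _ _ h => ruleImage_sound v5 h) h6
    exact e3 ▸ ⟨w2, v5, v6⟩
  induction N with
  | zero => exact step 0 (valid_zero h1)
  | succ n ih =>
    exact step (n + 1) (valid_of_all (fun _ _ _ _ _ hO hF h => ruleSingle_sound hq ih hO hF h) h1)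

end Pool.Agent.MP_6a06cd_co.H45
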