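import Pool.Agent.MP_6a06cd_co.H45.XTab

namespace Pool.Agent.MP_6a06cd_co.H45

set_option maxRecDepth 100000

theorem ck58799 : tb58799.all (ruleMulti s1) = true := by
  decide +kernel

theorem ck57259 : tb57259.all (ruleMulti s1) = true := by
  decide +kernel

theorem ck78276 : tb78276.all (ruleMulti s2) = true := by
  decide +kernel

theorem ck58867 : tb58867.all (ruleMulti s1) = true := by
  decide +kernel

theorem ck79024 : tb79024.all (ruleMulti s2) = true := by
  decide +kernel

theorem ck59091 : tb59091.all (ruleMulti s1) = true := by
  decide +kernel

theorem ck78092 : tb78092.all (ruleMulti s2) = true := by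
  decide +kernel

theorem ck56971 : tb56971.all (ruleMulti s1) = true := by
  decide +kernel

theorem ck58851 : tb58851.all (ruleMulti s1) = true := by
  decide +kernel

theorem ck78512 : tb78512.all (ruleMulti s2) = true := by
  decide +kernel

theorem ck58979 : tb58979.all (ruleMulti s1) = true := by
  decide +kernel

theorem ck56085 : tb56085.all (ruleMulti s1) = true := by
  decide +kernel

theorem ck58411 : tb58411.all (ruleMulti s1) = true := by
  decide +kernel

theorem ck61891 : tb61891.all (ruleMulti s1) = true := by
  decide +kernel

theorem ck64259 : tb64259.all (ruleMulti s1) = true := by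
  decide +kernel

theorem ck78324 : tb78324.all (ruleMulti s2) = true := by
  decide +kernel

theorem ck78392 : tb78392.all (ruleMulti s2) = true := by
  decide +kernel

theorem ck58931 : tb58931.all (ruleMulti s1) = true := by
  decide +kernel

theorem ck57451 : tb57451.all (ruleMulti s1) = true := by
  decide +kernel

theorem ck79248 : tb79248.all (ruleMulti s2) = true := by
  decide +kernel

theorem ck80144 : tb80144.all (ruleMulti s2) = true := by
  decide +kernel

theorem ck58859 : tb58859.all (ruleMulti s1) = true := by
  decide +kernel

theorem ck80528 : tb80528.all (ruleMulti s2) = true := by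
  decide +kernel

theorem ck58971 : tb58971.all (ruleMulti s1) = true := by
  decide +kernel

theorem ck58947 : tb58947.all (ruleMulti s1) = true := by
  decide +kernel

theorem ck61059 : tb61059.all (ruleMulti s1) = true := by
  decide +kernel

theorem ck59009 : tb59009.all (ruleMulti s1) = true := by
  decide +kernel

theorem ck57147 : tb57147.all (ruleMulti s1) = true := by
  decide +kernel

theorem ck59683 : tb59683.all (ruleMulti s1) = true := by
  decide +kernel

theorem ck78608 : tb78608.all (ruleMulti s2) = true := by
  decide +kernel

theorem ck60931 : tb60931.all (ruleMulti s1) = true := by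
  decide +kernel

theorem ck79408 : tb79408.all (ruleMulti s2) = true := by
  decide +kernel

theorem ck58603 : tb58603.all (ruleMulti s1) = true := by
  decide +kernel

theorem ck78828 : tb78828.all (ruleMulti s2) = true := by
  decide +kernel

theorem ck58699 : tb58699.all (ruleMulti s1) = true := by
  decide +kernel

theorem ck78912 : tb78912.all (ruleMulti s2) = true := by
  decide +kernel

theorem ck56779 : tb56779.all (ruleMulti s1) = true := by
  decide +kernel

theorem ck80208 : tb80208.all (ruleMulti s2) = true := by
  decide +kernel

theorem ck57067 : tb57067.all (ruleMulti s1) = true := by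
  decide +kernel

theorem ck78356 : tb78356.all (ruleMulti s2) = true := by
  decide +kernel

theorem ck59075 : tb59075.all (ruleMulti s1) = true := by
  decide +kernel

theorem ck58925 : tb58925.all (ruleMulti s1) = true := by
  decide +kernel

theorem ck58715 : tb58715.all (ruleMulti s1) = true := by
  decide +kernel

theorem ck65005 : tb65005.all (ruleMulti s1) = true := by
  decide +kernel

theorem ck58475 : tb58475.all (ruleMulti s1) = true := by
  decide +kernel

theorem ck58783 : tb58783.all (ruleMulti s1) = true := by
  decide +kernel

theorem ck58933 : tb58933.all (ruleMulti s1) = true := by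
  decide +kernel

theorem ck77676 : tb77676.all (ruleMulti s2) = true := by
  decide +kernel

theorem ck79344 : tb79344.all (ruleMulti s2) = true := by
  decide +kernel

theorem ck78464 : tb78464.all (ruleMulti s2) = true := by
  decide +kernel

theorem ck56827 : tb56827.all (ruleMulti s1) = true := by
  decide +kernel

theorem ck78372 : tb78372.all (ruleMulti s2) = true := by
  decide +kernel

theorem ck78340 : tb78340.all (ruleMulti s2) = true := by
  decide +kernel

theorem ck3084 : tb3084.all (ruleSingle (nat_lit 10000) (nat_lit 42489) full) = true := by
  decide +kernel

theorem ck6508 : tb6508.all (ruleSingle (nat_lit 10000) (nat_lit 42489) full) = true := by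
  decide +kernel

theorem ck10061 : tb10061.all (ruleSingle (nat_lit 10000) (nat_lit 42489) full) = true := by
  decide +kernel

theorem ck12621 : tb12621.all (ruleSingle (nat_lit 10000) (nat_lit 42489) full) = true := by
  decide +kernel

theorem ck56955 : tb56955.all (ruleMulti s1) = true := by
  decide +kernel

theorem ck60163 : tb60163.all (ruleMulti s1) = true := by
  decide +kernel

theorem ck62435 : tb62435.all (ruleMulti s1) = true := by
  decide +kernel

theorem ck16935 : tb16935.all (ruleImage t1b) = true := by
  decide +kernel

theorem ck20061 : tb20061.all (ruleImage t1b) = true := by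
  decide +kernel

theorem ck22621 : tb22621.all (ruleImage t1b) = true := by
  decide +kernel

theorem ck25181 : tb25181.all (ruleImage t1b) = true := by
  decide +kernel

theorem ck29402 : tb29402.all (ruleImage t1b) = true := by
  decide +kernel

theorem ck31962 : tb31962.all (ruleImage t1b) = true := by
  decide +kernel

theorem ck34522 : tb34522.all (ruleImage t1b) = true := by
  decide +kernel

theorem ck37082 : tb37082.all (ruleImage t1b) = true := by
  decide +kernel

theorem ck39642 : tb39642.all (ruleImage t1b) = true := by
  decide +kernel

theorem ck42202 : tb42202.all (ruleImage t1b) = true := by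
  decide +kernel

theorem ck44902 : tb44902.all (ruleImage t1b) = true := by
  decide +kernel

theorem ck48636 : tb48636.all (ruleImage t1b) = true := by
  decide +kernel

theorem ck51646 : tb51646.all (ruleImage t1b) = true := by
  decide +kernel

theorem ck67872 : tb67872.all (ruleImage t2b) = true := by
  decide +kernel

theorem ck70968 : tb70968.all (ruleImage t2b) = true := by
  decide +kernel

theorem ck73528 : tb73528.all (ruleImage t2b) = true := by
  decide +kernel

theorem ck76088 : tb76088.all (ruleImage t2b) = true := by
  decide +kernel

theorem ck82756 : tb82756.all (ruleImage t3b) = true := by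
  decide +kernel

theorem ck27315 : tb27315.all (ruleImage t1b) = true := by
  decide +kernel

theorem ck1 : tb1.all (ruleSingle (nat_lit 10000) (nat_lit 42489) full) = true := by
  decide +kernel

theorem ck55531 : tb55531.all (ruleImage t1b) = true := by
  decide +kernel

theorem ck18215 : tb18215.all (ruleImage t1b) = true := by
  decide +kernel

theorem ck44762 : tb44762.all (ruleImage t1b) = true := by
  decide +kernel

theorem ck65120 : tb65120.all (ruleMulti s1) = true := by
  decide +kernel

end Pool.Agent.MP_6a06cd_co.H45
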