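import Pool.Agent.MP_6a06cd_co.H45.XTab

namespace Pool.Agent.MP_6a06cd_co.H45

set_option maxRecDepth 100000

theorem ck56422 : tb56422.all (ruleMulti s1) = true := by
  decide +kernel

theorem ck78488 : tb78488.all (ruleMulti s2) = true := by
  decide +kernel

theorem ck56714 : tb56714.all (ruleMulti s1) = true := by
  decide +kernel

theorem ck79728 : tb79728.all (ruleMulti s2) = true := by
  decide +kernel

theorem ck59363 : tb59363.all (ruleMulti s1) = true := by
  decide +kernel

theorem ck56767 : tb56767.all (ruleMulti s1) = true := by
  decide +kernel

theorem ck78252 : tb78252.all (ruleMulti s2) = true := by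
  decide +kernel

theorem ck58347 : tb58347.all (ruleMulti s1) = true := by
  decide +kernel

theorem ck79072 : tb79072.all (ruleMulti s2) = true := by
  decide +kernel

theorem ck61507 : tb61507.all (ruleMulti s1) = true := by
  decide +kernel

theorem ck79952 : tb79952.all (ruleMulti s2) = true := by
  decide +kernel

theorem ck64579 : tb64579.all (ruleMulti s1) = true := by
  decide +kernel

theorem ck56859 : tb56859.all (ruleMulti s1) = true := by
  decide +kernel

theorem ck56463 : tb56463.all (ruleMulti s1) = true := by
  decide +kernel

theorem ck78580 : tb78580.all (ruleMulti s2) = true := by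
  decide +kernel

theorem ck56759 : tb56759.all (ruleMulti s1) = true := by
  decide +kernel

theorem ck60291 : tb60291.all (ruleMulti s1) = true := by
  decide +kernel

theorem ck79184 : tb79184.all (ruleMulti s2) = true := by
  decide +kernel

theorem ck78560 : tb78560.all (ruleMulti s2) = true := by
  decide +kernel

theorem ck79376 : tb79376.all (ruleMulti s2) = true := by
  decide +kernel

theorem ck59219 : tb59219.all (ruleMulti s1) = true := by
  decide +kernel

theorem ck56907 : tb56907.all (ruleMulti s1) = true := by
  decide +kernel

theorem ck78354 : tb78354.all (ruleMulti s2) = true := by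
  decide +kernel

theorem ck78864 : tb78864.all (ruleMulti s2) = true := by
  decide +kernel

theorem ck58871 : tb58871.all (ruleMulti s1) = true := by
  decide +kernel

theorem ck79424 : tb79424.all (ruleMulti s2) = true := by
  decide +kernel

theorem ck64835 : tb64835.all (ruleMulti s1) = true := by
  decide +kernel

theorem ck61123 : tb61123.all (ruleMulti s1) = true := by
  decide +kernel

theorem ck80112 : tb80112.all (ruleMulti s2) = true := by
  decide +kernel

theorem ck80016 : tb80016.all (ruleMulti s2) = true := by
  decide +kernel

theorem ck77644 : tb77644.all (ruleMulti s2) = true := by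
  decide +kernel

theorem ck60995 : tb60995.all (ruleMulti s1) = true := by
  decide +kernel

theorem ck58895 : tb58895.all (ruleMulti s1) = true := by
  decide +kernel

theorem ck57707 : tb57707.all (ruleMulti s1) = true := by
  decide +kernel

theorem ck79504 : tb79504.all (ruleMulti s2) = true := by
  decide +kernel

theorem ck78484 : tb78484.all (ruleMulti s2) = true := by
  decide +kernel

theorem ck79232 : tb79232.all (ruleMulti s2) = true := by
  decide +kernel

theorem ck79216 : tb79216.all (ruleMulti s2) = true := by
  decide +kernel

theorem ck58923 : tb58923.all (ruleMulti s1) = true := by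
  decide +kernel

theorem ck78792 : tb78792.all (ruleMulti s2) = true := by
  decide +kernel

theorem ck56923 : tb56923.all (ruleMulti s1) = true := by
  decide +kernel

theorem ck61667 : tb61667.all (ruleMulti s1) = true := by
  decide +kernel

theorem ck78336 : tb78336.all (ruleMulti s2) = true := by
  decide +kernel

theorem ck63171 : tb63171.all (ruleMulti s1) = true := by
  decide +kernel

theorem ck63043 : tb63043.all (ruleMulti s1) = true := by
  decide +kernel

theorem ck56005 : tb56005.all (ruleMulti s1) = true := by
  decide +kernel

theorem ck56773 : tb56773.all (ruleMulti s1) = true := by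
  decide +kernel

theorem ck54014 : tb54014.all (ruleImage t1b) = true := by
  decide +kernel

theorem ck78880 : tb78880.all (ruleMulti s2) = true := by
  decide +kernel

theorem ck66849 : tb66849.all (ruleImage t2b) = true := by
  decide +kernel

theorem ck79392 : tb79392.all (ruleMulti s2) = true := by
  decide +kernel

theorem ck56811 : tb56811.all (ruleMulti s1) = true := by
  decide +kernel

theorem ck180 : tb180.all (ruleSingle (nat_lit 10000) (nat_lit 42489) full) = true := by
  decide +kernel

theorem ck948 : tb948.all (ruleSingle (nat_lit 10000) (nat_lit 42489) full) = true := by
  decide +kernel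

theorem ck4698 : tb4698.all (ruleSingle (nat_lit 10000) (nat_lit 42489) full) = true := by
  decide +kernel

theorem ck7788 : tb7788.all (ruleSingle (nat_lit 10000) (nat_lit 42489) full) = true := by
  decide +kernel

theorem ck11341 : tb11341.all (ruleSingle (nat_lit 10000) (nat_lit 42489) full) = true := by
  decide +kernel

theorem ck14064 : tb14064.all (ruleSingle (nat_lit 10000) (nat_lit 42489) full) = true := by
  decide +kernel

theorem ck2377 : tb2377.all (ruleSingle (nat_lit 10000) (nat_lit 42489) full) = true := by
  decide +kernel

theorem ck56197 : tb56197.all (ruleMulti s1) = true := by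
  decide +kernel

theorem ck17447 : tb17447.all (ruleImage t1b) = true := by
  decide +kernel

theorem ck20573 : tb20573.all (ruleImage t1b) = true := by
  decide +kernel

theorem ck23133 : tb23133.all (ruleImage t1b) = true := by
  decide +kernel

theorem ck25693 : tb25693.all (ruleImage t1b) = true := by
  decide +kernel

theorem ck29914 : tb29914.all (ruleImage t1b) = true := by
  decide +kernel

theorem ck32474 : tb32474.all (ruleImage t1b) = true := by
  decide +kernel

theorem ck35034 : tb35034.all (ruleImage t1b) = true := by
  decide +kernel

theorem ck37594 : tb37594.all (ruleImage t1b) = true := by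
  decide +kernel

theorem ck40154 : tb40154.all (ruleImage t1b) = true := by
  decide +kernel

theorem ck42714 : tb42714.all (ruleImage t1b) = true := by
  decide +kernel

theorem ck45414 : tb45414.all (ruleImage t1b) = true := by
  decide +kernel

theorem ck49598 : tb49598.all (ruleImage t1b) = true := by
  decide +kernel

theorem ck52158 : tb52158.all (ruleImage t1b) = true := by
  decide +kernel

theorem ck68384 : tb68384.all (ruleImage t2b) = true := by
  decide +kernel

theorem ck71480 : tb71480.all (ruleImage t2b) = true := by
  decide +kernel

theorem ck74040 : tb74040.all (ruleImage t2b) = true := by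
  decide +kernel

theorem ck76600 : tb76600.all (ruleImage t2b) = true := by
  decide +kernel

theorem ck83268 : tb83268.all (ruleImage t3b) = true := by
  decide +kernel

theorem ck55726 : tb55726.all (ruleImage t1b) = true := by
  decide +kernel

theorem ck52851 : tb52851.all (ruleImage t1b) = true := by
  decide +kernel

theorem ck64979 : tb64979.all (ruleMulti s1) = true := by
  decide +kernel

theorem ck59331 : tb59331.all (ruleMulti s1) = true := by
  decide +kernel

theorem ck2277 : tb2277.all (ruleSingle (nat_lit 10000) (nat_lit 42489) full) = true := by
  decide +kernel

theorem ck69082 : tb69082.all (ruleImage t2b) = true := by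
  decide +kernel

end Pool.Agent.MP_6a06cd_co.H45
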