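import Pool.Agent.MP_6a06cd_co.H45.XTab

namespace Pool.Agent.MP_6a06cd_co.H45

set_option maxRecDepth 100000

theorem ck58835 : tb58835.all (ruleMulti s1) = true := by
  decide +kernel

theorem ck58635 : tb58635.all (ruleMulti s1) = true := by
  decide +kernel

theorem ck65092 : tb65092.all (ruleMulti s1) = true := by
  decide +kernel

theorem ck78528 : tb78528.all (ruleMulti s2) = true := by
  decide +kernel

theorem ck61379 : tb61379.all (ruleMulti s1) = true := by
  decide +kernel

theorem ck58955 : tb58955.all (ruleMulti s1) = true := by
  decide +kernel

theorem ck79760 : tb79760.all (ruleMulti s2) = true := by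
  decide +kernel

theorem ck80592 : tb80592.all (ruleMulti s2) = true := by
  decide +kernel

theorem ck80464 : tb80464.all (ruleMulti s2) = true := by
  decide +kernel

theorem ck58283 : tb58283.all (ruleMulti s1) = true := by
  decide +kernel

theorem ck56803 : tb56803.all (ruleMulti s1) = true := by
  decide +kernel

theorem ck59971 : tb59971.all (ruleMulti s1) = true := by
  decide +kernel

theorem ck58810 : tb58810.all (ruleMulti s1) = true := by
  decide +kernel

theorem ck58941 : tb58941.all (ruleMulti s1) = true := by
  decide +kernel

theorem ck57579 : tb57579.all (ruleMulti s1) = true := by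
  decide +kernel

theorem ck56557 : tb56557.all (ruleMulti s1) = true := by
  decide +kernel

theorem ck56181 : tb56181.all (ruleMulti s1) = true := by
  decide +kernel

theorem ck58887 : tb58887.all (ruleMulti s1) = true := by
  decide +kernel

theorem ck78298 : tb78298.all (ruleMulti s2) = true := by
  decide +kernel

theorem ck80720 : tb80720.all (ruleMulti s2) = true := by
  decide +kernel

theorem ck56843 : tb56843.all (ruleMulti s1) = true := by
  decide +kernel

theorem ck78368 : tb78368.all (ruleMulti s2) = true := by
  decide +kernel

theorem ck61571 : tb61571.all (ruleMulti s1) = true := by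
  decide +kernel

theorem ck77516 : tb77516.all (ruleMulti s2) = true := by
  decide +kernel

theorem ck65184 : tb65184.all (ruleMulti s1) = true := by
  decide +kernel

theorem ck78400 : tb78400.all (ruleMulti s2) = true := by
  decide +kernel

theorem ck78624 : tb78624.all (ruleMulti s2) = true := by
  decide +kernel

theorem ck63555 : tb63555.all (ruleMulti s1) = true := by
  decide +kernel

theorem ck63683 : tb63683.all (ruleMulti s1) = true := by
  decide +kernel

theorem ck78508 : tb78508.all (ruleMulti s2) = true := by
  decide +kernel

theorem ck59907 : tb59907.all (ruleMulti s1) = true := by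
  decide +kernel

theorem ck58839 : tb58839.all (ruleMulti s1) = true := by
  decide +kernel

theorem ck62019 : tb62019.all (ruleMulti s1) = true := by
  decide +kernel

theorem ck80368 : tb80368.all (ruleMulti s2) = true := by
  decide +kernel

theorem ck79120 : tb79120.all (ruleMulti s2) = true := by
  decide +kernel

theorem ck58731 : tb58731.all (ruleMulti s1) = true := by
  decide +kernel

theorem ck78388 : tb78388.all (ruleMulti s2) = true := by
  decide +kernel

theorem ck56839 : tb56839.all (ruleMulti s1) = true := by
  decide +kernel

theorem ck80688 : tb80688.all (ruleMulti s2) = true := by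
  decide +kernel

theorem ck58884 : tb58884.all (ruleMulti s1) = true := by
  decide +kernel

theorem ck78370 : tb78370.all (ruleMulti s2) = true := by
  decide +kernel

theorem ck78784 : tb78784.all (ruleMulti s2) = true := by
  decide +kernel

theorem ck79536 : tb79536.all (ruleMulti s2) = true := by
  decide +kernel

theorem ck58872 : tb58872.all (ruleMulti s1) = true := by
  decide +kernel

theorem ck15123 : tb15123.all (ruleSingle (nat_lit 10000) (nat_lit 42489) full) = true := by
  decide +kernel

theorem ck62531 : tb62531.all (ruleMulti s1) = true := by
  decide +kernel

theorem ck62659 : tb62659.all (ruleMulti s1) = true := by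
  decide +kernel

theorem ck59235 : tb59235.all (ruleMulti s1) = true := by
  decide +kernel

theorem ck64131 : tb64131.all (ruleMulti s1) = true := by
  decide +kernel

theorem ck26942 : tb26942.all (ruleImage t1b) = true := by
  decide +kernel

theorem ck66488 : tb66488.all (ruleImage t2b) = true := by
  decide +kernel

theorem ck5210 : tb5210.all (ruleSingle (nat_lit 10000) (nat_lit 42489) full) = true := by
  decide +kernel

theorem ck80560 : tb80560.all (ruleMulti s2) = true := by
  decide +kernel

theorem ck4186 : tb4186.all (ruleSingle (nat_lit 10000) (nat_lit 42489) full) = true := by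
  decide +kernel

theorem ck7276 : tb7276.all (ruleSingle (nat_lit 10000) (nat_lit 42489) full) = true := by
  decide +kernel

theorem ck10829 : tb10829.all (ruleSingle (nat_lit 10000) (nat_lit 42489) full) = true := by
  decide +kernel

theorem ck13389 : tb13389.all (ruleSingle (nat_lit 10000) (nat_lit 42489) full) = true := by
  decide +kernel

theorem ck49028 : tb49028.all (ruleImage t1b) = true := by
  decide +kernel

theorem ck78444 : tb78444.all (ruleMulti s2) = true := by
  decide +kernel

theorem ck2874 : tb2874.all (ruleSingle (nat_lit 10000) (nat_lit 42489) full) = true := by
  decide +kernel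

theorem ck15911 : tb15911.all (ruleImage t1b) = true := by
  decide +kernel

theorem ck19037 : tb19037.all (ruleImage t1b) = true := by
  decide +kernel

theorem ck21597 : tb21597.all (ruleImage t1b) = true := by
  decide +kernel

theorem ck24157 : tb24157.all (ruleImage t1b) = true := by
  decide +kernel

theorem ck28378 : tb28378.all (ruleImage t1b) = true := by
  decide +kernel

theorem ck30938 : tb30938.all (ruleImage t1b) = true := by
  decide +kernel

theorem ck33498 : tb33498.all (ruleImage t1b) = true := by
  decide +kernel

theorem ck36058 : tb36058.all (ruleImage t1b) = true := by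
  decide +kernel

theorem ck38618 : tb38618.all (ruleImage t1b) = true := by
  decide +kernel

theorem ck41178 : tb41178.all (ruleImage t1b) = true := by
  decide +kernel

theorem ck43738 : tb43738.all (ruleImage t1b) = true := by
  decide +kernel

theorem ck47275 : tb47275.all (ruleImage t1b) = true := by
  decide +kernel

theorem ck50622 : tb50622.all (ruleImage t1b) = true := by
  decide +kernel

theorem ck55019 : tb55019.all (ruleImage t1b) = true := by
  decide +kernel

theorem ck69944 : tb69944.all (ruleImage t2b) = true := by
  decide +kernel

theorem ck72504 : tb72504.all (ruleImage t2b) = true := by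
  decide +kernel

theorem ck75064 : tb75064.all (ruleImage t2b) = true := by
  decide +kernel

theorem ck81360 : tb81360.all (ruleImage t3b) = true := by
  decide +kernel

theorem ck78268 : tb78268.all (ruleMulti s2) = true := by
  decide +kernel

theorem ck59163 : tb59163.all (ruleMulti s1) = true := by
  decide +kernel

theorem ck46438 : tb46438.all (ruleImage t1b) = true := by
  decide +kernel

theorem ck78220 : tb78220.all (ruleMulti s2) = true := by
  decide +kernel

theorem ck53076 : tb53076.all (ruleImage t1b) = true := by
  decide +kernel

theorem ck18387 : tb18387.all (ruleImage t1b) = true := by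
  decide +kernel

end Pool.Agent.MP_6a06cd_co.H45
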