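import Pool.Agent.MP_6a06cd_co.H45.XTab

namespace Pool.Agent.MP_6a06cd_co.H45

set_option maxRecDepth 100000

theorem ck56743 : tb56743.all (ruleMulti s1) = true := by
  decide +kernel

theorem ck60099 : tb60099.all (ruleMulti s1) = true := by
  decide +kernel

theorem ck56829 : tb56829.all (ruleMulti s1) = true := by
  decide +kernel

theorem ck59715 : tb59715.all (ruleMulti s1) = true := by
  decide +kernel

theorem ck63939 : tb63939.all (ruleMulti s1) = true := by
  decide +kernel

theorem ck64451 : tb64451.all (ruleMulti s1) = true := by
  decide +kernel

theorem ck59555 : tb59555.all (ruleMulti s1) = true := by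
  decide +kernel

theorem ck62339 : tb62339.all (ruleMulti s1) = true := by
  decide +kernel

theorem ck59171 : tb59171.all (ruleMulti s1) = true := by
  decide +kernel

theorem ck79696 : tb79696.all (ruleMulti s2) = true := by
  decide +kernel

theorem ck56053 : tb56053.all (ruleMulti s1) = true := by
  decide +kernel

theorem ck62787 : tb62787.all (ruleMulti s1) = true := by
  decide +kernel

theorem ck57387 : tb57387.all (ruleMulti s1) = true := by
  decide +kernel

theorem ck62403 : tb62403.all (ruleMulti s1) = true := by
  decide +kernel

theorem ck78156 : tb78156.all (ruleMulti s2) = true := by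
  decide +kernel

theorem ck56819 : tb56819.all (ruleMulti s1) = true := by
  decide +kernel

theorem ck79568 : tb79568.all (ruleMulti s2) = true := by
  decide +kernel

theorem ck80272 : tb80272.all (ruleMulti s2) = true := by
  decide +kernel

theorem ck56360 : tb56360.all (ruleMulti s1) = true := by
  decide +kernel

theorem ck58855 : tb58855.all (ruleMulti s1) = true := by
  decide +kernel

theorem ck64323 : tb64323.all (ruleMulti s1) = true := by
  decide +kernel

theorem ck78320 : tb78320.all (ruleMulti s2) = true := by
  decide +kernel

theorem ck65000 : tb65000.all (ruleMulti s1) = true := by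
  decide +kernel

theorem ck62211 : tb62211.all (ruleMulti s1) = true := by
  decide +kernel

theorem ck78800 : tb78800.all (ruleMulti s2) = true := by
  decide +kernel

theorem ck56835 : tb56835.all (ruleMulti s1) = true := by
  decide +kernel

theorem ck78768 : tb78768.all (ruleMulti s2) = true := by
  decide +kernel

theorem ck80176 : tb80176.all (ruleMulti s2) = true := by
  decide +kernel

theorem ck77612 : tb77612.all (ruleMulti s2) = true := by
  decide +kernel

theorem ck78310 : tb78310.all (ruleMulti s2) = true := by
  decide +kernel

theorem ck56763 : tb56763.all (ruleMulti s1) = true := by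
  decide +kernel

theorem ck57643 : tb57643.all (ruleMulti s1) = true := by
  decide +kernel

theorem ck59187 : tb59187.all (ruleMulti s1) = true := by
  decide +kernel

theorem ck78394 : tb78394.all (ruleMulti s2) = true := by
  decide +kernel

theorem ck63491 : tb63491.all (ruleMulti s1) = true := by
  decide +kernel

theorem ck65082 : tb65082.all (ruleMulti s1) = true := by
  decide +kernel

theorem ck63235 : tb63235.all (ruleMulti s1) = true := by
  decide +kernel

theorem ck58091 : tb58091.all (ruleMulti s1) = true := by
  decide +kernel

theorem ck58843 : tb58843.all (ruleMulti s1) = true := by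
  decide +kernel

theorem ck56851 : tb56851.all (ruleMulti s1) = true := by
  decide +kernel

theorem ck78352 : tb78352.all (ruleMulti s2) = true := by
  decide +kernel

theorem ck58779 : tb58779.all (ruleMulti s1) = true := by
  decide +kernel

theorem ck78384 : tb78384.all (ruleMulti s2) = true := by
  decide +kernel

theorem ck63427 : tb63427.all (ruleMulti s1) = true := by
  decide +kernel

theorem ck78928 : tb78928.all (ruleMulti s2) = true := by
  decide +kernel

theorem ck62467 : tb62467.all (ruleMulti s1) = true := by
  decide +kernel

theorem ck58927 : tb58927.all (ruleMulti s1) = true := by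
  decide +kernel

theorem ck63811 : tb63811.all (ruleMulti s1) = true := by
  decide +kernel

theorem ck78504 : tb78504.all (ruleMulti s2) = true := by
  decide +kernel

theorem ck81872 : tb81872.all (ruleImage t3b) = true := by
  decide +kernel

theorem ck77548 : tb77548.all (ruleMulti s2) = true := by
  decide +kernel

theorem ck47531 : tb47531.all (ruleImage t1b) = true := by
  decide +kernel

theorem ck78576 : tb78576.all (ruleMulti s2) = true := by
  decide +kernel

theorem ck3930 : tb3930.all (ruleSingle (nat_lit 10000) (nat_lit 42489) full) = true := by
  decide +kernel

theorem ck7020 : tb7020.all (ruleSingle (nat_lit 10000) (nat_lit 42489) full) = true := by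
  decide +kernel

theorem ck10573 : tb10573.all (ruleSingle (nat_lit 10000) (nat_lit 42489) full) = true := by
  decide +kernel

theorem ck13133 : tb13133.all (ruleSingle (nat_lit 10000) (nat_lit 42489) full) = true := by
  decide +kernel

theorem ck78656 : tb78656.all (ruleMulti s2) = true := by
  decide +kernel

theorem ck60211 : tb60211.all (ruleMulti s1) = true := by
  decide +kernel

theorem ck54744 : tb54744.all (ruleImage t1b) = true := by
  decide +kernel

theorem ck18781 : tb18781.all (ruleImage t1b) = true := by
  decide +kernel

theorem ck21341 : tb21341.all (ruleImage t1b) = true := by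
  decide +kernel

theorem ck23901 : tb23901.all (ruleImage t1b) = true := by
  decide +kernel

theorem ck28122 : tb28122.all (ruleImage t1b) = true := by
  decide +kernel

theorem ck30682 : tb30682.all (ruleImage t1b) = true := by
  decide +kernel

theorem ck33242 : tb33242.all (ruleImage t1b) = true := by
  decide +kernel

theorem ck35802 : tb35802.all (ruleImage t1b) = true := by
  decide +kernel

theorem ck38362 : tb38362.all (ruleImage t1b) = true := by
  decide +kernel

theorem ck40922 : tb40922.all (ruleImage t1b) = true := by
  decide +kernel

theorem ck43482 : tb43482.all (ruleImage t1b) = true := by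
  decide +kernel

theorem ck46182 : tb46182.all (ruleImage t1b) = true := by
  decide +kernel

theorem ck50366 : tb50366.all (ruleImage t1b) = true := by
  decide +kernel

theorem ck53758 : tb53758.all (ruleImage t1b) = true := by
  decide +kernel

theorem ck69688 : tb69688.all (ruleImage t2b) = true := by
  decide +kernel

theorem ck72248 : tb72248.all (ruleImage t2b) = true := by
  decide +kernel

theorem ck74808 : tb74808.all (ruleImage t2b) = true := by
  decide +kernel

theorem ck81104 : tb81104.all (ruleImage t3b) = true := by
  decide +kernel

theorem ck57115 : tb57115.all (ruleMulti s1) = true := by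
  decide +kernel

theorem ck56277 : tb56277.all (ruleMulti s1) = true := by
  decide +kernel

theorem ck78292 : tb78292.all (ruleMulti s2) = true := by
  decide +kernel

theorem ck61635 : tb61635.all (ruleMulti s1) = true := by
  decide +kernel

theorem ck8707 : tb8707.all (ruleSingle (nat_lit 10000) (nat_lit 42489) full) = true := by
  decide +kernel

theorem ck69284 : tb69284.all (ruleImage t2b) = true := by
  decide +kernel

theorem ck65065 : tb65065.all (ruleMulti s1) = true := by
  decide +kernel

end Pool.Agent.MP_6a06cd_co.H45
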