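import Pool.Agent.MP_6a06cd_co.H45.XTab
import Pool.Agent.MP_6a06cd_co.H45.XC0

namespace Pool.Agent.MP_6a06cd_co.H45

set_option maxRecDepth 100000

theorem ck56149 : tb56149.all (ruleMulti s1) = true := by
  decide +kernel

theorem ck56795 : tb56795.all (ruleMulti s1) = true := by
  decide +kernel

theorem ck58919 : tb58919.all (ruleMulti s1) = true := by
  decide +kernel

theorem ck58903 : tb58903.all (ruleMulti s1) = true := by
  decide +kernel

theorem ck65152 : tb65152.all (ruleMulti s1) = true := by
  decide +kernel

theorem ck78672 : tb78672.all (ruleMulti s2) = true := by
  decide +kernel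

theorem ck56875 : tb56875.all (ruleMulti s1) = true := by
  decide +kernel

theorem ck60355 : tb60355.all (ruleMulti s1) = true := by
  decide +kernel

theorem ck56493 : tb56493.all (ruleMulti s1) = true := by
  decide +kernel

theorem ck78896 : tb78896.all (ruleMulti s2) = true := by
  decide +kernel

theorem ck80304 : tb80304.all (ruleMulti s2) = true := by
  decide +kernel

theorem ck79056 : tb79056.all (ruleMulti s2) = true := by
  decide +kernel

theorem ck58911 : tb58911.all (ruleMulti s1) = true := by
  decide +kernel

theorem ck79312 : tb79312.all (ruleMulti s2) = true := by
  decide +kernel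

theorem ck65090 : tb65090.all (ruleMulti s1) = true := by
  decide +kernel

theorem ck60483 : tb60483.all (ruleMulti s1) = true := by
  decide +kernel

theorem ck57195 : tb57195.all (ruleMulti s1) = true := by
  decide +kernel

theorem ck59147 : tb59147.all (ruleMulti s1) = true := by
  decide +kernel

theorem ck65096 : tb65096.all (ruleMulti s1) = true := by
  decide +kernel

theorem ck78424 : tb78424.all (ruleMulti s2) = true := by
  decide +kernel

theorem ck59651 : tb59651.all (ruleMulti s1) = true := by
  decide +kernel

theorem ck65144 : tb65144.all (ruleMulti s1) = true := by
  decide +kernel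

theorem ck79824 : tb79824.all (ruleMulti s2) = true := by
  decide +kernel

theorem ck78306 : tb78306.all (ruleMulti s2) = true := by
  decide +kernel

theorem ck57835 : tb57835.all (ruleMulti s1) = true := by
  decide +kernel

theorem ck79040 : tb79040.all (ruleMulti s2) = true := by
  decide +kernel

theorem ck60611 : tb60611.all (ruleMulti s1) = true := by
  decide +kernel

theorem ck78472 : tb78472.all (ruleMulti s2) = true := by
  decide +kernel

theorem ck62979 : tb62979.all (ruleMulti s1) = true := by
  decide +kernel

theorem ck78312 : tb78312.all (ruleMulti s2) = true := by
  decide +kernel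

theorem ck56731 : tb56731.all (ruleMulti s1) = true := by
  decide +kernel

theorem ck80336 : tb80336.all (ruleMulti s2) = true := by
  decide +kernel

theorem ck65296 : tb65296.all (ruleMulti s1) = true := by
  decide +kernel

theorem ck60739 : tb60739.all (ruleMulti s1) = true := by
  decide +kernel

theorem ck56685 : tb56685.all (ruleMulti s1) = true := by
  decide +kernel

theorem ck58027 : tb58027.all (ruleMulti s1) = true := by
  decide +kernel

theorem ck61251 : tb61251.all (ruleMulti s1) = true := by
  decide +kernel

theorem ck59299 : tb59299.all (ruleMulti s1) = true := by
  decide +kernel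

theorem ck78376 : tb78376.all (ruleMulti s2) = true := by
  decide +kernel

theorem ck65136 : tb65136.all (ruleMulti s1) = true := by
  decide +kernel

theorem ck58883 : tb58883.all (ruleMulti s1) = true := by
  decide +kernel

theorem ck80816 : tb80816.all (ruleMulti s2) = true := by
  decide +kernel

theorem ck79936 : tb79936.all (ruleMulti s2) = true := by
  decide +kernel

theorem ck63299 : tb63299.all (ruleMulti s1) = true := by
  decide +kernel

theorem ck56341 : tb56341.all (ruleMulti s1) = true := by
  decide +kernel

theorem ck63619 : tb63619.all (ruleMulti s1) = true := by
  decide +kernel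

theorem ck56653 : tb56653.all (ruleMulti s1) = true := by
  decide +kernel

theorem ck46646 : tb46646.all (ruleImage t1b) = true := by
  decide +kernel

theorem ck64858 : tb64858.all (ruleMulti s1) = true := by
  decide +kernel

theorem ck25949 : tb25949.all (ruleImage t1b) = true := by
  decide +kernel

theorem ck59491 : tb59491.all (ruleMulti s1) = true := by
  decide +kernel

theorem ck60003 : tb60003.all (ruleMulti s1) = true := by
  decide +kernel

theorem ck64195 : tb64195.all (ruleMulti s1) = true := by
  decide +kernel

theorem ck4442 : tb4442.all (ruleSingle (nat_lit 10000) (nat_lit 42489) full) = true := by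
  decide +kernel

theorem ck7532 : tb7532.all (ruleSingle (nat_lit 10000) (nat_lit 42489) full) = true := by
  decide +kernel

theorem ck11085 : tb11085.all (ruleSingle (nat_lit 10000) (nat_lit 42489) full) = true := by
  decide +kernel

theorem ck13808 : tb13808.all (ruleSingle (nat_lit 10000) (nat_lit 42489) full) = true := by
  decide +kernel

theorem ck56021 : tb56021.all (ruleMulti s1) = true := by
  decide +kernel

theorem ck78364 : tb78364.all (ruleMulti s2) = true := by
  decide +kernel

theorem ck65126 : tb65126.all (ruleMulti s1) = true := by
  decide +kernel

theorem ck17703 : tb17703.all (ruleImage t1b) = true := by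
  decide +kernel

theorem ck20829 : tb20829.all (ruleImage t1b) = true := by
  decide +kernel

theorem ck23389 : tb23389.all (ruleImage t1b) = true := by
  decide +kernel

theorem ck26329 : tb26329.all (ruleImage t1b) = true := by
  decide +kernel

theorem ck30170 : tb30170.all (ruleImage t1b) = true := by
  decide +kernel

theorem ck32730 : tb32730.all (ruleImage t1b) = true := by
  decide +kernel

theorem ck35290 : tb35290.all (ruleImage t1b) = true := by
  decide +kernel

theorem ck37850 : tb37850.all (ruleImage t1b) = true := by
  decide +kernel

theorem ck40410 : tb40410.all (ruleImage t1b) = true := by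
  decide +kernel

theorem ck42970 : tb42970.all (ruleImage t1b) = true := by
  decide +kernel

theorem ck45670 : tb45670.all (ruleImage t1b) = true := by
  decide +kernel

theorem ck49854 : tb49854.all (ruleImage t1b) = true := by
  decide +kernel

theorem ck52414 : tb52414.all (ruleImage t1b) = true := by
  decide +kernel

theorem ck68640 : tb68640.all (ruleImage t2b) = true := by
  decide +kernel

theorem ck71736 : tb71736.all (ruleImage t2b) = true := by
  decide +kernel

theorem ck74296 : tb74296.all (ruleImage t2b) = true := by
  decide +kernel

theorem ck77034 : tb77034.all (ruleImage t2b) = true := by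
  decide +kernel

theorem ck83524 : tb83524.all (ruleImage t3b) = true := by
  decide +kernel

theorem ck78260 : tb78260.all (ruleMulti s2) = true := by
  decide +kernel

theorem ck15730 : tb15730.all (ruleSingle (nat_lit 10000) (nat_lit 42489) full) = true := by
  decide +kernel

theorem ck68896 : tb68896.all (ruleImage t2b) = true := by
  decide +kernel

theorem ck60203 : tb60203.all (ruleMulti s1) = true := by
  decide +kernel

theorem ck66355 : tb66355.all (ruleImage t2b) = true := by
  decide +kernel

theorem ck69201 : tb69201.all (ruleImage t2b) = true := by
  decide +kernel

end Pool.Agent.MP_6a06cd_co.H45
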