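import Pool.Agent.MP_6a06cd_co.H45.XTab
import Pool.Agent.MP_6a06cd_co.H45.XC1

namespace Pool.Agent.MP_6a06cd_co.H45

set_option maxRecDepth 100000

theorem ck78028 : tb78028.all (ruleMulti s2) = true := by
  decide +kernel

theorem ck78832 : tb78832.all (ruleMulti s2) = true := by
  decide +kernel

theorem ck56931 : tb56931.all (ruleMulti s1) = true := by
  decide +kernel

theorem ck60803 : tb60803.all (ruleMulti s1) = true := by
  decide +kernel

theorem ck64969 : tb64969.all (ruleMulti s1) = true := by
  decide +kernel

theorem ck60199 : tb60199.all (ruleMulti s1) = true := by
  decide +kernel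

theorem ck59203 : tb59203.all (ruleMulti s1) = true := by
  decide +kernel

theorem ck61315 : tb61315.all (ruleMulti s1) = true := by
  decide +kernel

theorem ck57323 : tb57323.all (ruleMulti s1) = true := by
  decide +kernel

theorem ck59355 : tb59355.all (ruleMulti s1) = true := by
  decide +kernel

theorem ck65124 : tb65124.all (ruleMulti s1) = true := by
  decide +kernel

theorem ck79152 : tb79152.all (ruleMulti s2) = true := by
  decide +kernel

theorem ck59267 : tb59267.all (ruleMulti s1) = true := by
  decide +kernel

theorem ck77836 : tb77836.all (ruleMulti s2) = true := by
  decide +kernel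

theorem ck58879 : tb58879.all (ruleMulti s1) = true := by
  decide +kernel

theorem ck59427 : tb59427.all (ruleMulti s1) = true := by
  decide +kernel

theorem ck78316 : tb78316.all (ruleMulti s2) = true := by
  decide +kernel

theorem ck78640 : tb78640.all (ruleMulti s2) = true := by
  decide +kernel

theorem ck58857 : tb58857.all (ruleMulti s1) = true := by
  decide +kernel

theorem ck78428 : tb78428.all (ruleMulti s2) = true := by
  decide +kernel

theorem ck79632 : tb79632.all (ruleMulti s2) = true := by
  decide +kernel

theorem ck79600 : tb79600.all (ruleMulti s2) = true := by
  decide +kernel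

theorem ck56771 : tb56771.all (ruleMulti s1) = true := by
  decide +kernel

theorem ck78350 : tb78350.all (ruleMulti s2) = true := by
  decide +kernel

theorem ck79792 : tb79792.all (ruleMulti s2) = true := by
  decide +kernel

theorem ck80432 : tb80432.all (ruleMulti s2) = true := by
  decide +kernel

theorem ck65104 : tb65104.all (ruleMulti s1) = true := by
  decide +kernel

theorem ck55957 : tb55957.all (ruleMulti s1) = true := by
  decide +kernel

theorem ck59315 : tb59315.all (ruleMulti s1) = true := by
  decide +kernel

theorem ck56777 : tb56777.all (ruleMulti s1) = true := by
  decide +kernel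

theorem ck60579 : tb60579.all (ruleMulti s1) = true := by
  decide +kernel

theorem ck63107 : tb63107.all (ruleMulti s1) = true := by
  decide +kernel

theorem ck62147 : tb62147.all (ruleMulti s1) = true := by
  decide +kernel

theorem ck79920 : tb79920.all (ruleMulti s2) = true := by
  decide +kernel

theorem ck56783 : tb56783.all (ruleMulti s1) = true := by
  decide +kernel

theorem ck58667 : tb58667.all (ruleMulti s1) = true := by
  decide +kernel

theorem ck58963 : tb58963.all (ruleMulti s1) = true := by
  decide +kernel

theorem ck78294 : tb78294.all (ruleMulti s2) = true := by
  decide +kernel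

theorem ck58987 : tb58987.all (ruleMulti s1) = true := by
  decide +kernel

theorem ck56831 : tb56831.all (ruleMulti s1) = true := by
  decide +kernel

theorem ck59155 : tb59155.all (ruleMulti s1) = true := by
  decide +kernel

theorem ck65168 : tb65168.all (ruleMulti s1) = true := by
  decide +kernel

theorem ck65280 : tb65280.all (ruleMulti s1) = true := by
  decide +kernel

theorem ck14576 : tb14576.all (ruleSingle (nat_lit 10000) (nat_lit 42489) full) = true := by
  decide +kernel

theorem ck61443 : tb61443.all (ruleMulti s1) = true := by
  decide +kernel

theorem ck56755 : tb56755.all (ruleMulti s1) = true := by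
  decide +kernel

theorem ck78830 : tb78830.all (ruleMulti s2) = true := by
  decide +kernel

theorem ck59811 : tb59811.all (ruleMulti s1) = true := by
  decide +kernel

theorem ck9241 : tb9241.all (ruleSingle (nat_lit 10000) (nat_lit 42489) full) = true := by
  decide +kernel

theorem ck1972 : tb1972.all (ruleSingle (nat_lit 10000) (nat_lit 42489) full) = true := by
  decide +kernel

theorem ck58951 : tb58951.all (ruleMulti s1) = true := by
  decide +kernel

theorem ck65540 : tb65540.all (ruleImage t2b) = true := by
  decide +kernel

theorem ck5483 : tb5483.all (ruleSingle (nat_lit 10000) (nat_lit 42489) full) = true := by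
  decide +kernel

theorem ck1460 : tb1460.all (ruleSingle (nat_lit 10000) (nat_lit 42489) full) = true := by
  decide +kernel

theorem ck5740 : tb5740.all (ruleSingle (nat_lit 10000) (nat_lit 42489) full) = true := by
  decide +kernel

theorem ck8300 : tb8300.all (ruleSingle (nat_lit 10000) (nat_lit 42489) full) = true := by
  decide +kernel

theorem ck11853 : tb11853.all (ruleSingle (nat_lit 10000) (nat_lit 42489) full) = true := by
  decide +kernel

theorem ck15474 : tb15474.all (ruleSingle (nat_lit 10000) (nat_lit 42489) full) = true := by
  decide +kernel

theorem ck18490 : tb18490.all (ruleImage t1b) = true := by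
  decide +kernel

theorem ck59087 : tb59087.all (ruleMulti s1) = true := by
  decide +kernel

theorem ck16167 : tb16167.all (ruleImage t1b) = true := by
  decide +kernel

theorem ck19293 : tb19293.all (ruleImage t1b) = true := by
  decide +kernel

theorem ck21853 : tb21853.all (ruleImage t1b) = true := by
  decide +kernel

theorem ck24413 : tb24413.all (ruleImage t1b) = true := by
  decide +kernel

theorem ck28634 : tb28634.all (ruleImage t1b) = true := by
  decide +kernel

theorem ck31194 : tb31194.all (ruleImage t1b) = true := by
  decide +kernel

theorem ck33754 : tb33754.all (ruleImage t1b) = true := by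
  decide +kernel

theorem ck36314 : tb36314.all (ruleImage t1b) = true := by
  decide +kernel

theorem ck38874 : tb38874.all (ruleImage t1b) = true := by
  decide +kernel

theorem ck41434 : tb41434.all (ruleImage t1b) = true := by
  decide +kernel

theorem ck43994 : tb43994.all (ruleImage t1b) = true := by
  decide +kernel

theorem ck47868 : tb47868.all (ruleImage t1b) = true := by
  decide +kernel

theorem ck50878 : tb50878.all (ruleImage t1b) = true := by
  decide +kernel

theorem ck55275 : tb55275.all (ruleImage t1b) = true := by
  decide +kernel

theorem ck70200 : tb70200.all (ruleImage t2b) = true := by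
  decide +kernel

theorem ck72760 : tb72760.all (ruleImage t2b) = true := by
  decide +kernel

theorem ck75320 : tb75320.all (ruleImage t2b) = true := by
  decide +kernel

theorem ck81616 : tb81616.all (ruleImage t3b) = true := by
  decide +kernel

theorem ck56477 : tb56477.all (ruleMulti s1) = true := by
  decide +kernel

theorem ck58939 : tb58939.all (ruleMulti s1) = true := by
  decide +kernel

theorem ck13645 : tb13645.all (ruleSingle (nat_lit 10000) (nat_lit 42489) full) = true := by
  decide +kernel

theorem ck54414 : tb54414.all (ruleImage t1b) = true := by
  decide +kernel

theorem ck59003 : tb59003.all (ruleMulti s1) = true := by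
  decide +kernel

theorem ck64996 : tb64996.all (ruleMulti s1) = true := by
  decide +kernel

theorem ck46645 : tb46645.all (ruleImage t1b) = true := by
  decide +kernel

end Pool.Agent.MP_6a06cd_co.H45
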