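import Pool.Agent.MP_6a06cd_co.H45.XTab
import Pool.Agent.MP_6a06cd_co.H45.XC2

namespace Pool.Agent.MP_6a06cd_co.H45

set_option maxRecDepth 100000

theorem ck60035 : tb60035.all (ruleMulti s1) = true := by
  decide +kernel

theorem ck77772 : tb77772.all (ruleMulti s2) = true := by
  decide +kernel

theorem ck59067 : tb59067.all (ruleMulti s1) = true := by
  decide +kernel

theorem ck78480 : tb78480.all (ruleMulti s2) = true := by
  decide +kernel

theorem ck58899 : tb58899.all (ruleMulti s1) = true := by
  decide +kernel

theorem ck56747 : tb56747.all (ruleMulti s1) = true := by
  decide +kernel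

theorem ck78440 : tb78440.all (ruleMulti s2) = true := by
  decide +kernel

theorem ck65080 : tb65080.all (ruleMulti s1) = true := by
  decide +kernel

theorem ck61651 : tb61651.all (ruleMulti s1) = true := by
  decide +kernel

theorem ck64707 : tb64707.all (ruleMulti s1) = true := by
  decide +kernel

theorem ck79136 : tb79136.all (ruleMulti s2) = true := by
  decide +kernel

theorem ck60419 : tb60419.all (ruleMulti s1) = true := by
  decide +kernel

theorem ck56309 : tb56309.all (ruleMulti s1) = true := by
  decide +kernel

theorem ck79280 : tb79280.all (ruleMulti s2) = true := by
  decide +kernel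

theorem ck57963 : tb57963.all (ruleMulti s1) = true := by
  decide +kernel

theorem ck56469 : tb56469.all (ruleMulti s1) = true := by
  decide +kernel

theorem ck56735 : tb56735.all (ruleMulti s1) = true := by
  decide +kernel

theorem ck58831 : tb58831.all (ruleMulti s1) = true := by
  decide +kernel

theorem ck78664 : tb78664.all (ruleMulti s2) = true := by
  decide +kernel

theorem ck59395 : tb59395.all (ruleMulti s1) = true := by
  decide +kernel

theorem ck56589 : tb56589.all (ruleMulti s1) = true := by
  decide +kernel

theorem ck59027 : tb59027.all (ruleMulti s1) = true := by
  decide +kernel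

theorem ck65128 : tb65128.all (ruleMulti s1) = true := by
  decide +kernel

theorem ck56751 : tb56751.all (ruleMulti s1) = true := by
  decide +kernel

theorem ck61699 : tb61699.all (ruleMulti s1) = true := by
  decide +kernel

theorem ck61187 : tb61187.all (ruleMulti s1) = true := by
  decide +kernel

theorem ck65264 : tb65264.all (ruleMulti s1) = true := by
  decide +kernel

theorem ck79440 : tb79440.all (ruleMulti s2) = true := by
  decide +kernel

theorem ck61763 : tb61763.all (ruleMulti s1) = true := by
  decide +kernel

theorem ck78288 : tb78288.all (ruleMulti s2) = true := by
  decide +kernel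

theorem ck77964 : tb77964.all (ruleMulti s2) = true := by
  decide +kernel

theorem ck78584 : tb78584.all (ruleMulti s2) = true := by
  decide +kernel

theorem ck64914 : tb64914.all (ruleMulti s1) = true := by
  decide +kernel

theorem ck56213 : tb56213.all (ruleMulti s1) = true := by
  decide +kernel

theorem ck63747 : tb63747.all (ruleMulti s1) = true := by
  decide +kernel

theorem ck78704 : tb78704.all (ruleMulti s2) = true := by
  decide +kernel

theorem ck78648 : tb78648.all (ruleMulti s2) = true := by
  decide +kernel

theorem ck58915 : tb58915.all (ruleMulti s1) = true := by
  decide +kernel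

theorem ck80656 : tb80656.all (ruleMulti s2) = true := by
  decide +kernel

theorem ck80080 : tb80080.all (ruleMulti s2) = true := by
  decide +kernel

theorem ck59875 : tb59875.all (ruleMulti s1) = true := by
  decide +kernel

theorem ck57803 : tb57803.all (ruleMulti s1) = true := by
  decide +kernel

theorem ck61027 : tb61027.all (ruleMulti s1) = true := by
  decide +kernel

theorem ck78628 : tb78628.all (ruleMulti s2) = true := by
  decide +kernel

theorem ck78344 : tb78344.all (ruleMulti s2) = true := by
  decide +kernel

theorem ck62163 : tb62163.all (ruleMulti s1) = true := by
  decide +kernel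

theorem ck56739 : tb56739.all (ruleMulti s1) = true := by
  decide +kernel

theorem ck58845 : tb58845.all (ruleMulti s1) = true := by
  decide +kernel

theorem ck56733 : tb56733.all (ruleMulti s1) = true := by
  decide +kernel

theorem ck60547 : tb60547.all (ruleMulti s1) = true := by
  decide +kernel

theorem ck61155 : tb61155.all (ruleMulti s1) = true := by
  decide +kernel

theorem ck64882 : tb64882.all (ruleMulti s1) = true := by
  decide +kernel

theorem ck436 : tb436.all (ruleSingle (nat_lit 10000) (nat_lit 42489) full) = true := by
  decide +kernel

theorem ck1204 : tb1204.all (ruleSingle (nat_lit 10000) (nat_lit 42489) full) = true := by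
  decide +kernel

theorem ck4954 : tb4954.all (ruleSingle (nat_lit 10000) (nat_lit 42489) full) = true := by
  decide +kernel

theorem ck8044 : tb8044.all (ruleSingle (nat_lit 10000) (nat_lit 42489) full) = true := by
  decide +kernel

theorem ck11597 : tb11597.all (ruleSingle (nat_lit 10000) (nat_lit 42489) full) = true := by
  decide +kernel

theorem ck14320 : tb14320.all (ruleSingle (nat_lit 10000) (nat_lit 42489) full) = true := by
  decide +kernel

theorem ck65088 : tb65088.all (ruleMulti s1) = true := by
  decide +kernel

theorem ck56573 : tb56573.all (ruleMulti s1) = true := by
  decide +kernel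

theorem ck16679 : tb16679.all (ruleImage t1b) = true := by
  decide +kernel

theorem ck19805 : tb19805.all (ruleImage t1b) = true := by
  decide +kernel

theorem ck22365 : tb22365.all (ruleImage t1b) = true := by
  decide +kernel

theorem ck24925 : tb24925.all (ruleImage t1b) = true := by
  decide +kernel

theorem ck29146 : tb29146.all (ruleImage t1b) = true := by
  decide +kernel

theorem ck31706 : tb31706.all (ruleImage t1b) = true := by
  decide +kernel

theorem ck34266 : tb34266.all (ruleImage t1b) = true := by
  decide +kernel

theorem ck36826 : tb36826.all (ruleImage t1b) = true := by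
  decide +kernel

theorem ck39386 : tb39386.all (ruleImage t1b) = true := by
  decide +kernel

theorem ck41946 : tb41946.all (ruleImage t1b) = true := by
  decide +kernel

theorem ck44506 : tb44506.all (ruleImage t1b) = true := by
  decide +kernel

theorem ck48380 : tb48380.all (ruleImage t1b) = true := by
  decide +kernel

theorem ck51390 : tb51390.all (ruleImage t1b) = true := by
  decide +kernel

theorem ck67616 : tb67616.all (ruleImage t2b) = true := by
  decide +kernel

theorem ck70712 : tb70712.all (ruleImage t2b) = true := by
  decide +kernel

theorem ck73272 : tb73272.all (ruleImage t2b) = true := by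
  decide +kernel

theorem ck75832 : tb75832.all (ruleImage t2b) = true := by
  decide +kernel

theorem ck82500 : tb82500.all (ruleImage t3b) = true := by
  decide +kernel

theorem ck64099 : tb64099.all (ruleMulti s1) = true := by
  decide +kernel

theorem ck8835 : tb8835.all (ruleSingle (nat_lit 10000) (nat_lit 42489) full) = true := by
  decide +kernel

theorem ck26585 : tb26585.all (ruleImage t1b) = true := by
  decide +kernel

theorem ck54578 : tb54578.all (ruleImage t1b) = true := by
  decide +kernel

theorem ck78468 : tb78468.all (ruleMulti s2) = true := by
  decide +kernel

theorem ck56775 : tb56775.all (ruleMulti s1) = true := by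
  decide +kernel

end Pool.Agent.MP_6a06cd_co.H45
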