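import Pool.Agent.MP_6a06cd_co.H45.XTab
import Pool.Agent.MP_6a06cd_co.H45.XC3

namespace Pool.Agent.MP_6a06cd_co.H45

set_option maxRecDepth 100000

theorem ck78992 : tb78992.all (ruleMulti s2) = true := by
  decide +kernel

theorem ck78568 : tb78568.all (ruleMulti s2) = true := by
  decide +kernel

theorem ck58907 : tb58907.all (ruleMulti s1) = true := by
  decide +kernel

theorem ck58891 : tb58891.all (ruleMulti s1) = true := by
  decide +kernel

theorem ck57035 : tb57035.all (ruleMulti s1) = true := by
  decide +kernel

theorem ck60227 : tb60227.all (ruleMulti s1) = true := by
  decide +kernel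

theorem ck78332 : tb78332.all (ruleMulti s2) = true := by
  decide +kernel

theorem ck78616 : tb78616.all (ruleMulti s2) = true := by
  decide +kernel

theorem ck56787 : tb56787.all (ruleMulti s1) = true := by
  decide +kernel

theorem ck58219 : tb58219.all (ruleMulti s1) = true := by
  decide +kernel

theorem ck56621 : tb56621.all (ruleMulti s1) = true := by
  decide +kernel

theorem ck58921 : tb58921.all (ruleMulti s1) = true := by
  decide +kernel

theorem ck79552 : tb79552.all (ruleMulti s2) = true := by
  decide +kernel

theorem ck65216 : tb65216.all (ruleMulti s1) = true := by
  decide +kernel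

theorem ck78342 : tb78342.all (ruleMulti s2) = true := by
  decide +kernel

theorem ck57771 : tb57771.all (ruleMulti s1) = true := by
  decide +kernel

theorem ck58967 : tb58967.all (ruleMulti s1) = true := by
  decide +kernel

theorem ck59523 : tb59523.all (ruleMulti s1) = true := by
  decide +kernel

theorem ck78436 : tb78436.all (ruleMulti s2) = true := by
  decide +kernel

theorem ck78448 : tb78448.all (ruleMulti s2) = true := by
  decide +kernel

theorem ck58155 : tb58155.all (ruleMulti s1) = true := by
  decide +kernel

theorem ck59843 : tb59843.all (ruleMulti s1) = true := by
  decide +kernel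

theorem ck65073 : tb65073.all (ruleMulti s1) = true := by
  decide +kernel

theorem ck79360 : tb79360.all (ruleMulti s2) = true := by
  decide +kernel

theorem ck60675 : tb60675.all (ruleMulti s1) = true := by
  decide +kernel

theorem ck65033 : tb65033.all (ruleMulti s1) = true := by
  decide +kernel

theorem ck78720 : tb78720.all (ruleMulti s2) = true := by
  decide +kernel

theorem ck57227 : tb57227.all (ruleMulti s1) = true := by
  decide +kernel

theorem ck56791 : tb56791.all (ruleMulti s1) = true := by
  decide +kernel

theorem ck59011 : tb59011.all (ruleMulti s1) = true := by
  decide +kernel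

theorem ck62563 : tb62563.all (ruleMulti s1) = true := by
  decide +kernel

theorem ck78404 : tb78404.all (ruleMulti s2) = true := by
  decide +kernel

theorem ck59051 : tb59051.all (ruleMulti s1) = true := by
  decide +kernel

theorem ck63363 : tb63363.all (ruleMulti s1) = true := by
  decide +kernel

theorem ck78300 : tb78300.all (ruleMulti s2) = true := by
  decide +kernel

theorem ck56447 : tb56447.all (ruleMulti s1) = true := by
  decide +kernel

theorem ck57899 : tb57899.all (ruleMulti s1) = true := by
  decide +kernel

theorem ck61955 : tb61955.all (ruleMulti s1) = true := by
  decide +kernel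

theorem ck59107 : tb59107.all (ruleMulti s1) = true := by
  decide +kernel

theorem ck60867 : tb60867.all (ruleMulti s1) = true := by
  decide +kernel

theorem ck78408 : tb78408.all (ruleMulti s2) = true := by
  decide +kernel

theorem ck59131 : tb59131.all (ruleMulti s1) = true := by
  decide +kernel

theorem ck65248 : tb65248.all (ruleMulti s1) = true := by
  decide +kernel

theorem ck77996 : tb77996.all (ruleMulti s2) = true := by
  decide +kernel

theorem ck59059 : tb59059.all (ruleMulti s1) = true := by
  decide +kernel

theorem ck78520 : tb78520.all (ruleMulti s2) = true := by
  decide +kernel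

theorem ck3340 : tb3340.all (ruleSingle (nat_lit 10000) (nat_lit 42489) full) = true := by
  decide +kernel

theorem ck59323 : tb59323.all (ruleMulti s1) = true := by
  decide +kernel

theorem ck67225 : tb67225.all (ruleImage t2b) = true := by
  decide +kernel

theorem ck78348 : tb78348.all (ruleMulti s2) = true := by
  decide +kernel

theorem ck61539 : tb61539.all (ruleMulti s1) = true := by
  decide +kernel

theorem ck80256 : tb80256.all (ruleMulti s2) = true := by
  decide +kernel

theorem ck78304 : tb78304.all (ruleMulti s2) = true := by
  decide +kernel

theorem ck1716 : tb1716.all (ruleSingle (nat_lit 10000) (nat_lit 42489) full) = true := by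
  decide +kernel

theorem ck5996 : tb5996.all (ruleSingle (nat_lit 10000) (nat_lit 42489) full) = true := by
  decide +kernel

theorem ck9549 : tb9549.all (ruleSingle (nat_lit 10000) (nat_lit 42489) full) = true := by
  decide +kernel

theorem ck12109 : tb12109.all (ruleSingle (nat_lit 10000) (nat_lit 42489) full) = true := by
  decide +kernel

theorem ck27547 : tb27547.all (ruleImage t1b) = true := by
  decide +kernel

theorem ck9011 : tb9011.all (ruleSingle (nat_lit 10000) (nat_lit 42489) full) = true := by
  decide +kernel

theorem ck57131 : tb57131.all (ruleMulti s1) = true := by
  decide +kernel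

theorem ck16423 : tb16423.all (ruleImage t1b) = true := by
  decide +kernel

theorem ck19549 : tb19549.all (ruleImage t1b) = true := by
  decide +kernel

theorem ck22109 : tb22109.all (ruleImage t1b) = true := by
  decide +kernel

theorem ck24669 : tb24669.all (ruleImage t1b) = true := by
  decide +kernel

theorem ck28890 : tb28890.all (ruleImage t1b) = true := by
  decide +kernel

theorem ck31450 : tb31450.all (ruleImage t1b) = true := by
  decide +kernel

theorem ck34010 : tb34010.all (ruleImage t1b) = true := by
  decide +kernel

theorem ck36570 : tb36570.all (ruleImage t1b) = true := by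
  decide +kernel

theorem ck39130 : tb39130.all (ruleImage t1b) = true := by
  decide +kernel

theorem ck41690 : tb41690.all (ruleImage t1b) = true := by
  decide +kernel

theorem ck44250 : tb44250.all (ruleImage t1b) = true := by
  decide +kernel

theorem ck48124 : tb48124.all (ruleImage t1b) = true := by
  decide +kernel

theorem ck51134 : tb51134.all (ruleImage t1b) = true := by
  decide +kernel

theorem ck65882 : tb65882.all (ruleImage t2b) = true := by
  decide +kernel

theorem ck70456 : tb70456.all (ruleImage t2b) = true := by
  decide +kernel

theorem ck73016 : tb73016.all (ruleImage t2b) = true := by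
  decide +kernel

theorem ck75576 : tb75576.all (ruleImage t2b) = true := by
  decide +kernel

theorem ck82244 : tb82244.all (ruleImage t3b) = true := by
  decide +kernel

theorem ck14933 : tb14933.all (ruleSingle (nat_lit 10000) (nat_lit 42489) full) = true := by
  decide +kernel

theorem ck66138 : tb66138.all (ruleImage t2b) = true := by
  decide +kernel

theorem ck58847 : tb58847.all (ruleMulti s1) = true := by
  decide +kernel

theorem ck26781 : tb26781.all (ruleImage t1b) = true := by
  decide +kernel

theorem ck56165 : tb56165.all (ruleMulti s1) = true := by
  decide +kernel

theorem ck58826 : tb58826.all (ruleMulti s1) = true := by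
  decide +kernel

theorem ck0 : tb0.all (fun _ O _ _ => Nat.beq O (nat_lit 0)) = true := by
  decide +kernel

theorem ck5482 : tb5482.all (ruleSingle (nat_lit 10000) (nat_lit 42489) full) = true := by
  decide +kernel

end Pool.Agent.MP_6a06cd_co.H45
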