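import Pool.Agent.MP_6a06cd_co.H45.XTab
import Pool.Agent.MP_6a06cd_co.H45.XC4

namespace Pool.Agent.MP_6a06cd_co.H45

set_option maxRecDepth 100000

theorem ck59063 : tb59063.all (ruleMulti s1) = true := by
  decide +kernel

theorem ck78592 : tb78592.all (ruleMulti s2) = true := by
  decide +kernel

theorem ck58995 : tb58995.all (ruleMulti s1) = true := by
  decide +kernel

theorem ck65112 : tb65112.all (ruleMulti s1) = true := by
  decide +kernel

theorem ck59779 : tb59779.all (ruleMulti s1) = true := by
  decide +kernel

theorem ck78936 : tb78936.all (ruleMulti s2) = true := by
  decide +kernel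

theorem ck78944 : tb78944.all (ruleMulti s2) = true := by
  decide +kernel

theorem ck59035 : tb59035.all (ruleMulti s1) = true := by
  decide +kernel

theorem ck78396 : tb78396.all (ruleMulti s2) = true := by
  decide +kernel

theorem ck78380 : tb78380.all (ruleMulti s2) = true := by
  decide +kernel

theorem ck79664 : tb79664.all (ruleMulti s2) = true := by
  decide +kernel

theorem ck56757 : tb56757.all (ruleMulti s1) = true := by
  decide +kernel

theorem ck56939 : tb56939.all (ruleMulti s1) = true := by
  decide +kernel

theorem ck56749 : tb56749.all (ruleMulti s1) = true := by
  decide +kernel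

theorem ck59083 : tb59083.all (ruleMulti s1) = true := by
  decide +kernel

theorem ck58841 : tb58841.all (ruleMulti s1) = true := by
  decide +kernel

theorem ck58935 : tb58935.all (ruleMulti s1) = true := by
  decide +kernel

theorem ck78752 : tb78752.all (ruleMulti s2) = true := by
  decide +kernel

theorem ck77708 : tb77708.all (ruleMulti s2) = true := by
  decide +kernel

theorem ck62723 : tb62723.all (ruleMulti s1) = true := by
  decide +kernel

theorem ck79856 : tb79856.all (ruleMulti s2) = true := by
  decide +kernel

theorem ck59251 : tb59251.all (ruleMulti s1) = true := by
  decide +kernel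

theorem ck63875 : tb63875.all (ruleMulti s1) = true := by
  decide +kernel

theorem ck78302 : tb78302.all (ruleMulti s2) = true := by
  decide +kernel

theorem ck56431 : tb56431.all (ruleMulti s1) = true := by
  decide +kernel

theorem ck80784 : tb80784.all (ruleMulti s2) = true := by
  decide +kernel

theorem ck62179 : tb62179.all (ruleMulti s1) = true := by
  decide +kernel

theorem ck78328 : tb78328.all (ruleMulti s2) = true := by
  decide +kernel

theorem ck59619 : tb59619.all (ruleMulti s1) = true := by
  decide +kernel

theorem ck79888 : tb79888.all (ruleMulti s2) = true := by
  decide +kernel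

theorem ck78466 : tb78466.all (ruleMulti s2) = true := by
  decide +kernel

theorem ck58885 : tb58885.all (ruleMulti s1) = true := by
  decide +kernel

theorem ck56378 : tb56378.all (ruleMulti s1) = true := by
  decide +kernel

theorem ck56722 : tb56722.all (ruleMulti s1) = true := by
  decide +kernel

theorem ck78736 : tb78736.all (ruleMulti s2) = true := by
  decide +kernel

theorem ck62595 : tb62595.all (ruleMulti s1) = true := by
  decide +kernel

theorem ck78338 : tb78338.all (ruleMulti s2) = true := by
  decide +kernel

theorem ck58844 : tb58844.all (ruleMulti s1) = true := by
  decide +kernel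

theorem ck78456 : tb78456.all (ruleMulti s2) = true := by
  decide +kernel

theorem ck59043 : tb59043.all (ruleMulti s1) = true := by
  decide +kernel

theorem ck65200 : tb65200.all (ruleMulti s1) = true := by
  decide +kernel

theorem ck62083 : tb62083.all (ruleMulti s1) = true := by
  decide +kernel

theorem ck78295 : tb78295.all (ruleMulti s2) = true := by
  decide +kernel

theorem ck59195 : tb59195.all (ruleMulti s1) = true := by
  decide +kernel

theorem ck78496 : tb78496.all (ruleMulti s2) = true := by
  decide +kernel

theorem ck64866 : tb64866.all (ruleMulti s1) = true := by
  decide +kernel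

theorem ck59939 : tb59939.all (ruleMulti s1) = true := by
  decide +kernel

theorem ck59007 : tb59007.all (ruleMulti s1) = true := by
  decide +kernel

theorem ck65013 : tb65013.all (ruleMulti s1) = true := by
  decide +kernel

theorem ck56778 : tb56778.all (ruleMulti s1) = true := by
  decide +kernel

theorem ck78296 : tb78296.all (ruleMulti s2) = true := by
  decide +kernel

theorem ck58983 : tb58983.all (ruleMulti s1) = true := by
  decide +kernel

theorem ck65084 : tb65084.all (ruleMulti s1) = true := by
  decide +kernel

theorem ck3674 : tb3674.all (ruleSingle (nat_lit 10000) (nat_lit 42489) full) = true := by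
  decide +kernel

theorem ck6764 : tb6764.all (ruleSingle (nat_lit 10000) (nat_lit 42489) full) = true := by
  decide +kernel

theorem ck10317 : tb10317.all (ruleSingle (nat_lit 10000) (nat_lit 42489) full) = true := by
  decide +kernel

theorem ck12877 : tb12877.all (ruleSingle (nat_lit 10000) (nat_lit 42489) full) = true := by
  decide +kernel

theorem ck56753 : tb56753.all (ruleMulti s1) = true := by
  decide +kernel

theorem ck78824 : tb78824.all (ruleMulti s2) = true := by
  decide +kernel

theorem ck78632 : tb78632.all (ruleMulti s2) = true := by
  decide +kernel

theorem ck17959 : tb17959.all (ruleImage t1b) = true := by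
  decide +kernel

theorem ck21085 : tb21085.all (ruleImage t1b) = true := by
  decide +kernel

theorem ck23645 : tb23645.all (ruleImage t1b) = true := by
  decide +kernel

theorem ck27866 : tb27866.all (ruleImage t1b) = true := by
  decide +kernel

theorem ck30426 : tb30426.all (ruleImage t1b) = true := by
  decide +kernel

theorem ck32986 : tb32986.all (ruleImage t1b) = true := by
  decide +kernel

theorem ck35546 : tb35546.all (ruleImage t1b) = true := by
  decide +kernel

theorem ck38106 : tb38106.all (ruleImage t1b) = true := by
  decide +kernel

theorem ck40666 : tb40666.all (ruleImage t1b) = true := by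
  decide +kernel

theorem ck43226 : tb43226.all (ruleImage t1b) = true := by
  decide +kernel

theorem ck45926 : tb45926.all (ruleImage t1b) = true := by
  decide +kernel

theorem ck50110 : tb50110.all (ruleImage t1b) = true := by
  decide +kernel

theorem ck53502 : tb53502.all (ruleImage t1b) = true := by
  decide +kernel

theorem ck69432 : tb69432.all (ruleImage t2b) = true := by
  decide +kernel

theorem ck71992 : tb71992.all (ruleImage t2b) = true := by
  decide +kernel

theorem ck74552 : tb74552.all (ruleImage t2b) = true := by
  decide +kernel

theorem ck80848 : tb80848.all (ruleImage t3b) = true := by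
  decide +kernel

theorem ck59347 : tb59347.all (ruleMulti s1) = true := by
  decide +kernel

theorem ck65312 : tb65312.all (ruleImage t2b) = true := by
  decide +kernel

theorem ck77290 : tb77290.all (ruleImage t2b) = true := by
  decide +kernel

theorem ck8556 : tb8556.all (ruleSingle (nat_lit 10000) (nat_lit 42489) full) = true := by
  decide +kernel

theorem ck52670 : tb52670.all (ruleImage t1b) = true := by
  decide +kernel

theorem ck65116 : tb65116.all (ruleMulti s1) = true := by
  decide +kernel

theorem ck60195 : tb60195.all (ruleMulti s1) = true := by
  decide +kernel

end Pool.Agent.MP_6a06cd_co.H45
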