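import Pool.Agent.MP_6a06cd_co.H45.XTab
import Pool.Agent.MP_6a06cd_co.H45.XC5

namespace Pool.Agent.MP_6a06cd_co.H45

set_option maxRecDepth 100000

theorem ck57515 : tb57515.all (ruleMulti s1) = true := by
  decide +kernel

theorem ck58943 : tb58943.all (ruleMulti s1) = true := by
  decide +kernel

theorem ck59459 : tb59459.all (ruleMulti s1) = true := by
  decide +kernel

theorem ck78960 : tb78960.all (ruleMulti s2) = true := by
  decide +kernel

theorem ck78688 : tb78688.all (ruleMulti s2) = true := by
  decide +kernel

theorem ck62915 : tb62915.all (ruleMulti s1) = true := by
  decide +kernel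

theorem ck79088 : tb79088.all (ruleMulti s2) = true := by
  decide +kernel

theorem ck80400 : tb80400.all (ruleMulti s2) = true := by
  decide +kernel

theorem ck79472 : tb79472.all (ruleMulti s2) = true := by
  decide +kernel

theorem ck58875 : tb58875.all (ruleMulti s1) = true := by
  decide +kernel

theorem ck57099 : tb57099.all (ruleMulti s1) = true := by
  decide +kernel

theorem ck78544 : tb78544.all (ruleMulti s2) = true := by
  decide +kernel

theorem ck78460 : tb78460.all (ruleMulti s2) = true := by
  decide +kernel

theorem ck64067 : tb64067.all (ruleMulti s1) = true := by
  decide +kernel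

theorem ck59019 : tb59019.all (ruleMulti s1) = true := by
  decide +kernel

theorem ck78360 : tb78360.all (ruleMulti s2) = true := by
  decide +kernel

theorem ck80000 : tb80000.all (ruleMulti s2) = true := by
  decide +kernel

theorem ck78452 : tb78452.all (ruleMulti s2) = true := by
  decide +kernel

theorem ck56525 : tb56525.all (ruleMulti s1) = true := by
  decide +kernel

theorem ck58763 : tb58763.all (ruleMulti s1) = true := by
  decide +kernel

theorem ck78416 : tb78416.all (ruleMulti s2) = true := by
  decide +kernel

theorem ck78314 : tb78314.all (ruleMulti s2) = true := by
  decide +kernel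

theorem ck55989 : tb55989.all (ruleMulti s1) = true := by
  decide +kernel

theorem ck80240 : tb80240.all (ruleMulti s2) = true := by
  decide +kernel

theorem ck57155 : tb57155.all (ruleMulti s1) = true := by
  decide +kernel

theorem ck78412 : tb78412.all (ruleMulti s2) = true := by
  decide +kernel

theorem ck77900 : tb77900.all (ruleMulti s2) = true := by
  decide +kernel

theorem ck58999 : tb58999.all (ruleMulti s1) = true := by
  decide +kernel

theorem ck80048 : tb80048.all (ruleMulti s2) = true := by
  decide +kernel

theorem ck56734 : tb56734.all (ruleMulti s1) = true := by
  decide +kernel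

theorem ck61827 : tb61827.all (ruleMulti s1) = true := by
  decide +kernel

theorem ck59587 : tb59587.all (ruleMulti s1) = true := by
  decide +kernel

theorem ck58959 : tb58959.all (ruleMulti s1) = true := by
  decide +kernel

theorem ck56410 : tb56410.all (ruleMulti s1) = true := by
  decide +kernel

theorem ck57003 : tb57003.all (ruleMulti s1) = true := by
  decide +kernel

theorem ck59159 : tb59159.all (ruleMulti s1) = true := by
  decide +kernel

theorem ck59123 : tb59123.all (ruleMulti s1) = true := by
  decide +kernel

theorem ck80624 : tb80624.all (ruleMulti s2) = true := by
  decide +kernel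

theorem ck58975 : tb58975.all (ruleMulti s1) = true := by
  decide +kernel

theorem ck65100 : tb65100.all (ruleMulti s1) = true := by
  decide +kernel

theorem ck58981 : tb58981.all (ruleMulti s1) = true := by
  decide +kernel

theorem ck57163 : tb57163.all (ruleMulti s1) = true := by
  decide +kernel

theorem ck58539 : tb58539.all (ruleMulti s1) = true := by
  decide +kernel

theorem ck62275 : tb62275.all (ruleMulti s1) = true := by
  decide +kernel

theorem ck78308 : tb78308.all (ruleMulti s2) = true := by
  decide +kernel

theorem ck77580 : tb77580.all (ruleMulti s2) = true := by
  decide +kernel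

theorem ck79200 : tb79200.all (ruleMulti s2) = true := by
  decide +kernel

theorem ck78432 : tb78432.all (ruleMulti s2) = true := by
  decide +kernel

theorem ck64987 : tb64987.all (ruleMulti s1) = true := by
  decide +kernel

theorem ck59139 : tb59139.all (ruleMulti s1) = true := by
  decide +kernel

theorem ck56837 : tb56837.all (ruleMulti s1) = true := by
  decide +kernel

theorem ck80752 : tb80752.all (ruleMulti s2) = true := by
  decide +kernel

theorem ck692 : tb692.all (ruleSingle (nat_lit 10000) (nat_lit 42489) full) = true := by
  decide +kernel

theorem ck2618 : tb2618.all (ruleSingle (nat_lit 10000) (nat_lit 42489) full) = true := by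
  decide +kernel

theorem ck6252 : tb6252.all (ruleSingle (nat_lit 10000) (nat_lit 42489) full) = true := by
  decide +kernel

theorem ck9805 : tb9805.all (ruleSingle (nat_lit 10000) (nat_lit 42489) full) = true := by
  decide +kernel

theorem ck12365 : tb12365.all (ruleSingle (nat_lit 10000) (nat_lit 42489) full) = true := by
  decide +kernel

theorem ck79984 : tb79984.all (ruleMulti s2) = true := by
  decide +kernel

theorem ck58827 : tb58827.all (ruleMulti s1) = true := by
  decide +kernel

theorem ck53226 : tb53226.all (ruleImage t1b) = true := by
  decide +kernel

theorem ck17191 : tb17191.all (ruleImage t1b) = true := by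
  decide +kernel

theorem ck20317 : tb20317.all (ruleImage t1b) = true := by
  decide +kernel

theorem ck22877 : tb22877.all (ruleImage t1b) = true := by
  decide +kernel

theorem ck25437 : tb25437.all (ruleImage t1b) = true := by
  decide +kernel

theorem ck29658 : tb29658.all (ruleImage t1b) = true := by
  decide +kernel

theorem ck32218 : tb32218.all (ruleImage t1b) = true := by
  decide +kernel

theorem ck34778 : tb34778.all (ruleImage t1b) = true := by
  decide +kernel

theorem ck37338 : tb37338.all (ruleImage t1b) = true := by
  decide +kernel

theorem ck39898 : tb39898.all (ruleImage t1b) = true := by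
  decide +kernel

theorem ck42458 : tb42458.all (ruleImage t1b) = true := by
  decide +kernel

theorem ck45158 : tb45158.all (ruleImage t1b) = true := by
  decide +kernel

theorem ck49342 : tb49342.all (ruleImage t1b) = true := by
  decide +kernel

theorem ck51902 : tb51902.all (ruleImage t1b) = true := by
  decide +kernel

theorem ck68128 : tb68128.all (ruleImage t2b) = true := by
  decide +kernel

theorem ck71224 : tb71224.all (ruleImage t2b) = true := by
  decide +kernel

theorem ck73784 : tb73784.all (ruleImage t2b) = true := by
  decide +kernel

theorem ck76344 : tb76344.all (ruleImage t2b) = true := by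
  decide +kernel

theorem ck83012 : tb83012.all (ruleImage t3b) = true := by
  decide +kernel

theorem ck47044 : tb47044.all (ruleImage t1b) = true := by
  decide +kernel

theorem ck78816 : tb78816.all (ruleMulti s2) = true := by
  decide +kernel

theorem ck58997 : tb58997.all (ruleMulti s1) = true := by
  decide +kernel

theorem ck76856 : tb76856.all (ruleImage t2b) = true := by
  decide +kernel

theorem ck48892 : tb48892.all (ruleImage t1b) = true := by
  decide +kernel

theorem ck58873 : tb58873.all (ruleMulti s1) = true := by
  decide +kernel

end Pool.Agent.MP_6a06cd_co.H45
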