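import Pool.Agent.MP_6a06cd_co.H45.XC0
import Pool.Agent.MP_6a06cd_co.H45.XC1
import Pool.Agent.MP_6a06cd_co.H45.XC2
import Pool.Agent.MP_6a06cd_co.H45.XC3
import Pool.Agent.MP_6a06cd_co.H45.XC4
import Pool.Agent.MP_6a06cd_co.H45.XC5
import Pool.Agent.MP_6a06cd_co.H45.XC6
import Pool.Agent.MP_6a06cd_co.H45.XC7
import Pool.Agent.MP_6a06cd_co.H45.XC8
import Pool.Agent.MP_6a06cd_co.H45.XC9

namespace Pool.Agent.MP_6a06cd_co.H45

set_option maxRecDepth 100000

theorem all_t0 : t0.all (fun _ O _ _ => Nat.beq O (nat_lit 0)) = true :=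
ck0

theorem all_t1b : t1b.all (ruleSingle (nat_lit 10000) (nat_lit 42489) full) = true :=
(Tab.all_node (Tab.all_node (Tab.all_node (Tab.all_node (Tab.all_node (Tab.all_node ck1
ck180)
(Tab.all_node ck436
ck692))
(Tab.all_node (Tab.all_node ck948
ck1204)
(Tab.all_node ck1460
ck1716)))
(Tab.all_node (Tab.all_node ck1972
ck2277)
(Tab.all_node ck2377
ck2618)))
(Tab.all_node (Tab.all_node ck2874
(Tab.all_node ck3084
ck3340))
(Tab.all_node (Tab.all_node (Tab.all_node ck3674
ck3930)
(Tab.all_node ck4186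
ck4442))
(Tab.all_node (Tab.all_node ck4698
ck4954)
ck5210))))
(Tab.all_node (Tab.all_node (Tab.all_node ck5482
(Tab.all_node (Tab.all_node ck5483
(Tab.all_node ck5740
ck5996))
(Tab.all_node (Tab.all_node ck6252
ck6508)
(Tab.all_node ck6764
ck7020))))
(Tab.all_node (Tab.all_node (Tab.all_node (Tab.all_node ck7276
ck7532)
(Tab.all_node ck7788
ck8044))
(Tab.all_node (Tab.all_node ck8300
ck8556)
ck8707))
(Tab.all_node ck8835
ck9011)))
(Tab.all_node (Tab.all_node (Tab.all_node (Tab.all_node (Tab.all_node ck9241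
(Tab.all_node ck9549
ck9805))
(Tab.all_node (Tab.all_node ck10061
ck10317)
(Tab.all_node ck10573
ck10829)))
(Tab.all_node (Tab.all_node (Tab.all_node ck11085
ck11341)
(Tab.all_node ck11597
ck11853))
(Tab.all_node (Tab.all_node ck12109
ck12365)
(Tab.all_node ck12621
ck12877))))
(Tab.all_node (Tab.all_node (Tab.all_node (Tab.all_node ck13133
ck13389)
ck13645)
ck13808)
(Tab.all_node ck14064
ck14320)))
(Tab.all_node (Tab.all_node ck14576
ck14933)
(Tab.all_node ck15123
(Tab.all_node ck15474
ck15730))))))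

theorem all_t1i : t1i.all (ruleImage t1b) = true :=
(Tab.all_node (Tab.all_node (Tab.all_node (Tab.all_node (Tab.all_node (Tab.all_node (Tab.all_node ck15911
ck16167)
(Tab.all_node ck16423
ck16679))
(Tab.all_node (Tab.all_node ck16935
ck17191)
(Tab.all_node ck17447
ck17703)))
(Tab.all_node (Tab.all_node (Tab.all_node ck17959
ck18215)
ck18387)
ck18490))
(Tab.all_node (Tab.all_node (Tab.all_node (Tab.all_node (Tab.all_node ck18781
ck19037)
(Tab.all_node ck19293
ck19549))
(Tab.all_node (Tab.all_node ck19805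
ck20061)
(Tab.all_node ck20317
ck20573)))
(Tab.all_node (Tab.all_node (Tab.all_node ck20829
ck21085)
(Tab.all_node ck21341
ck21597))
(Tab.all_node (Tab.all_node ck21853
ck22109)
(Tab.all_node ck22365
ck22621))))
(Tab.all_node (Tab.all_node (Tab.all_node (Tab.all_node ck22877
ck23133)
(Tab.all_node ck23389
ck23645))
(Tab.all_node (Tab.all_node ck23901
ck24157)
(Tab.all_node ck24413
ck24669)))
(Tab.all_node (Tab.all_node (Tab.all_node ck24925
ck25181)
(Tab.all_node ck25437
ck25693))
ck25949))))
(Tab.all_node (Tab.all_node (Tab.all_node (Tab.all_node ck26329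
ck26585)
ck26781)
ck26942)
(Tab.all_node (Tab.all_node (Tab.all_node ck27315
(Tab.all_node (Tab.all_node ck27547
(Tab.all_node ck27866
ck28122))
(Tab.all_node (Tab.all_node ck28378
ck28634)
(Tab.all_node ck28890
ck29146))))
(Tab.all_node (Tab.all_node (Tab.all_node (Tab.all_node ck29402
ck29658)
(Tab.all_node ck29914
ck30170))
(Tab.all_node (Tab.all_node ck30426
ck30682)
(Tab.all_node ck30938
ck31194)))
(Tab.all_node (Tab.all_node (Tab.all_node ck31450
ck31706)
(Tab.all_node ck31962
ck32218))
(Tab.all_node (Tab.all_node ck32474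
ck32730)
(Tab.all_node ck32986
ck33242)))))
(Tab.all_node (Tab.all_node (Tab.all_node (Tab.all_node (Tab.all_node ck33498
ck33754)
(Tab.all_node ck34010
ck34266))
(Tab.all_node (Tab.all_node ck34522
ck34778)
(Tab.all_node ck35034
ck35290)))
(Tab.all_node (Tab.all_node (Tab.all_node ck35546
ck35802)
(Tab.all_node ck36058
ck36314))
(Tab.all_node (Tab.all_node ck36570
ck36826)
(Tab.all_node ck37082
ck37338))))
(Tab.all_node (Tab.all_node (Tab.all_node (Tab.all_node ck37594
ck37850)
(Tab.all_node ck38106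
ck38362))
(Tab.all_node (Tab.all_node ck38618
ck38874)
(Tab.all_node ck39130
ck39386)))
(Tab.all_node (Tab.all_node (Tab.all_node ck39642
ck39898)
(Tab.all_node ck40154
ck40410))
(Tab.all_node (Tab.all_node ck40666
ck40922)
(Tab.all_node ck41178
ck41434))))))))
(Tab.all_node (Tab.all_node (Tab.all_node (Tab.all_node (Tab.all_node (Tab.all_node (Tab.all_node (Tab.all_node ck41690
ck41946)
(Tab.all_node ck42202
ck42458))
(Tab.all_node (Tab.all_node ck42714
ck42970)
(Tab.all_node ck43226
ck43482)))
(Tab.all_node (Tab.all_node (Tab.all_node ck43738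
ck43994)
(Tab.all_node ck44250
ck44506))
ck44762))
(Tab.all_node (Tab.all_node ck44902
ck45158)
(Tab.all_node ck45414
ck45670)))
(Tab.all_node (Tab.all_node (Tab.all_node ck45926
ck46182)
ck46438)
ck46645))
(Tab.all_node (Tab.all_node ck46646
ck47044)
(Tab.all_node (Tab.all_node ck47275
ck47531)
(Tab.all_node (Tab.all_node ck47868
ck48124)
(Tab.all_node ck48380
ck48636)))))
(Tab.all_node (Tab.all_node (Tab.all_node (Tab.all_node ck48892
(Tab.all_node ck49028
(Tab.all_node ck49342
ck49598)))
(Tab.all_node (Tab.all_node (Tab.all_node ck49854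
ck50110)
(Tab.all_node ck50366
ck50622))
(Tab.all_node (Tab.all_node ck50878
ck51134)
(Tab.all_node ck51390
ck51646))))
(Tab.all_node (Tab.all_node (Tab.all_node (Tab.all_node ck51902
ck52158)
(Tab.all_node ck52414
ck52670))
ck52851)
(Tab.all_node ck53076
ck53226)))
(Tab.all_node (Tab.all_node (Tab.all_node (Tab.all_node ck53502
ck53758)
ck54014)
ck54414)
(Tab.all_node (Tab.all_node ck54578
ck54744)
(Tab.all_node (Tab.all_node ck55019
ck55275)
(Tab.all_node ck55531
ck55726)))))))

theorem all_t2b : t2b.all (ruleMulti s1) = true :=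
(Tab.all_node (Tab.all_node (Tab.all_node (Tab.all_node (Tab.all_node (Tab.all_node (Tab.all_node ck55957
(Tab.all_node ck55989
ck56005))
(Tab.all_node ck56021
ck56053))
(Tab.all_node ck56085
(Tab.all_node (Tab.all_node ck56149
ck56165)
(Tab.all_node ck56181
ck56197))))
(Tab.all_node (Tab.all_node ck56213
(Tab.all_node ck56277
ck56309))
(Tab.all_node ck56341
ck56360)))
(Tab.all_node (Tab.all_node (Tab.all_node ck56378
ck56410)
(Tab.all_node (Tab.all_node ck56422
ck56431)
(Tab.all_node ck56447
(Tab.all_node (Tab.all_node ck56463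
ck56469)
ck56477))))
(Tab.all_node (Tab.all_node (Tab.all_node ck56493
ck56525)
(Tab.all_node (Tab.all_node ck56557
ck56573)
ck56589))
(Tab.all_node (Tab.all_node ck56621
ck56653)
(Tab.all_node ck56685
(Tab.all_node ck56714
(Tab.all_node ck56722
(Tab.all_node (Tab.all_node (Tab.all_node ck56731
(Tab.all_node ck56733
ck56734))
ck56735)
(Tab.all_node ck56739
ck56743)))))))))
(Tab.all_node (Tab.all_node (Tab.all_node (Tab.all_node (Tab.all_node (Tab.all_node (Tab.all_node (Tab.all_node (Tab.all_node (Tab.all_node ck56747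
ck56749)
(Tab.all_node ck56751
ck56753))
(Tab.all_node (Tab.all_node ck56755
ck56757)
ck56759))
(Tab.all_node (Tab.all_node ck56763
ck56767)
(Tab.all_node (Tab.all_node ck56771
ck56773)
(Tab.all_node ck56775
(Tab.all_node ck56777
ck56778)))))
(Tab.all_node (Tab.all_node (Tab.all_node ck56779
ck56783)
(Tab.all_node ck56787
ck56791))
(Tab.all_node ck56795
ck56803)))
(Tab.all_node (Tab.all_node (Tab.all_node ck56811
ck56819)
(Tab.all_node (Tab.all_node (Tab.all_node ck56827
ck56829)
ck56831)
(Tab.all_node (Tab.all_node ck56835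
ck56837)
ck56839)))
(Tab.all_node (Tab.all_node ck56843
ck56851)
ck56859)))
(Tab.all_node (Tab.all_node ck56875
(Tab.all_node ck56907
(Tab.all_node ck56923
ck56931)))
(Tab.all_node (Tab.all_node ck56939
ck56955)
ck56971)))
(Tab.all_node (Tab.all_node (Tab.all_node ck57003
ck57035)
(Tab.all_node ck57067
(Tab.all_node ck57099
ck57115)))
(Tab.all_node (Tab.all_node (Tab.all_node ck57131
(Tab.all_node ck57147
ck57155))
ck57163)
(Tab.all_node ck57195
ck57227))))
(Tab.all_node (Tab.all_node (Tab.all_node ck57259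
ck57323)
(Tab.all_node ck57387
ck57451))
(Tab.all_node (Tab.all_node ck57515
ck57579)
(Tab.all_node ck57643
ck57707))))
(Tab.all_node (Tab.all_node (Tab.all_node (Tab.all_node (Tab.all_node ck57771
ck57803)
ck57835)
(Tab.all_node ck57899
ck57963))
(Tab.all_node (Tab.all_node ck58027
ck58091)
(Tab.all_node ck58155
ck58219)))
(Tab.all_node (Tab.all_node (Tab.all_node ck58283
ck58347)
(Tab.all_node ck58411
ck58475))
(Tab.all_node (Tab.all_node ck58539
(Tab.all_node ck58603
ck58635))
(Tab.all_node (Tab.all_node ck58667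
(Tab.all_node ck58699
ck58715))
(Tab.all_node ck58731
(Tab.all_node ck58763
ck58779))))))))
(Tab.all_node (Tab.all_node (Tab.all_node (Tab.all_node (Tab.all_node (Tab.all_node ck58783
ck58799)
(Tab.all_node ck58810
(Tab.all_node (Tab.all_node (Tab.all_node (Tab.all_node ck58826
(Tab.all_node ck58827
ck58831))
(Tab.all_node (Tab.all_node ck58835
(Tab.all_node ck58839
ck58841))
(Tab.all_node (Tab.all_node (Tab.all_node ck58843
ck58844)
ck58845)
ck58847)))
(Tab.all_node (Tab.all_node (Tab.all_node ck58851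
(Tab.all_node ck58855
ck58857))
ck58859)
(Tab.all_node (Tab.all_node ck58867
(Tab.all_node (Tab.all_node ck58871
ck58872)
ck58873))
(Tab.all_node ck58875
ck58879))))
(Tab.all_node (Tab.all_node (Tab.all_node (Tab.all_node (Tab.all_node (Tab.all_node ck58883
ck58884)
ck58885)
ck58887)
(Tab.all_node ck58891
ck58895))
(Tab.all_node (Tab.all_node ck58899
ck58903)
(Tab.all_node ck58907
ck58911)))
(Tab.all_node (Tab.all_node (Tab.all_node ck58915
(Tab.all_node ck58919
ck58921))
(Tab.all_node (Tab.all_node ck58923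
ck58925)
ck58927))
(Tab.all_node (Tab.all_node (Tab.all_node ck58931
ck58933)
ck58935)
(Tab.all_node (Tab.all_node ck58939
ck58941)
ck58943)))))))
(Tab.all_node (Tab.all_node (Tab.all_node (Tab.all_node (Tab.all_node (Tab.all_node (Tab.all_node ck58947
ck58951)
(Tab.all_node ck58955
ck58959))
(Tab.all_node (Tab.all_node ck58963
ck58967)
(Tab.all_node ck58971
ck58975)))
(Tab.all_node (Tab.all_node (Tab.all_node (Tab.all_node ck58979
ck58981)
ck58983)
ck58987)
(Tab.all_node (Tab.all_node (Tab.all_node ck58995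
ck58997)
ck58999)
(Tab.all_node ck59003
(Tab.all_node ck59007
ck59009)))))
(Tab.all_node (Tab.all_node (Tab.all_node ck59011
ck59019)
(Tab.all_node ck59027
ck59035))
(Tab.all_node (Tab.all_node ck59043
ck59051)
(Tab.all_node (Tab.all_node ck59059
ck59063)
ck59067))))
(Tab.all_node (Tab.all_node (Tab.all_node (Tab.all_node ck59075
(Tab.all_node ck59083
ck59087))
ck59091)
(Tab.all_node ck59107
(Tab.all_node ck59123
ck59131)))
(Tab.all_node (Tab.all_node (Tab.all_node ck59139
ck59147)
(Tab.all_node (Tab.all_node ck59155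
ck59159)
ck59163))
(Tab.all_node ck59171
(Tab.all_node ck59187
ck59195)))))
(Tab.all_node (Tab.all_node (Tab.all_node (Tab.all_node ck59203
ck59219)
(Tab.all_node ck59235
ck59251))
(Tab.all_node ck59267
(Tab.all_node ck59299
(Tab.all_node ck59315
ck59323))))
(Tab.all_node (Tab.all_node (Tab.all_node ck59331
(Tab.all_node ck59347
ck59355))
ck59363)
(Tab.all_node ck59395
ck59427)))))
(Tab.all_node (Tab.all_node (Tab.all_node (Tab.all_node (Tab.all_node ck59459
ck59491)
(Tab.all_node ck59523
ck59555))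
(Tab.all_node (Tab.all_node ck59587
ck59619)
(Tab.all_node ck59651
ck59683)))
(Tab.all_node (Tab.all_node ck59715
(Tab.all_node ck59779
ck59811))
(Tab.all_node (Tab.all_node ck59843
ck59875)
(Tab.all_node ck59907
ck59939))))
(Tab.all_node (Tab.all_node (Tab.all_node (Tab.all_node ck59971
ck60003)
ck60035)
(Tab.all_node ck60099
(Tab.all_node ck60163
(Tab.all_node (Tab.all_node (Tab.all_node ck60195
ck60199)
ck60203)
ck60211))))
(Tab.all_node (Tab.all_node ck60227
ck60291)
(Tab.all_node ck60355
ck60419)))))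
(Tab.all_node (Tab.all_node (Tab.all_node (Tab.all_node (Tab.all_node ck60483
(Tab.all_node ck60547
ck60579))
(Tab.all_node ck60611
ck60675))
(Tab.all_node (Tab.all_node ck60739
ck60803)
(Tab.all_node ck60867
ck60931)))
(Tab.all_node (Tab.all_node (Tab.all_node (Tab.all_node ck60995
ck61027)
ck61059)
(Tab.all_node (Tab.all_node ck61123
ck61155)
ck61187))
(Tab.all_node (Tab.all_node ck61251
ck61315)
(Tab.all_node ck61379
ck61443))))
(Tab.all_node (Tab.all_node (Tab.all_node (Tab.all_node (Tab.all_node ck61507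
ck61539)
ck61571)
(Tab.all_node (Tab.all_node (Tab.all_node ck61635
ck61651)
ck61667)
ck61699))
(Tab.all_node (Tab.all_node ck61763
ck61827)
(Tab.all_node ck61891
ck61955)))
(Tab.all_node (Tab.all_node (Tab.all_node ck62019
ck62083)
(Tab.all_node (Tab.all_node (Tab.all_node ck62147
ck62163)
ck62179)
ck62211))
(Tab.all_node (Tab.all_node ck62275
ck62339)
(Tab.all_node (Tab.all_node ck62403
ck62435)
ck62467))))))
(Tab.all_node (Tab.all_node (Tab.all_node (Tab.all_node (Tab.all_node (Tab.all_node (Tab.all_node ck62531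
ck62563)
ck62595)
(Tab.all_node ck62659
ck62723))
(Tab.all_node ck62787
(Tab.all_node ck62915
ck62979)))
(Tab.all_node (Tab.all_node (Tab.all_node ck63043
ck63107)
(Tab.all_node ck63171
ck63235))
(Tab.all_node (Tab.all_node ck63299
ck63363)
(Tab.all_node ck63427
ck63491))))
(Tab.all_node (Tab.all_node (Tab.all_node (Tab.all_node ck63555
ck63619)
(Tab.all_node ck63683
ck63747))
(Tab.all_node (Tab.all_node ck63811
ck63875)
ck63939))
(Tab.all_node (Tab.all_node (Tab.all_node (Tab.all_node ck64067
ck64099)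
ck64131)
(Tab.all_node ck64195
ck64259))
(Tab.all_node ck64323
ck64451))))
(Tab.all_node (Tab.all_node (Tab.all_node (Tab.all_node ck64579
ck64707)
(Tab.all_node (Tab.all_node (Tab.all_node ck64835
ck64858)
ck64866)
ck64882))
(Tab.all_node ck64914
(Tab.all_node (Tab.all_node ck64969
ck64979)
ck64987)))
(Tab.all_node (Tab.all_node (Tab.all_node ck64996
(Tab.all_node ck65000
ck65005))
(Tab.all_node ck65013
ck65033))
(Tab.all_node (Tab.all_node (Tab.all_node (Tab.all_node ck65065
(Tab.all_node ck65073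
(Tab.all_node (Tab.all_node ck65080
ck65082)
ck65084)))
(Tab.all_node (Tab.all_node (Tab.all_node (Tab.all_node ck65088
ck65090)
ck65092)
(Tab.all_node ck65096
ck65100))
(Tab.all_node ck65104
(Tab.all_node ck65112
ck65116))))
(Tab.all_node (Tab.all_node (Tab.all_node (Tab.all_node ck65120
(Tab.all_node ck65124
ck65126))
ck65128)
(Tab.all_node ck65136
ck65144))
(Tab.all_node ck65152
ck65168)))
(Tab.all_node (Tab.all_node (Tab.all_node ck65184
ck65200)
ck65216)
(Tab.all_node (Tab.all_node ck65248
ck65264)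
(Tab.all_node ck65280
ck65296)))))))))

theorem all_t2i : t2i.all (ruleImage t2b) = true :=
(Tab.all_node (Tab.all_node (Tab.all_node (Tab.all_node ck65312
ck65540)
(Tab.all_node (Tab.all_node ck65882
ck66138)
ck66355))
(Tab.all_node ck66488
(Tab.all_node ck66849
ck67225)))
(Tab.all_node (Tab.all_node (Tab.all_node (Tab.all_node (Tab.all_node ck67616
ck67872)
(Tab.all_node ck68128
ck68384))
(Tab.all_node (Tab.all_node ck68640
ck68896)
ck69082))
(Tab.all_node (Tab.all_node ck69201
(Tab.all_node ck69284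
(Tab.all_node ck69432
ck69688)))
(Tab.all_node (Tab.all_node (Tab.all_node ck69944
ck70200)
(Tab.all_node ck70456
ck70712))
(Tab.all_node (Tab.all_node ck70968
ck71224)
(Tab.all_node ck71480
ck71736)))))
(Tab.all_node (Tab.all_node (Tab.all_node (Tab.all_node (Tab.all_node ck71992
ck72248)
(Tab.all_node ck72504
ck72760))
(Tab.all_node (Tab.all_node ck73016
ck73272)
(Tab.all_node ck73528
ck73784)))
(Tab.all_node (Tab.all_node (Tab.all_node ck74040
ck74296)
(Tab.all_node ck74552
ck74808))
(Tab.all_node (Tab.all_node ck75064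
ck75320)
(Tab.all_node ck75576
ck75832))))
(Tab.all_node (Tab.all_node (Tab.all_node (Tab.all_node ck76088
ck76344)
(Tab.all_node ck76600
ck76856))
ck77034)
ck77290))))

theorem all_t3b : t3b.all (ruleMulti s2) = true :=
(Tab.all_node (Tab.all_node (Tab.all_node (Tab.all_node (Tab.all_node (Tab.all_node ck77516
ck77548)
(Tab.all_node ck77580
ck77612))
(Tab.all_node (Tab.all_node ck77644
ck77676)
ck77708))
(Tab.all_node (Tab.all_node ck77772
ck77836)
(Tab.all_node ck77900
(Tab.all_node ck77964
ck77996))))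
(Tab.all_node (Tab.all_node (Tab.all_node ck78028
ck78092)
(Tab.all_node ck78156
(Tab.all_node ck78220
(Tab.all_node (Tab.all_node ck78252
ck78260)
(Tab.all_node ck78268
ck78276)))))
(Tab.all_node (Tab.all_node (Tab.all_node (Tab.all_node (Tab.all_node (Tab.all_node (Tab.all_node ck78288
(Tab.all_node ck78292
(Tab.all_node ck78294
ck78295)))
(Tab.all_node (Tab.all_node ck78296
ck78298)
(Tab.all_node ck78300
ck78302)))
(Tab.all_node (Tab.all_node (Tab.all_node ck78304
ck78306)
(Tab.all_node ck78308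
ck78310))
(Tab.all_node (Tab.all_node ck78312
ck78314)
ck78316)))
(Tab.all_node (Tab.all_node (Tab.all_node ck78320
ck78324)
(Tab.all_node ck78328
ck78332))
(Tab.all_node (Tab.all_node (Tab.all_node ck78336
ck78338)
(Tab.all_node ck78340
ck78342))
(Tab.all_node ck78344
(Tab.all_node ck78348
ck78350)))))
(Tab.all_node (Tab.all_node (Tab.all_node (Tab.all_node (Tab.all_node ck78352
ck78354)
ck78356)
(Tab.all_node ck78360
ck78364))
(Tab.all_node (Tab.all_node (Tab.all_node ck78368
ck78370)
ck78372)
(Tab.all_node ck78376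
ck78380)))
(Tab.all_node (Tab.all_node (Tab.all_node ck78384
ck78388)
(Tab.all_node (Tab.all_node ck78392
ck78394)
ck78396))
(Tab.all_node (Tab.all_node ck78400
ck78404)
(Tab.all_node ck78408
ck78412)))))
(Tab.all_node (Tab.all_node (Tab.all_node (Tab.all_node ck78416
(Tab.all_node ck78424
ck78428))
(Tab.all_node (Tab.all_node ck78432
ck78436)
(Tab.all_node ck78440
ck78444)))
(Tab.all_node (Tab.all_node (Tab.all_node ck78448
ck78452)
(Tab.all_node ck78456
ck78460))
(Tab.all_node (Tab.all_node (Tab.all_node ck78464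
ck78466)
ck78468)
ck78472)))
(Tab.all_node (Tab.all_node (Tab.all_node (Tab.all_node ck78480
ck78484)
ck78488)
(Tab.all_node ck78496
(Tab.all_node ck78504
ck78508)))
(Tab.all_node (Tab.all_node ck78512
ck78520)
ck78528))))
(Tab.all_node (Tab.all_node (Tab.all_node (Tab.all_node ck78544
(Tab.all_node ck78560
ck78568))
(Tab.all_node (Tab.all_node (Tab.all_node ck78576
ck78580)
ck78584)
ck78592))
(Tab.all_node (Tab.all_node (Tab.all_node ck78608
ck78616)
(Tab.all_node (Tab.all_node ck78624
ck78628)
ck78632))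
(Tab.all_node (Tab.all_node ck78640
ck78648)
(Tab.all_node ck78656
ck78664))))
(Tab.all_node (Tab.all_node (Tab.all_node ck78672
ck78688)
(Tab.all_node ck78704
ck78720))
(Tab.all_node (Tab.all_node ck78736
ck78752)
(Tab.all_node ck78768
(Tab.all_node ck78784
ck78792))))))))
(Tab.all_node (Tab.all_node (Tab.all_node (Tab.all_node (Tab.all_node (Tab.all_node (Tab.all_node ck78800
(Tab.all_node ck78816
(Tab.all_node ck78824
(Tab.all_node ck78828
ck78830))))
ck78832)
(Tab.all_node (Tab.all_node ck78864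
ck78880)
(Tab.all_node ck78896
ck78912)))
(Tab.all_node (Tab.all_node (Tab.all_node (Tab.all_node ck78928
ck78936)
ck78944)
ck78960)
(Tab.all_node ck78992
(Tab.all_node ck79024
ck79040))))
(Tab.all_node (Tab.all_node (Tab.all_node (Tab.all_node ck79056
ck79072)
ck79088)
(Tab.all_node (Tab.all_node ck79120
ck79136)
ck79152))
(Tab.all_node (Tab.all_node (Tab.all_node ck79184
ck79200)
(Tab.all_node ck79216
ck79232))
(Tab.all_node ck79248
ck79280))))
(Tab.all_node (Tab.all_node (Tab.all_node (Tab.all_node ck79312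
(Tab.all_node ck79344
ck79360))
(Tab.all_node (Tab.all_node ck79376
ck79392)
(Tab.all_node ck79408
ck79424)))
(Tab.all_node (Tab.all_node ck79440
ck79472)
(Tab.all_node ck79504
(Tab.all_node ck79536
ck79552))))
(Tab.all_node (Tab.all_node (Tab.all_node ck79568
ck79600)
(Tab.all_node ck79632
ck79664))
(Tab.all_node (Tab.all_node ck79696
ck79728)
(Tab.all_node ck79760
ck79792)))))
(Tab.all_node (Tab.all_node (Tab.all_node (Tab.all_node (Tab.all_node ck79824
ck79856)
(Tab.all_node ck79888
(Tab.all_node ck79920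
ck79936)))
(Tab.all_node (Tab.all_node ck79952
(Tab.all_node ck79984
ck80000))
(Tab.all_node ck80016
ck80048)))
(Tab.all_node (Tab.all_node (Tab.all_node ck80080
ck80112)
(Tab.all_node ck80144
ck80176))
(Tab.all_node (Tab.all_node ck80208
(Tab.all_node ck80240
ck80256))
(Tab.all_node ck80272
ck80304))))
(Tab.all_node (Tab.all_node (Tab.all_node (Tab.all_node ck80336
ck80368)
(Tab.all_node ck80400
ck80432))
(Tab.all_node ck80464
(Tab.all_node ck80528
ck80560)))
(Tab.all_node (Tab.all_node (Tab.all_node ck80592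
ck80624)
(Tab.all_node ck80656
ck80688))
(Tab.all_node (Tab.all_node ck80720
ck80752)
(Tab.all_node ck80784
ck80816)))))))

theorem all_t3i : t3i.all (ruleImage t3b) = true :=
(Tab.all_node (Tab.all_node (Tab.all_node ck80848
ck81104)
(Tab.all_node ck81360
ck81616))
(Tab.all_node (Tab.all_node ck81872
(Tab.all_node ck82244
ck82500))
(Tab.all_node (Tab.all_node ck82756
ck83012)
(Tab.all_node ck83268
ck83524))))

theorem rootOK : slot2 (nat_lit 0) (nat_lit 0x1) (nat_lit 0x100000002) (fun y => Nat.ble y (nat_lit 55412146))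
    (full.find (nat_lit 15241)) = true := by
  decide +kernel

end Pool.Agent.MP_6a06cd_co.H45
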