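import Pool.Agent.MP_6a06cd_co.H45.XT0
import Pool.Agent.MP_6a06cd_co.H45.XT1
import Pool.Agent.MP_6a06cd_co.H45.XT2
import Pool.Agent.MP_6a06cd_co.H45.XT3
import Pool.Agent.MP_6a06cd_co.H45.XT4
import Pool.Agent.MP_6a06cd_co.H45.XT5
import Pool.Agent.MP_6a06cd_co.H45.XT6
import Pool.Agent.MP_6a06cd_co.H45.XT7
import Pool.Agent.MP_6a06cd_co.H45.XT8
import Pool.Agent.MP_6a06cd_co.H45.XT9

namespace Pool.Agent.MP_6a06cd_co.H45

set_option maxRecDepth 100000

noncomputable def t0 : Tab :=
tb0

noncomputable def t1b : Tab :=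
(.node (nat_lit 5482) (.node (nat_lit 2874) (.node (nat_lit 1972) (.node (nat_lit 948) (.node (nat_lit 436) (.node (nat_lit 180) tb1
tb180)
(.node (nat_lit 692) tb436
tb692))
(.node (nat_lit 1460) (.node (nat_lit 1204) tb948
tb1204)
(.node (nat_lit 1716) tb1460
tb1716)))
(.node (nat_lit 2377) (.node (nat_lit 2277) tb1972
tb2277)
(.node (nat_lit 2618) tb2377
tb2618)))
(.node (nat_lit 3674) (.node (nat_lit 3084) tb2874
(.node (nat_lit 3340) tb3084
tb3340))
(.node (nat_lit 4698) (.node (nat_lit 4186) (.node (nat_lit 3930) tb3674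
tb3930)
(.node (nat_lit 4442) tb4186
tb4442))
(.node (nat_lit 5210) (.node (nat_lit 4954) tb4698
tb4954)
tb5210))))
(.node (nat_lit 9241) (.node (nat_lit 7276) (.node (nat_lit 5483) tb5482
(.node (nat_lit 6252) (.node (nat_lit 5740) tb5483
(.node (nat_lit 5996) tb5740
tb5996))
(.node (nat_lit 6764) (.node (nat_lit 6508) tb6252
tb6508)
(.node (nat_lit 7020) tb6764
tb7020))))
(.node (nat_lit 8835) (.node (nat_lit 8300) (.node (nat_lit 7788) (.node (nat_lit 7532) tb7276
tb7532)
(.node (nat_lit 8044) tb7788
tb8044))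
(.node (nat_lit 8707) (.node (nat_lit 8556) tb8300
tb8556)
tb8707))
(.node (nat_lit 9011) tb8835
tb9011)))
(.node (nat_lit 14576) (.node (nat_lit 13133) (.node (nat_lit 11085) (.node (nat_lit 10061) (.node (nat_lit 9549) tb9241
(.node (nat_lit 9805) tb9549
tb9805))
(.node (nat_lit 10573) (.node (nat_lit 10317) tb10061
tb10317)
(.node (nat_lit 10829) tb10573
tb10829)))
(.node (nat_lit 12109) (.node (nat_lit 11597) (.node (nat_lit 11341) tb11085
tb11341)
(.node (nat_lit 11853) tb11597
tb11853))
(.node (nat_lit 12621) (.node (nat_lit 12365) tb12109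
tb12365)
(.node (nat_lit 12877) tb12621
tb12877))))
(.node (nat_lit 14064) (.node (nat_lit 13808) (.node (nat_lit 13645) (.node (nat_lit 13389) tb13133
tb13389)
tb13645)
tb13808)
(.node (nat_lit 14320) tb14064
tb14320)))
(.node (nat_lit 15123) (.node (nat_lit 14933) tb14576
tb14933)
(.node (nat_lit 15474) tb15123
(.node (nat_lit 15730) tb15474
tb15730))))))

noncomputable def t1i : Tab :=
(.node (nat_lit 41690) (.node (nat_lit 26329) (.node (nat_lit 18781) (.node (nat_lit 17959) (.node (nat_lit 16935) (.node (nat_lit 16423) (.node (nat_lit 16167) tb15911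
tb16167)
(.node (nat_lit 16679) tb16423
tb16679))
(.node (nat_lit 17447) (.node (nat_lit 17191) tb16935
tb17191)
(.node (nat_lit 17703) tb17447
tb17703)))
(.node (nat_lit 18490) (.node (nat_lit 18387) (.node (nat_lit 18215) tb17959
tb18215)
tb18387)
tb18490))
(.node (nat_lit 22877) (.node (nat_lit 20829) (.node (nat_lit 19805) (.node (nat_lit 19293) (.node (nat_lit 19037) tb18781
tb19037)
(.node (nat_lit 19549) tb19293
tb19549))
(.node (nat_lit 20317) (.node (nat_lit 20061) tb19805
tb20061)
(.node (nat_lit 20573) tb20317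
tb20573)))
(.node (nat_lit 21853) (.node (nat_lit 21341) (.node (nat_lit 21085) tb20829
tb21085)
(.node (nat_lit 21597) tb21341
tb21597))
(.node (nat_lit 22365) (.node (nat_lit 22109) tb21853
tb22109)
(.node (nat_lit 22621) tb22365
tb22621))))
(.node (nat_lit 24925) (.node (nat_lit 23901) (.node (nat_lit 23389) (.node (nat_lit 23133) tb22877
tb23133)
(.node (nat_lit 23645) tb23389
tb23645))
(.node (nat_lit 24413) (.node (nat_lit 24157) tb23901
tb24157)
(.node (nat_lit 24669) tb24413
tb24669)))
(.node (nat_lit 25949) (.node (nat_lit 25437) (.node (nat_lit 25181) tb24925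
tb25181)
(.node (nat_lit 25693) tb25437
tb25693))
tb25949))))
(.node (nat_lit 27315) (.node (nat_lit 26942) (.node (nat_lit 26781) (.node (nat_lit 26585) tb26329
tb26585)
tb26781)
tb26942)
(.node (nat_lit 33498) (.node (nat_lit 29402) (.node (nat_lit 27547) tb27315
(.node (nat_lit 28378) (.node (nat_lit 27866) tb27547
(.node (nat_lit 28122) tb27866
tb28122))
(.node (nat_lit 28890) (.node (nat_lit 28634) tb28378
tb28634)
(.node (nat_lit 29146) tb28890
tb29146))))
(.node (nat_lit 31450) (.node (nat_lit 30426) (.node (nat_lit 29914) (.node (nat_lit 29658) tb29402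
tb29658)
(.node (nat_lit 30170) tb29914
tb30170))
(.node (nat_lit 30938) (.node (nat_lit 30682) tb30426
tb30682)
(.node (nat_lit 31194) tb30938
tb31194)))
(.node (nat_lit 32474) (.node (nat_lit 31962) (.node (nat_lit 31706) tb31450
tb31706)
(.node (nat_lit 32218) tb31962
tb32218))
(.node (nat_lit 32986) (.node (nat_lit 32730) tb32474
tb32730)
(.node (nat_lit 33242) tb32986
tb33242)))))
(.node (nat_lit 37594) (.node (nat_lit 35546) (.node (nat_lit 34522) (.node (nat_lit 34010) (.node (nat_lit 33754) tb33498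
tb33754)
(.node (nat_lit 34266) tb34010
tb34266))
(.node (nat_lit 35034) (.node (nat_lit 34778) tb34522
tb34778)
(.node (nat_lit 35290) tb35034
tb35290)))
(.node (nat_lit 36570) (.node (nat_lit 36058) (.node (nat_lit 35802) tb35546
tb35802)
(.node (nat_lit 36314) tb36058
tb36314))
(.node (nat_lit 37082) (.node (nat_lit 36826) tb36570
tb36826)
(.node (nat_lit 37338) tb37082
tb37338))))
(.node (nat_lit 39642) (.node (nat_lit 38618) (.node (nat_lit 38106) (.node (nat_lit 37850) tb37594
tb37850)
(.node (nat_lit 38362) tb38106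
tb38362))
(.node (nat_lit 39130) (.node (nat_lit 38874) tb38618
tb38874)
(.node (nat_lit 39386) tb39130
tb39386)))
(.node (nat_lit 40666) (.node (nat_lit 40154) (.node (nat_lit 39898) tb39642
tb39898)
(.node (nat_lit 40410) tb40154
tb40410))
(.node (nat_lit 41178) (.node (nat_lit 40922) tb40666
tb40922)
(.node (nat_lit 41434) tb41178
tb41434))))))))
(.node (nat_lit 48892) (.node (nat_lit 46646) (.node (nat_lit 45926) (.node (nat_lit 44902) (.node (nat_lit 43738) (.node (nat_lit 42714) (.node (nat_lit 42202) (.node (nat_lit 41946) tb41690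
tb41946)
(.node (nat_lit 42458) tb42202
tb42458))
(.node (nat_lit 43226) (.node (nat_lit 42970) tb42714
tb42970)
(.node (nat_lit 43482) tb43226
tb43482)))
(.node (nat_lit 44762) (.node (nat_lit 44250) (.node (nat_lit 43994) tb43738
tb43994)
(.node (nat_lit 44506) tb44250
tb44506))
tb44762))
(.node (nat_lit 45414) (.node (nat_lit 45158) tb44902
tb45158)
(.node (nat_lit 45670) tb45414
tb45670)))
(.node (nat_lit 46645) (.node (nat_lit 46438) (.node (nat_lit 46182) tb45926
tb46182)
tb46438)
tb46645))
(.node (nat_lit 47275) (.node (nat_lit 47044) tb46646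
tb47044)
(.node (nat_lit 47868) (.node (nat_lit 47531) tb47275
tb47531)
(.node (nat_lit 48380) (.node (nat_lit 48124) tb47868
tb48124)
(.node (nat_lit 48636) tb48380
tb48636)))))
(.node (nat_lit 53502) (.node (nat_lit 51902) (.node (nat_lit 49854) (.node (nat_lit 49028) tb48892
(.node (nat_lit 49342) tb49028
(.node (nat_lit 49598) tb49342
tb49598)))
(.node (nat_lit 50878) (.node (nat_lit 50366) (.node (nat_lit 50110) tb49854
tb50110)
(.node (nat_lit 50622) tb50366
tb50622))
(.node (nat_lit 51390) (.node (nat_lit 51134) tb50878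
tb51134)
(.node (nat_lit 51646) tb51390
tb51646))))
(.node (nat_lit 53076) (.node (nat_lit 52851) (.node (nat_lit 52414) (.node (nat_lit 52158) tb51902
tb52158)
(.node (nat_lit 52670) tb52414
tb52670))
tb52851)
(.node (nat_lit 53226) tb53076
tb53226)))
(.node (nat_lit 54578) (.node (nat_lit 54414) (.node (nat_lit 54014) (.node (nat_lit 53758) tb53502
tb53758)
tb54014)
tb54414)
(.node (nat_lit 55019) (.node (nat_lit 54744) tb54578
tb54744)
(.node (nat_lit 55531) (.node (nat_lit 55275) tb55019
tb55275)
(.node (nat_lit 55726) tb55531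
tb55726)))))))

noncomputable def t2b : Tab :=
(.node (nat_lit 58783) (.node (nat_lit 56747) (.node (nat_lit 56378) (.node (nat_lit 56213) (.node (nat_lit 56085) (.node (nat_lit 56021) (.node (nat_lit 55989) tb55957
(.node (nat_lit 56005) tb55989
tb56005))
(.node (nat_lit 56053) tb56021
tb56053))
(.node (nat_lit 56149) tb56085
(.node (nat_lit 56181) (.node (nat_lit 56165) tb56149
tb56165)
(.node (nat_lit 56197) tb56181
tb56197))))
(.node (nat_lit 56341) (.node (nat_lit 56277) tb56213
(.node (nat_lit 56309) tb56277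
tb56309))
(.node (nat_lit 56360) tb56341
tb56360)))
(.node (nat_lit 56493) (.node (nat_lit 56422) (.node (nat_lit 56410) tb56378
tb56410)
(.node (nat_lit 56447) (.node (nat_lit 56431) tb56422
tb56431)
(.node (nat_lit 56463) tb56447
(.node (nat_lit 56477) (.node (nat_lit 56469) tb56463
tb56469)
tb56477))))
(.node (nat_lit 56621) (.node (nat_lit 56557) (.node (nat_lit 56525) tb56493
tb56525)
(.node (nat_lit 56589) (.node (nat_lit 56573) tb56557
tb56573)
tb56589))
(.node (nat_lit 56685) (.node (nat_lit 56653) tb56621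
tb56653)
(.node (nat_lit 56714) tb56685
(.node (nat_lit 56722) tb56714
(.node (nat_lit 56731) tb56722
(.node (nat_lit 56739) (.node (nat_lit 56735) (.node (nat_lit 56733) tb56731
(.node (nat_lit 56734) tb56733
tb56734))
tb56735)
(.node (nat_lit 56743) tb56739
tb56743)))))))))
(.node (nat_lit 57771) (.node (nat_lit 57259) (.node (nat_lit 57003) (.node (nat_lit 56875) (.node (nat_lit 56811) (.node (nat_lit 56779) (.node (nat_lit 56763) (.node (nat_lit 56755) (.node (nat_lit 56751) (.node (nat_lit 56749) tb56747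
tb56749)
(.node (nat_lit 56753) tb56751
tb56753))
(.node (nat_lit 56759) (.node (nat_lit 56757) tb56755
tb56757)
tb56759))
(.node (nat_lit 56771) (.node (nat_lit 56767) tb56763
tb56767)
(.node (nat_lit 56775) (.node (nat_lit 56773) tb56771
tb56773)
(.node (nat_lit 56777) tb56775
(.node (nat_lit 56778) tb56777
tb56778)))))
(.node (nat_lit 56795) (.node (nat_lit 56787) (.node (nat_lit 56783) tb56779
tb56783)
(.node (nat_lit 56791) tb56787
tb56791))
(.node (nat_lit 56803) tb56795
tb56803)))
(.node (nat_lit 56843) (.node (nat_lit 56827) (.node (nat_lit 56819) tb56811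
tb56819)
(.node (nat_lit 56835) (.node (nat_lit 56831) (.node (nat_lit 56829) tb56827
tb56829)
tb56831)
(.node (nat_lit 56839) (.node (nat_lit 56837) tb56835
tb56837)
tb56839)))
(.node (nat_lit 56859) (.node (nat_lit 56851) tb56843
tb56851)
tb56859)))
(.node (nat_lit 56939) (.node (nat_lit 56907) tb56875
(.node (nat_lit 56923) tb56907
(.node (nat_lit 56931) tb56923
tb56931)))
(.node (nat_lit 56971) (.node (nat_lit 56955) tb56939
tb56955)
tb56971)))
(.node (nat_lit 57131) (.node (nat_lit 57067) (.node (nat_lit 57035) tb57003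
tb57035)
(.node (nat_lit 57099) tb57067
(.node (nat_lit 57115) tb57099
tb57115)))
(.node (nat_lit 57195) (.node (nat_lit 57163) (.node (nat_lit 57147) tb57131
(.node (nat_lit 57155) tb57147
tb57155))
tb57163)
(.node (nat_lit 57227) tb57195
tb57227))))
(.node (nat_lit 57515) (.node (nat_lit 57387) (.node (nat_lit 57323) tb57259
tb57323)
(.node (nat_lit 57451) tb57387
tb57451))
(.node (nat_lit 57643) (.node (nat_lit 57579) tb57515
tb57579)
(.node (nat_lit 57707) tb57643
tb57707))))
(.node (nat_lit 58283) (.node (nat_lit 58027) (.node (nat_lit 57899) (.node (nat_lit 57835) (.node (nat_lit 57803) tb57771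
tb57803)
tb57835)
(.node (nat_lit 57963) tb57899
tb57963))
(.node (nat_lit 58155) (.node (nat_lit 58091) tb58027
tb58091)
(.node (nat_lit 58219) tb58155
tb58219)))
(.node (nat_lit 58539) (.node (nat_lit 58411) (.node (nat_lit 58347) tb58283
tb58347)
(.node (nat_lit 58475) tb58411
tb58475))
(.node (nat_lit 58667) (.node (nat_lit 58603) tb58539
(.node (nat_lit 58635) tb58603
tb58635))
(.node (nat_lit 58731) (.node (nat_lit 58699) tb58667
(.node (nat_lit 58715) tb58699
tb58715))
(.node (nat_lit 58763) tb58731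
(.node (nat_lit 58779) tb58763
tb58779))))))))
(.node (nat_lit 62531) (.node (nat_lit 60483) (.node (nat_lit 59459) (.node (nat_lit 58947) (.node (nat_lit 58810) (.node (nat_lit 58799) tb58783
tb58799)
(.node (nat_lit 58826) tb58810
(.node (nat_lit 58883) (.node (nat_lit 58851) (.node (nat_lit 58835) (.node (nat_lit 58827) tb58826
(.node (nat_lit 58831) tb58827
tb58831))
(.node (nat_lit 58843) (.node (nat_lit 58839) tb58835
(.node (nat_lit 58841) tb58839
tb58841))
(.node (nat_lit 58847) (.node (nat_lit 58845) (.node (nat_lit 58844) tb58843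
tb58844)
tb58845)
tb58847)))
(.node (nat_lit 58867) (.node (nat_lit 58859) (.node (nat_lit 58855) tb58851
(.node (nat_lit 58857) tb58855
tb58857))
tb58859)
(.node (nat_lit 58875) (.node (nat_lit 58871) tb58867
(.node (nat_lit 58873) (.node (nat_lit 58872) tb58871
tb58872)
tb58873))
(.node (nat_lit 58879) tb58875
tb58879))))
(.node (nat_lit 58915) (.node (nat_lit 58899) (.node (nat_lit 58891) (.node (nat_lit 58887) (.node (nat_lit 58885) (.node (nat_lit 58884) tb58883
tb58884)
tb58885)
tb58887)
(.node (nat_lit 58895) tb58891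
tb58895))
(.node (nat_lit 58907) (.node (nat_lit 58903) tb58899
tb58903)
(.node (nat_lit 58911) tb58907
tb58911)))
(.node (nat_lit 58931) (.node (nat_lit 58923) (.node (nat_lit 58919) tb58915
(.node (nat_lit 58921) tb58919
tb58921))
(.node (nat_lit 58927) (.node (nat_lit 58925) tb58923
tb58925)
tb58927))
(.node (nat_lit 58939) (.node (nat_lit 58935) (.node (nat_lit 58933) tb58931
tb58933)
tb58935)
(.node (nat_lit 58943) (.node (nat_lit 58941) tb58939
tb58941)
tb58943)))))))
(.node (nat_lit 59203) (.node (nat_lit 59075) (.node (nat_lit 59011) (.node (nat_lit 58979) (.node (nat_lit 58963) (.node (nat_lit 58955) (.node (nat_lit 58951) tb58947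
tb58951)
(.node (nat_lit 58959) tb58955
tb58959))
(.node (nat_lit 58971) (.node (nat_lit 58967) tb58963
tb58967)
(.node (nat_lit 58975) tb58971
tb58975)))
(.node (nat_lit 58995) (.node (nat_lit 58987) (.node (nat_lit 58983) (.node (nat_lit 58981) tb58979
tb58981)
tb58983)
tb58987)
(.node (nat_lit 59003) (.node (nat_lit 58999) (.node (nat_lit 58997) tb58995
tb58997)
tb58999)
(.node (nat_lit 59007) tb59003
(.node (nat_lit 59009) tb59007
tb59009)))))
(.node (nat_lit 59043) (.node (nat_lit 59027) (.node (nat_lit 59019) tb59011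
tb59019)
(.node (nat_lit 59035) tb59027
tb59035))
(.node (nat_lit 59059) (.node (nat_lit 59051) tb59043
tb59051)
(.node (nat_lit 59067) (.node (nat_lit 59063) tb59059
tb59063)
tb59067))))
(.node (nat_lit 59139) (.node (nat_lit 59107) (.node (nat_lit 59091) (.node (nat_lit 59083) tb59075
(.node (nat_lit 59087) tb59083
tb59087))
tb59091)
(.node (nat_lit 59123) tb59107
(.node (nat_lit 59131) tb59123
tb59131)))
(.node (nat_lit 59171) (.node (nat_lit 59155) (.node (nat_lit 59147) tb59139
tb59147)
(.node (nat_lit 59163) (.node (nat_lit 59159) tb59155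
tb59159)
tb59163))
(.node (nat_lit 59187) tb59171
(.node (nat_lit 59195) tb59187
tb59195)))))
(.node (nat_lit 59331) (.node (nat_lit 59267) (.node (nat_lit 59235) (.node (nat_lit 59219) tb59203
tb59219)
(.node (nat_lit 59251) tb59235
tb59251))
(.node (nat_lit 59299) tb59267
(.node (nat_lit 59315) tb59299
(.node (nat_lit 59323) tb59315
tb59323))))
(.node (nat_lit 59395) (.node (nat_lit 59363) (.node (nat_lit 59347) tb59331
(.node (nat_lit 59355) tb59347
tb59355))
tb59363)
(.node (nat_lit 59427) tb59395
tb59427)))))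
(.node (nat_lit 59971) (.node (nat_lit 59715) (.node (nat_lit 59587) (.node (nat_lit 59523) (.node (nat_lit 59491) tb59459
tb59491)
(.node (nat_lit 59555) tb59523
tb59555))
(.node (nat_lit 59651) (.node (nat_lit 59619) tb59587
tb59619)
(.node (nat_lit 59683) tb59651
tb59683)))
(.node (nat_lit 59843) (.node (nat_lit 59779) tb59715
(.node (nat_lit 59811) tb59779
tb59811))
(.node (nat_lit 59907) (.node (nat_lit 59875) tb59843
tb59875)
(.node (nat_lit 59939) tb59907
tb59939))))
(.node (nat_lit 60227) (.node (nat_lit 60099) (.node (nat_lit 60035) (.node (nat_lit 60003) tb59971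
tb60003)
tb60035)
(.node (nat_lit 60163) tb60099
(.node (nat_lit 60195) tb60163
(.node (nat_lit 60211) (.node (nat_lit 60203) (.node (nat_lit 60199) tb60195
tb60199)
tb60203)
tb60211))))
(.node (nat_lit 60355) (.node (nat_lit 60291) tb60227
tb60291)
(.node (nat_lit 60419) tb60355
tb60419)))))
(.node (nat_lit 61507) (.node (nat_lit 60995) (.node (nat_lit 60739) (.node (nat_lit 60611) (.node (nat_lit 60547) tb60483
(.node (nat_lit 60579) tb60547
tb60579))
(.node (nat_lit 60675) tb60611
tb60675))
(.node (nat_lit 60867) (.node (nat_lit 60803) tb60739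
tb60803)
(.node (nat_lit 60931) tb60867
tb60931)))
(.node (nat_lit 61251) (.node (nat_lit 61123) (.node (nat_lit 61059) (.node (nat_lit 61027) tb60995
tb61027)
tb61059)
(.node (nat_lit 61187) (.node (nat_lit 61155) tb61123
tb61155)
tb61187))
(.node (nat_lit 61379) (.node (nat_lit 61315) tb61251
tb61315)
(.node (nat_lit 61443) tb61379
tb61443))))
(.node (nat_lit 62019) (.node (nat_lit 61763) (.node (nat_lit 61635) (.node (nat_lit 61571) (.node (nat_lit 61539) tb61507
tb61539)
tb61571)
(.node (nat_lit 61699) (.node (nat_lit 61667) (.node (nat_lit 61651) tb61635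
tb61651)
tb61667)
tb61699))
(.node (nat_lit 61891) (.node (nat_lit 61827) tb61763
tb61827)
(.node (nat_lit 61955) tb61891
tb61955)))
(.node (nat_lit 62275) (.node (nat_lit 62147) (.node (nat_lit 62083) tb62019
tb62083)
(.node (nat_lit 62211) (.node (nat_lit 62179) (.node (nat_lit 62163) tb62147
tb62163)
tb62179)
tb62211))
(.node (nat_lit 62403) (.node (nat_lit 62339) tb62275
tb62339)
(.node (nat_lit 62467) (.node (nat_lit 62435) tb62403
tb62435)
tb62467))))))
(.node (nat_lit 64579) (.node (nat_lit 63555) (.node (nat_lit 63043) (.node (nat_lit 62787) (.node (nat_lit 62659) (.node (nat_lit 62595) (.node (nat_lit 62563) tb62531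
tb62563)
tb62595)
(.node (nat_lit 62723) tb62659
tb62723))
(.node (nat_lit 62915) tb62787
(.node (nat_lit 62979) tb62915
tb62979)))
(.node (nat_lit 63299) (.node (nat_lit 63171) (.node (nat_lit 63107) tb63043
tb63107)
(.node (nat_lit 63235) tb63171
tb63235))
(.node (nat_lit 63427) (.node (nat_lit 63363) tb63299
tb63363)
(.node (nat_lit 63491) tb63427
tb63491))))
(.node (nat_lit 64067) (.node (nat_lit 63811) (.node (nat_lit 63683) (.node (nat_lit 63619) tb63555
tb63619)
(.node (nat_lit 63747) tb63683
tb63747))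
(.node (nat_lit 63939) (.node (nat_lit 63875) tb63811
tb63875)
tb63939))
(.node (nat_lit 64323) (.node (nat_lit 64195) (.node (nat_lit 64131) (.node (nat_lit 64099) tb64067
tb64099)
tb64131)
(.node (nat_lit 64259) tb64195
tb64259))
(.node (nat_lit 64451) tb64323
tb64451))))
(.node (nat_lit 64996) (.node (nat_lit 64914) (.node (nat_lit 64835) (.node (nat_lit 64707) tb64579
tb64707)
(.node (nat_lit 64882) (.node (nat_lit 64866) (.node (nat_lit 64858) tb64835
tb64858)
tb64866)
tb64882))
(.node (nat_lit 64969) tb64914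
(.node (nat_lit 64987) (.node (nat_lit 64979) tb64969
tb64979)
tb64987)))
(.node (nat_lit 65065) (.node (nat_lit 65013) (.node (nat_lit 65000) tb64996
(.node (nat_lit 65005) tb65000
tb65005))
(.node (nat_lit 65033) tb65013
tb65033))
(.node (nat_lit 65184) (.node (nat_lit 65120) (.node (nat_lit 65088) (.node (nat_lit 65073) tb65065
(.node (nat_lit 65080) tb65073
(.node (nat_lit 65084) (.node (nat_lit 65082) tb65080
tb65082)
tb65084)))
(.node (nat_lit 65104) (.node (nat_lit 65096) (.node (nat_lit 65092) (.node (nat_lit 65090) tb65088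
tb65090)
tb65092)
(.node (nat_lit 65100) tb65096
tb65100))
(.node (nat_lit 65112) tb65104
(.node (nat_lit 65116) tb65112
tb65116))))
(.node (nat_lit 65152) (.node (nat_lit 65136) (.node (nat_lit 65128) (.node (nat_lit 65124) tb65120
(.node (nat_lit 65126) tb65124
tb65126))
tb65128)
(.node (nat_lit 65144) tb65136
tb65144))
(.node (nat_lit 65168) tb65152
tb65168)))
(.node (nat_lit 65248) (.node (nat_lit 65216) (.node (nat_lit 65200) tb65184
tb65200)
tb65216)
(.node (nat_lit 65280) (.node (nat_lit 65264) tb65248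
tb65264)
(.node (nat_lit 65296) tb65280
tb65296)))))))))

noncomputable def t2i : Tab :=
(.node (nat_lit 67616) (.node (nat_lit 66488) (.node (nat_lit 65882) (.node (nat_lit 65540) tb65312
tb65540)
(.node (nat_lit 66355) (.node (nat_lit 66138) tb65882
tb66138)
tb66355))
(.node (nat_lit 66849) tb66488
(.node (nat_lit 67225) tb66849
tb67225)))
(.node (nat_lit 71992) (.node (nat_lit 69201) (.node (nat_lit 68640) (.node (nat_lit 68128) (.node (nat_lit 67872) tb67616
tb67872)
(.node (nat_lit 68384) tb68128
tb68384))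
(.node (nat_lit 69082) (.node (nat_lit 68896) tb68640
tb68896)
tb69082))
(.node (nat_lit 69944) (.node (nat_lit 69284) tb69201
(.node (nat_lit 69432) tb69284
(.node (nat_lit 69688) tb69432
tb69688)))
(.node (nat_lit 70968) (.node (nat_lit 70456) (.node (nat_lit 70200) tb69944
tb70200)
(.node (nat_lit 70712) tb70456
tb70712))
(.node (nat_lit 71480) (.node (nat_lit 71224) tb70968
tb71224)
(.node (nat_lit 71736) tb71480
tb71736)))))
(.node (nat_lit 76088) (.node (nat_lit 74040) (.node (nat_lit 73016) (.node (nat_lit 72504) (.node (nat_lit 72248) tb71992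
tb72248)
(.node (nat_lit 72760) tb72504
tb72760))
(.node (nat_lit 73528) (.node (nat_lit 73272) tb73016
tb73272)
(.node (nat_lit 73784) tb73528
tb73784)))
(.node (nat_lit 75064) (.node (nat_lit 74552) (.node (nat_lit 74296) tb74040
tb74296)
(.node (nat_lit 74808) tb74552
tb74808))
(.node (nat_lit 75576) (.node (nat_lit 75320) tb75064
tb75320)
(.node (nat_lit 75832) tb75576
tb75832))))
(.node (nat_lit 77290) (.node (nat_lit 77034) (.node (nat_lit 76600) (.node (nat_lit 76344) tb76088
tb76344)
(.node (nat_lit 76856) tb76600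
tb76856))
tb77034)
tb77290))))

noncomputable def t3b : Tab :=
(.node (nat_lit 78800) (.node (nat_lit 78028) (.node (nat_lit 77772) (.node (nat_lit 77644) (.node (nat_lit 77580) (.node (nat_lit 77548) tb77516
tb77548)
(.node (nat_lit 77612) tb77580
tb77612))
(.node (nat_lit 77708) (.node (nat_lit 77676) tb77644
tb77676)
tb77708))
(.node (nat_lit 77900) (.node (nat_lit 77836) tb77772
tb77836)
(.node (nat_lit 77964) tb77900
(.node (nat_lit 77996) tb77964
tb77996))))
(.node (nat_lit 78288) (.node (nat_lit 78156) (.node (nat_lit 78092) tb78028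
tb78092)
(.node (nat_lit 78220) tb78156
(.node (nat_lit 78252) tb78220
(.node (nat_lit 78268) (.node (nat_lit 78260) tb78252
tb78260)
(.node (nat_lit 78276) tb78268
tb78276)))))
(.node (nat_lit 78544) (.node (nat_lit 78416) (.node (nat_lit 78352) (.node (nat_lit 78320) (.node (nat_lit 78304) (.node (nat_lit 78296) (.node (nat_lit 78292) tb78288
(.node (nat_lit 78294) tb78292
(.node (nat_lit 78295) tb78294
tb78295)))
(.node (nat_lit 78300) (.node (nat_lit 78298) tb78296
tb78298)
(.node (nat_lit 78302) tb78300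
tb78302)))
(.node (nat_lit 78312) (.node (nat_lit 78308) (.node (nat_lit 78306) tb78304
tb78306)
(.node (nat_lit 78310) tb78308
tb78310))
(.node (nat_lit 78316) (.node (nat_lit 78314) tb78312
tb78314)
tb78316)))
(.node (nat_lit 78336) (.node (nat_lit 78328) (.node (nat_lit 78324) tb78320
tb78324)
(.node (nat_lit 78332) tb78328
tb78332))
(.node (nat_lit 78344) (.node (nat_lit 78340) (.node (nat_lit 78338) tb78336
tb78338)
(.node (nat_lit 78342) tb78340
tb78342))
(.node (nat_lit 78348) tb78344
(.node (nat_lit 78350) tb78348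
tb78350)))))
(.node (nat_lit 78384) (.node (nat_lit 78368) (.node (nat_lit 78360) (.node (nat_lit 78356) (.node (nat_lit 78354) tb78352
tb78354)
tb78356)
(.node (nat_lit 78364) tb78360
tb78364))
(.node (nat_lit 78376) (.node (nat_lit 78372) (.node (nat_lit 78370) tb78368
tb78370)
tb78372)
(.node (nat_lit 78380) tb78376
tb78380)))
(.node (nat_lit 78400) (.node (nat_lit 78392) (.node (nat_lit 78388) tb78384
tb78388)
(.node (nat_lit 78396) (.node (nat_lit 78394) tb78392
tb78394)
tb78396))
(.node (nat_lit 78408) (.node (nat_lit 78404) tb78400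
tb78404)
(.node (nat_lit 78412) tb78408
tb78412)))))
(.node (nat_lit 78480) (.node (nat_lit 78448) (.node (nat_lit 78432) (.node (nat_lit 78424) tb78416
(.node (nat_lit 78428) tb78424
tb78428))
(.node (nat_lit 78440) (.node (nat_lit 78436) tb78432
tb78436)
(.node (nat_lit 78444) tb78440
tb78444)))
(.node (nat_lit 78464) (.node (nat_lit 78456) (.node (nat_lit 78452) tb78448
tb78452)
(.node (nat_lit 78460) tb78456
tb78460))
(.node (nat_lit 78472) (.node (nat_lit 78468) (.node (nat_lit 78466) tb78464
tb78466)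
tb78468)
tb78472)))
(.node (nat_lit 78512) (.node (nat_lit 78496) (.node (nat_lit 78488) (.node (nat_lit 78484) tb78480
tb78484)
tb78488)
(.node (nat_lit 78504) tb78496
(.node (nat_lit 78508) tb78504
tb78508)))
(.node (nat_lit 78528) (.node (nat_lit 78520) tb78512
tb78520)
tb78528))))
(.node (nat_lit 78672) (.node (nat_lit 78608) (.node (nat_lit 78576) (.node (nat_lit 78560) tb78544
(.node (nat_lit 78568) tb78560
tb78568))
(.node (nat_lit 78592) (.node (nat_lit 78584) (.node (nat_lit 78580) tb78576
tb78580)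
tb78584)
tb78592))
(.node (nat_lit 78640) (.node (nat_lit 78624) (.node (nat_lit 78616) tb78608
tb78616)
(.node (nat_lit 78632) (.node (nat_lit 78628) tb78624
tb78628)
tb78632))
(.node (nat_lit 78656) (.node (nat_lit 78648) tb78640
tb78648)
(.node (nat_lit 78664) tb78656
tb78664))))
(.node (nat_lit 78736) (.node (nat_lit 78704) (.node (nat_lit 78688) tb78672
tb78688)
(.node (nat_lit 78720) tb78704
tb78720))
(.node (nat_lit 78768) (.node (nat_lit 78752) tb78736
tb78752)
(.node (nat_lit 78784) tb78768
(.node (nat_lit 78792) tb78784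
tb78792))))))))
(.node (nat_lit 79824) (.node (nat_lit 79312) (.node (nat_lit 79056) (.node (nat_lit 78928) (.node (nat_lit 78864) (.node (nat_lit 78832) (.node (nat_lit 78816) tb78800
(.node (nat_lit 78824) tb78816
(.node (nat_lit 78828) tb78824
(.node (nat_lit 78830) tb78828
tb78830))))
tb78832)
(.node (nat_lit 78896) (.node (nat_lit 78880) tb78864
tb78880)
(.node (nat_lit 78912) tb78896
tb78912)))
(.node (nat_lit 78992) (.node (nat_lit 78960) (.node (nat_lit 78944) (.node (nat_lit 78936) tb78928
tb78936)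
tb78944)
tb78960)
(.node (nat_lit 79024) tb78992
(.node (nat_lit 79040) tb79024
tb79040))))
(.node (nat_lit 79184) (.node (nat_lit 79120) (.node (nat_lit 79088) (.node (nat_lit 79072) tb79056
tb79072)
tb79088)
(.node (nat_lit 79152) (.node (nat_lit 79136) tb79120
tb79136)
tb79152))
(.node (nat_lit 79248) (.node (nat_lit 79216) (.node (nat_lit 79200) tb79184
tb79200)
(.node (nat_lit 79232) tb79216
tb79232))
(.node (nat_lit 79280) tb79248
tb79280))))
(.node (nat_lit 79568) (.node (nat_lit 79440) (.node (nat_lit 79376) (.node (nat_lit 79344) tb79312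
(.node (nat_lit 79360) tb79344
tb79360))
(.node (nat_lit 79408) (.node (nat_lit 79392) tb79376
tb79392)
(.node (nat_lit 79424) tb79408
tb79424)))
(.node (nat_lit 79504) (.node (nat_lit 79472) tb79440
tb79472)
(.node (nat_lit 79536) tb79504
(.node (nat_lit 79552) tb79536
tb79552))))
(.node (nat_lit 79696) (.node (nat_lit 79632) (.node (nat_lit 79600) tb79568
tb79600)
(.node (nat_lit 79664) tb79632
tb79664))
(.node (nat_lit 79760) (.node (nat_lit 79728) tb79696
tb79728)
(.node (nat_lit 79792) tb79760
tb79792)))))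
(.node (nat_lit 80336) (.node (nat_lit 80080) (.node (nat_lit 79952) (.node (nat_lit 79888) (.node (nat_lit 79856) tb79824
tb79856)
(.node (nat_lit 79920) tb79888
(.node (nat_lit 79936) tb79920
tb79936)))
(.node (nat_lit 80016) (.node (nat_lit 79984) tb79952
(.node (nat_lit 80000) tb79984
tb80000))
(.node (nat_lit 80048) tb80016
tb80048)))
(.node (nat_lit 80208) (.node (nat_lit 80144) (.node (nat_lit 80112) tb80080
tb80112)
(.node (nat_lit 80176) tb80144
tb80176))
(.node (nat_lit 80272) (.node (nat_lit 80240) tb80208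
(.node (nat_lit 80256) tb80240
tb80256))
(.node (nat_lit 80304) tb80272
tb80304))))
(.node (nat_lit 80592) (.node (nat_lit 80464) (.node (nat_lit 80400) (.node (nat_lit 80368) tb80336
tb80368)
(.node (nat_lit 80432) tb80400
tb80432))
(.node (nat_lit 80528) tb80464
(.node (nat_lit 80560) tb80528
tb80560)))
(.node (nat_lit 80720) (.node (nat_lit 80656) (.node (nat_lit 80624) tb80592
tb80624)
(.node (nat_lit 80688) tb80656
tb80688))
(.node (nat_lit 80784) (.node (nat_lit 80752) tb80720
tb80752)
(.node (nat_lit 80816) tb80784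
tb80816)))))))

noncomputable def t3i : Tab :=
(.node (nat_lit 81872) (.node (nat_lit 81360) (.node (nat_lit 81104) tb80848
tb81104)
(.node (nat_lit 81616) tb81360
tb81616))
(.node (nat_lit 82756) (.node (nat_lit 82244) tb81872
(.node (nat_lit 82500) tb82244
tb82500))
(.node (nat_lit 83268) (.node (nat_lit 83012) tb82756
tb83012)
(.node (nat_lit 83524) tb83268
tb83524))))

noncomputable def s1 : Tab := .node (nat_lit 15911) (.node (nat_lit 1) t0 t1b) t1i

noncomputable def s2 : Tab := .node (nat_lit 55957) s1 (.node (nat_lit 65312) t2b t2i)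

noncomputable def full : Tab := .node (nat_lit 77516) s2 (.node (nat_lit 80848) t3b t3i)

end Pool.Agent.MP_6a06cd_co.H45
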